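import Pool.Agent.Helper61.AD2.Defs2
import Pool.Agent.Helper61.AD.PerPoint

/-!
# Block AD2-PD: the local data of one polynomial (without sorting)

Proof (compare `AD/PerPoint.lean`, which contains all the pieces). For `v ∈ T`, `w ∈ above N v`, `p ∈ A`, `s ≤ r` let
`m w p s` be the minimum over `I : Finset (Fin r)` with `I.card = r - s` of
`(∑ i ∈ I, max 0 (cl w (x i) (p.map ..))) / ldeg v w`
and `μ v p s` the maximum over `w ∈ above N v` (non-empty, `above_nonempty`); `0` if `v ∉ T` or `p ∉ A` or `r < s`.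
`root_bound` at the place `w` where the maximum is attained, with `M = ldeg v w * μ v p s`, and
`nv w (algebraMap K N a) = nv v a ^ ldeg` (`nv_above`), `vn_above`, `sn_above`, then the `ldeg`-th root (see PerPoint (ii)).
Upper bound: `cl_liou` (with `k = K`).
-/

namespace Pool.Agent.Helper61.AD2

open NumberField Finset Polynomial Module
open Pool.Agent.Helper64.Vojta (Pl nv sn above)
open Pool.Agent.Helper61.AD (cl tay cf)
open Pool.Agent.Helper52.Vojta (ldeg)
open Pool.Agent.V2 (vn vH)

universe u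

theorem datum {K : Type u} [Field K] [NumberField K] (r : ℕ) (T : Finset (Pl K))
    (A : Finset (Option K)) (D : ℕ) :
    ∃ c : ℝ, 1 ≤ c ∧ ∀ (N : Type u) [Field N] [NumberField N] [Algebra K N], finrank K N ≤ D →
      ∀ P : K[X], P.Monic → P.natDegree = r → ∀ x : Fin r → N,
      P.map (algebraMap K N) = ∏ i, (X - C (x i)) →
      (∀ i, ∀ p ∈ A, p.map (algebraMap K N) ≠ some (x i)) →
      ∃ μ : Pl K → Option K → ℕ → ℝ,
        (∀ v p s, 0 ≤ μ v p s) ∧ (∀ v p s, μ v p s ≤ c * (vH (cf r P) + 1)) ∧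
        (∀ v ∈ T, ∀ p ∈ A, ∀ s ≤ r, nv v ((tay p r P).coeff s) ≤
          c * vn v (cf r P) * Real.exp (-(μ v p s))) ∧
        (∀ v ∈ T, ∀ w ∈ above N v, ∀ p ∈ A, ∀ s ≤ r, ∃ I : Finset (Fin r), I.card = r - s ∧
          ∑ i ∈ I, max 0 (cl w (x i) (p.map (algebraMap K N))) ≤ ldeg v w * μ v p s) := by
  classical
  obtain ⟨c0, hc0, hroot⟩ := Pool.Agent.Helper61.AD.root_bound.{u} r
  choose cL hcL0 hcL using fun p : Option K =>
    Pool.Agent.Helper61.AD.cl_liou.{u} (k := K) (K := K) r p D
  set B : Pl K → Option K → ℝ := fun v p => (sn v ![p.getD 0, 1]) ^ r with hB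
  have hsn0 : ∀ (v : Pl K) (y : Fin 2 → K), 0 ≤ sn v y := fun v y =>
    Real.iSup_nonneg (fun i => Helper64.Vojta.nv_nonneg _ _)
  have hB0 : ∀ v p, 0 ≤ B v p := fun v p => pow_nonneg (hsn0 _ _) _
  set c : ℝ := 1 + c0 * ∑ v ∈ T, ∑ p ∈ A, B v p + r * ∑ p ∈ A, cL p with hc
  have n1 : 0 ≤ c0 * ∑ v ∈ T, ∑ p ∈ A, B v p :=
    mul_nonneg (by linarith) (Finset.sum_nonneg fun v _ => Finset.sum_nonneg fun p _ => hB0 v p)
  have n2 : 0 ≤ r * ∑ p ∈ A, cL p :=
    mul_nonneg (Nat.cast_nonneg r) (Finset.sum_nonneg fun p _ => hcL0 p)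
  have hc1 : 1 ≤ c := by rw [hc]; linarith
  have hcB : ∀ v ∈ T, ∀ p ∈ A, c0 * B v p ≤ c := by
    intro v hv p hp
    have h1 : B v p ≤ ∑ v ∈ T, ∑ p ∈ A, B v p :=
      (Finset.single_le_sum (f := fun p => B v p) (fun p _ => hB0 v p) hp).trans
        (Finset.single_le_sum (f := fun v => ∑ p ∈ A, B v p)
          (fun v _ => Finset.sum_nonneg fun p _ => hB0 v p) hv)
    have h2 := mul_le_mul_of_nonneg_left h1 (by linarith : (0 : ℝ) ≤ c0)
    rw [hc]; linarith
  have hccL : ∀ p ∈ A, r * cL p ≤ c := by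
    intro p hp
    have h1 := Finset.single_le_sum (f := cL) (fun p _ => hcL0 p) hp
    have h2 := mul_le_mul_of_nonneg_left h1 (Nat.cast_nonneg (α := ℝ) r)
    rw [hc]; linarith
  refine ⟨c, hc1, ?_⟩
  intro N _ _ _ hND P hPm hPd x hx hne
  -- the closenesses
  set L : Pl N → Option K → Fin r → ℝ := fun w p i => max 0 (cl w (x i) (p.map (algebraMap K N)))
    with hL
  have hL0 : ∀ w p i, 0 ≤ L w p i := fun w p i => le_max_left _ _
  have hI : ∀ (w : Pl N) (p : Option K) (s : ℕ),
      ∃ I ∈ Finset.powersetCard (r - s) (Finset.univ : Finset (Fin r)),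
      ∀ I' ∈ Finset.powersetCard (r - s) (Finset.univ : Finset (Fin r)),
      ∑ i ∈ I, L w p i ≤ ∑ i ∈ I', L w p i := by
    intro w p s
    refine Finset.exists_min_image _ (fun I => ∑ i ∈ I, L w p i) ?_
    rw [Finset.powersetCard_nonempty, Finset.card_univ, Fintype.card_fin]
    exact Nat.sub_le r s
  choose I hI1 hI2 using hI
  have hIc : ∀ w p s, (I w p s).card = r - s := fun w p s =>
    (Finset.mem_powersetCard.mp (hI1 w p s)).2
  set m : Pl K → Pl N → Option K → ℕ → ℝ := fun v w p s =>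
    (∑ i ∈ I w p s, L w p i) / ldeg v w with hm
  have hmax : ∀ (v : Pl K) (p : Option K) (s : ℕ), ∃ w ∈ above N v, ∀ w' ∈ above N v,
      m v w' p s ≤ m v w p s := fun v p s =>
    Finset.exists_max_image (above N v) (fun w => m v w p s)
      (Pool.Agent.Helper61.AD.above_nonempty v)
  choose wv hwv hwmax using hmax
  have hld : ∀ v : Pl K, ∀ w ∈ above N v, (1 : ℝ) ≤ (ldeg v w : ℝ) := fun v w hw => by
    have := Nat.one_le_iff_ne_zero.mpr (Pool.Agent.Helper61.AD.ldeg_ne hw)
    exact_mod_cast this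
  have hm0 : ∀ v w p s, 0 ≤ m v w p s := fun v w p s =>
    div_nonneg (Finset.sum_nonneg fun i _ => hL0 _ _ _) (Nat.cast_nonneg _)
  have hmI : ∀ v : Pl K, ∀ w ∈ above N v, ∀ p s, ldeg v w * m v w p s = ∑ i ∈ I w p s, L w p i := by
    intro v w hw p s
    rw [hm]
    exact mul_div_cancel₀ _ (by have := hld v w hw; positivity)
  refine ⟨fun v p s => if p ∈ A then m v (wv v p s) p s else 0, ?_, ?_, ?_, ?_⟩
  · intro v p s
    by_cases hp : p ∈ A
    · simp only [if_pos hp]; exact hm0 _ _ _ _
    · simp only [if_neg hp]; exact le_refl _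
  · intro v p s
    have hcf : cf r P ≠ 0 := by
      intro h0
      have h1 := congrFun h0 (Fin.last r)
      have h2 : P.coeff r = 1 := by
        conv_lhs => rw [← hPd]
        exact hPm.coeff_natDegree
      simp only [cf, Fin.val_last, Pi.zero_apply] at h1
      rw [h2] at h1
      exact one_ne_zero h1
    have hvH : 0 ≤ vH (cf r P) := V2.vH_nonneg hcf
    have hpos : 0 ≤ c * (vH (cf r P) + 1) := by
      apply mul_nonneg (by linarith) (by linarith)
    by_cases hp : p ∈ A
    · simp only [if_pos hp]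
      rw [hm]
      simp only
      have hw := hwv v p s
      have hld1 := hld v _ hw
      rw [div_le_iff₀ (by linarith)]
      have h1 : ∀ i, L (wv v p s) p i ≤ cL p * (vH (cf r P) + 1) := by
        intro i
        rw [hL]
        apply max_le (mul_nonneg (hcL0 p) (by linarith))
        have h2 := hcL p N hND P hPm hPd x hx i (hne i p hp) (wv v p s)
        rw [Algebra.algebraMap_self, Polynomial.map_id] at h2
        exact h2
      have h3 : ∑ i ∈ I (wv v p s) p s, L (wv v p s) p i ≤ c * (vH (cf r P) + 1) := by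
        calc ∑ i ∈ I (wv v p s) p s, L (wv v p s) p i
            ≤ ∑ i ∈ I (wv v p s) p s, cL p * (vH (cf r P) + 1) := Finset.sum_le_sum fun i _ => h1 i
          _ = (r - s : ℕ) * (cL p * (vH (cf r P) + 1)) := by
              rw [Finset.sum_const, hIc, nsmul_eq_mul]
          _ ≤ r * (cL p * (vH (cf r P) + 1)) := by
              refine mul_le_mul_of_nonneg_right ?_ (mul_nonneg (hcL0 p) (by linarith))
              exact_mod_cast Nat.sub_le r s
          _ = (r * cL p) * (vH (cf r P) + 1) := by ring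
          _ ≤ c * (vH (cf r P) + 1) :=
              mul_le_mul_of_nonneg_right (hccL p hp) (by linarith)
      exact h3.trans (le_mul_of_one_le_right hpos hld1)
    · simp only [if_neg hp]; exact hpos
  · intro v hv p hp s hs
    simp only [if_pos hp]
    have hw := hwv v p s
    have hd := Pool.Agent.Helper61.AD.ldeg_ne hw
    have hdR : (0 : ℝ) < (ldeg v (wv v p s) : ℝ) := by
      exact_mod_cast Nat.pos_of_ne_zero hd
    have h1 := hroot N (wv v p s) x (p.map (algebraMap K N)) (fun i => hne i p hp) s hs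
      ((ldeg v (wv v p s) : ℝ) * m v (wv v p s) p s) (by
        intro I' hI'
        rw [hmI v _ hw p s]
        exact hI2 _ _ _ I' (Finset.mem_powersetCard.mpr ⟨Finset.subset_univ _, hI'⟩))
    rw [← hx, Pool.Agent.Helper61.AD.tay_map, coeff_map, Helper52.Vojta.nv_above hw] at h1
    have h3 : sn (wv v p s) ![(p.map (algebraMap K N)).getD 0, 1] =
        sn v ![p.getD 0, 1] ^ ldeg v (wv v p s) := by
      rw [← Helper52.Vojta.sn_above (by norm_num) hw]
      congr 1
      funext i
      fin_cases i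
      · cases p <;> simp
      · simp
    have h4 : vn (wv v p s) (cf r (P.map (algebraMap K N))) =
        vn v (cf r P) ^ ldeg v (wv v p s) := by
      rw [← Pool.Agent.Helper61.AD.vn_above hw]
      congr 1
      funext i
      simp [cf]
    have h5 : Real.exp (-((ldeg v (wv v p s) : ℝ) * m v (wv v p s) p s)) =
        Real.exp (-(m v (wv v p s) p s)) ^ ldeg v (wv v p s) := by
      rw [← Real.exp_nat_mul]
      congr 1
      ring
    rw [h3, h4, h5] at h1
    have hvn0 : 0 ≤ vn v (cf r P) :=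
      Real.iSup_nonneg (fun i => Helper64.Vojta.nv_nonneg _ _)
    have h6 : nv v ((tay p r P).coeff s) ^ ldeg v (wv v p s) ≤
        (c0 * B v p * Real.exp (-(m v (wv v p s) p s)) *
          vn v (cf r P)) ^ ldeg v (wv v p s) := by
      refine h1.trans ?_
      rw [mul_pow, mul_pow, mul_pow]
      have e1 : (sn v ![p.getD 0, 1] ^ ldeg v (wv v p s)) ^ r =
          B v p ^ ldeg v (wv v p s) := by
        rw [hB]
        simp only
        rw [← pow_mul, ← pow_mul, mul_comm]
      rw [e1]
      have e2 : c0 ≤ c0 ^ ldeg v (wv v p s) := le_self_pow₀ hc0 hd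
      have e3 : 0 ≤ B v p ^ ldeg v (wv v p s) := pow_nonneg (hB0 v p) _
      have e4 : 0 ≤ Real.exp (-(m v (wv v p s) p s)) ^ ldeg v (wv v p s) := by
        positivity
      have e5 : 0 ≤ vn v (cf r P) ^ ldeg v (wv v p s) :=
        pow_nonneg hvn0 _
      exact mul_le_mul_of_nonneg_right (mul_le_mul_of_nonneg_right
        (mul_le_mul_of_nonneg_right e2 e3) e4) e5
    have h7 : nv v ((tay p r P).coeff s) ≤
        c0 * B v p * Real.exp (-(m v (wv v p s) p s)) *
          vn v (cf r P) :=
      le_of_pow_le_pow_left₀ hd (by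
        have := hB0 v p
        have : 0 ≤ c0 := by linarith
        positivity) h6
    refine h7.trans ?_
    calc c0 * B v p * Real.exp (-(m v (wv v p s) p s)) * vn v (cf r P)
        ≤ c * Real.exp (-(m v (wv v p s) p s)) * vn v (cf r P) := by
          apply mul_le_mul_of_nonneg_right _ hvn0
          exact mul_le_mul_of_nonneg_right (hcB v hv p hp) (Real.exp_pos _).le
      _ = c * vn v (cf r P) * Real.exp (-(m v (wv v p s) p s)) := by ring
  · intro v hv w hw p hp s hs
    refine ⟨I w p s, hIc w p s, ?_⟩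
    simp only [if_pos hp]
    have h1 : ∑ i ∈ I w p s, L w p i ≤ ldeg v w * m v (wv v p s) p s := by
      rw [← hmI v w hw p s]
      exact mul_le_mul_of_nonneg_left (hwmax v p s w hw) (Nat.cast_nonneg _)
    exact h1

end Pool.Agent.Helper61.AD2
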