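import Pool.Agent.Helper61.AD2.PairLoc
import Pool.Agent.Helper61.AD.Sep
import Pool.Agent.Helper61.AD.Tower
import Pool.Agent.Helper61.AD.Tay
import Pool.Agent.Helper61.AD.Gs

/-!
# Block AD2-GP: product formula for a pair of roots

Proof: the same as in `GlobR.lean` (read its header) with `pair_local` for the minor `Δ`, `2 κ` and both heights; outside
`T`: `nv w Δ ≤ sn w ![x i,1]^r * sn w ![x j,1]^r` (finite place, ultrametric).
-/

namespace Pool.Agent.Helper61.AD2

open NumberField Finset Polynomial Module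
open Pool.Agent.Helper64.Vojta (Pl nv sn above)
open Pool.Agent.Helper61.AD (cl tay)
open Pool.Agent.Helper52.Vojta (ldeg)
open Pool.Agent.V2 (vn vH)

universe u

namespace GPA

open Pool.Agent.Helper64.Vojta (nv_nonneg nv_mul nv_one nv_zero nv_pos le_sn nv_sum_le_inr)

/-- value of a polynomial with small coefficients at a finite place -/
theorem eval_out {N : Type u} [Field N] [NumberField N] (w : FinitePlace N) (r : ℕ) (P : N[X])
    (hP : P.natDegree ≤ r) (h : ∀ s, nv (.inr w) (P.coeff s) ≤ 1) (y : N) :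
    nv (.inr w) (P.eval y) ≤ sn (.inr w) ![y, 1] ^ r := by
  have h1 : 1 ≤ sn (.inr w) ![y, 1] := Pool.Agent.Helper61.AD.SA.one_le _ y
  have h0 : 0 ≤ sn (.inr w) ![y, 1] := zero_le_one.trans h1
  rw [Polynomial.eval_eq_sum_range' (Nat.lt_succ_of_le hP)]
  refine nv_sum_le_inr w _ _ _ (pow_nonneg h0 _) fun s hs => ?_
  have hs' : s ≤ r := Nat.lt_succ_iff.mp (Finset.mem_range.mp hs)
  have hpow : nv (.inr w) (y ^ s) = nv (.inr w) y ^ s := by
    change w (y ^ s) = w y ^ s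
    exact map_pow w y s
  rw [nv_mul, hpow]
  have h2 : nv (.inr w) y ≤ sn (.inr w) ![y, 1] := le_sn (.inr w) ![y, 1] 0
  have h3 : nv (.inr w) y ^ s ≤ sn (.inr w) ![y, 1] ^ r :=
    (pow_le_pow_left₀ (nv_nonneg _ _) h2 s).trans (pow_le_pow_right₀ h1 hs')
  calc nv (.inr w) (P.coeff s) * nv (.inr w) y ^ s ≤ 1 * sn (.inr w) ![y, 1] ^ r :=
        mul_le_mul (h s) h3 (pow_nonneg (nv_nonneg _ _) _) zero_le_one
    _ = _ := one_mul _

/-- a minor at a finite place -/
theorem minor_out {N : Type u} [Field N] [NumberField N] (w : FinitePlace N) (r : ℕ) (P Q : N[X])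
    (hP : P.natDegree ≤ r) (hQ : Q.natDegree ≤ r) (h : ∀ s, nv (.inr w) (P.coeff s) ≤ 1)
    (h' : ∀ s, nv (.inr w) (Q.coeff s) ≤ 1) (y z : N) :
    nv (.inr w) (P.eval y * Q.eval z - Q.eval y * P.eval z) ≤
      sn (.inr w) ![y, 1] ^ r * sn (.inr w) ![z, 1] ^ r := by
  have h1 : ∀ (P Q : N[X]), P.natDegree ≤ r → Q.natDegree ≤ r →
      (∀ s, nv (.inr w) (P.coeff s) ≤ 1) → (∀ s, nv (.inr w) (Q.coeff s) ≤ 1) →
      nv (.inr w) (P.eval y * Q.eval z) ≤ sn (.inr w) ![y, 1] ^ r * sn (.inr w) ![z, 1] ^ r := by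
    intro P Q hP hQ h h'
    rw [nv_mul]
    exact mul_le_mul (eval_out w r P hP h y) (eval_out w r Q hQ h' z) (nv_nonneg _ _)
      (pow_nonneg (zero_le_one.trans (Pool.Agent.Helper61.AD.SA.one_le _ y)) _)
  have h2 := h1 P Q hP hQ h h'
  have h3 := h1 Q P hQ hP h' h
  have h4 : nv (.inr w) (P.eval y * Q.eval z - Q.eval y * P.eval z) ≤
      max (nv (.inr w) (P.eval y * Q.eval z)) (nv (.inr w) (-(Q.eval y * P.eval z))) := by
    rw [sub_eq_add_neg]
    exact FinitePlace.add_le w _ _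
  rw [Pool.Agent.Helper61.AD.SA.nv_neg] at h4
  exact h4.trans (max_le h2 h3)

section

variable {K : Type u} [Field K] [NumberField K] {N : Type u} [Field N] [NumberField N] [Algebra K N]

/-- the exponents over the larger field -/
noncomputable def mm (A : Finset (Option K)) (m : Option K → ℕ → ℝ) (p' : Option N) (s : ℕ) : ℝ := by
  classical
  exact if h : ∃ p ∈ A, p.map (algebraMap K N) = p' then m h.choose s else 0

theorem mm_map (A : Finset (Option K)) (m : Option K → ℕ → ℝ) {p : Option K} (hp : p ∈ A) (s : ℕ) :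
    mm A m (p.map (algebraMap K N)) s = m p s := by
  classical
  have h : ∃ q ∈ A, q.map (algebraMap K N) = p.map (algebraMap K N) := ⟨p, hp, rfl⟩
  have h1 : h.choose = p := Option.map_injective (algebraMap K N).injective h.choose_spec.2
  unfold mm
  rw [dif_pos h, h1]

theorem mem_img {A : Finset (Option K)} {p' : Option N} :
    p' ∈ img N A ↔ ∃ p ∈ A, p.map (algebraMap K N) = p' := by
  classical
  unfold img
  rw [Finset.mem_image]

theorem card_img (A : Finset (Option K)) : (img N A).card ≤ A.card := by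
  classical
  unfold img
  exact Finset.card_image_le

theorem tay_bd {v : Pl K} {w : Pl N} (hw : w ∈ above N v) (r : ℕ) (B : K[X]) (p : Option K) (s : ℕ)
    (κ m : ℝ) (h : nv v ((tay p r B).coeff s) ≤ Real.exp (κ - m)) :
    nv w ((tay (p.map (algebraMap K N)) r (B.map (algebraMap K N))).coeff s) ≤
      Real.exp (ldeg v w * κ - ldeg v w * m) := by
  rw [Pool.Agent.Helper61.AD.tay_map, coeff_map, Helper52.Vojta.nv_above hw, ← mul_sub,
    Real.exp_nat_mul]
  exact pow_le_pow_left₀ (nv_nonneg _ _) h _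

theorem out_inr {T : Finset (Pl K)} (hT : ∀ v : InfinitePlace K, Sum.inl v ∈ T) {w : Pl N}
    (hw : w ∉ Helper52.Vojta.upW N T) : ∃ v : FinitePlace K, Sum.inr v ∉ T ∧ ∃ w' : FinitePlace N,
      w = .inr w' ∧ w ∈ above N (.inr v) := by
  classical
  obtain ⟨v, hv⟩ := Helper52.Vojta.exists_below (L := K) w
  have hvT : v ∉ T := by
    intro hcon
    apply hw
    unfold Helper52.Vojta.upW
    exact Finset.mem_biUnion.mpr ⟨v, hcon, hv⟩
  rcases v with v | v
  · exact absurd (hT v) hvT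
  · rcases w with w | w
    · exact absurd (Helper64.Vojta.mem_above.mp hv) id
    · exact ⟨v, hvT, w, rfl, hv⟩

end

end GPA

theorem pair_global {K : Type u} [Field K] [NumberField K] (r : ℕ) (A : Finset (Option K))
    (hA : A.Nonempty) (T : Finset (Pl K)) (hT : ∀ v : InfinitePlace K, Sum.inl v ∈ T) (D : ℕ) :
    ∃ C0 : ℝ, ∀ (N : Type u) [Field N] [NumberField N] [Algebra K N], finrank K N ≤ D →
      ∀ x : Fin r → N, (∀ i, ∀ p ∈ A, p.map (algebraMap K N) ≠ some (x i)) →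
      ∀ (μ : Pl K → Option K → ℕ → ℝ) (κ : Pl K → ℝ),
      (∀ v ∈ T, ∀ w ∈ above N v, ∀ p ∈ A, ∀ s ≤ r, ∃ I : Finset (Fin r), I.card = r - s ∧
        ∑ i ∈ I, max 0 (cl w (x i) (p.map (algebraMap K N))) ≤ ldeg v w * μ v p s) →
      ∀ B B' : K[X], B.natDegree ≤ r → B'.natDegree ≤ r →
      (∀ v ∈ T, ∀ p ∈ A, ∀ s ≤ r, nv v ((tay p r B).coeff s) ≤ Real.exp (κ v - μ v p s)) →
      (∀ v ∈ T, ∀ p ∈ A, ∀ s ≤ r, nv v ((tay p r B').coeff s) ≤ Real.exp (κ v - μ v p s)) →
      (∀ v : Pl K, v ∉ T → ∀ s, nv v (B.coeff s) ≤ 1) →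
      (∀ v : Pl K, v ∉ T → ∀ s, nv v (B'.coeff s) ≤ 1) →
      ∀ i j, x i ≠ x j →
      aeval (x i) B * aeval (x j) B' - aeval (x i) B' * aeval (x j) B ≠ 0 →
      ∑ v ∈ T, ∑ w ∈ above N v,
          (fw (img N A) w x i + fw (img N A) w x j + exc (img N A) w (x i) (x j)) ≤
        finrank K N * (2 * ∑ v ∈ T, κ v + C0) + r * vH ![x i, 1] + r * vH ![x j, 1] := by
  classical
  choose c1 hc1 using fun v : Pl K => Pool.Agent.Helper61.AD.cl_sep.{u} v A D
  set c0 : ℝ := ∑ v ∈ T, (|c1 v| + ∑ p ∈ A, D * Real.log (sn v ![p.getD 0, 1])) with hc0def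
  have hlog0 : ∀ (v : Pl K) (b : K), 0 ≤ Real.log (sn v ![b, 1]) := fun v b =>
    Real.log_nonneg (Pool.Agent.Helper61.AD.SA.one_le v b)
  have hin0 : ∀ v : Pl K, 0 ≤ ∑ p ∈ A, (D : ℝ) * Real.log (sn v ![p.getD 0, 1]) := fun v =>
    Finset.sum_nonneg fun p _ => mul_nonneg (Nat.cast_nonneg _) (hlog0 v _)
  have hterm0 : ∀ v : Pl K, 0 ≤ |c1 v| + ∑ p ∈ A, (D : ℝ) * Real.log (sn v ![p.getD 0, 1]) :=
    fun v => add_nonneg (abs_nonneg _) (hin0 v)
  have hc0 : 0 ≤ c0 := Finset.sum_nonneg fun v _ => hterm0 v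
  have hc0v : ∀ v ∈ T, |c1 v| + ∑ p ∈ A, (D : ℝ) * Real.log (sn v ![p.getD 0, 1]) ≤ c0 :=
    fun v hv => Finset.single_le_sum
      (f := fun v => |c1 v| + ∑ p ∈ A, (D : ℝ) * Real.log (sn v ![p.getD 0, 1]))
      (fun v _ => hterm0 v) hv
  obtain ⟨C1, hC1⟩ := pair_local.{u} r A.card c0 hc0
  refine ⟨T.card * max 0 C1, ?_⟩
  intro N _ _ _ hD x hx μ κ hI B B' hB hB' hTB hTB' hoB hoB' i j hij hne
  -- the minor
  set P := B.map (algebraMap K N) with hPdef
  set Q := B'.map (algebraMap K N) with hQdef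
  have hPd : P.natDegree ≤ r := natDegree_map_le.trans hB
  have hQd : Q.natDegree ≤ r := natDegree_map_le.trans hB'
  set Δ : N := P.eval (x i) * Q.eval (x j) - Q.eval (x i) * P.eval (x j) with hΔdef
  have hΔ : Δ ≠ 0 := by
    rw [hΔdef, hPdef, hQdef]
    simp only [eval_map_algebraMap]
    exact hne
  have hx0 : ∀ i, (![x i, 1] : Fin 2 → N) ≠ 0 := fun i h => by
    have := congrFun h 1
    simp at this
  have hsnpos : ∀ (w : Pl N) (y : N), 0 < sn w ![y, 1] := fun w y =>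
    zero_lt_one.trans_le (Pool.Agent.Helper61.AD.SA.one_le w y)
  -- the local inequality
  have hloc : ∀ v ∈ T, ∀ w ∈ above N v, Real.log (nv w Δ) ≤
      r * Real.log (sn w ![x i, 1]) + r * Real.log (sn w ![x j, 1]) + 2 * (ldeg v w * κ v) + C1 -
        fw (img N A) w x i - fw (img N A) w x j - exc (img N A) w (x i) (x j) := by
    intro v hv w hw
    refine hC1 N w (img N A) ?_ (GPA.card_img A) ?_ x ?_ ?_
      (GPA.mm A fun p s => ldeg v w * μ v p s) (ldeg v w * κ v) ?_ P Q hPd hQd ?_ ?_ i j hij hΔ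
    · obtain ⟨p, hp⟩ := hA
      exact ⟨p.map (algebraMap K N), GPA.mem_img.mpr ⟨p, hp, rfl⟩⟩
    · intro p' hp'
      obtain ⟨p, hp, rfl⟩ := GPA.mem_img.mp hp'
      have h1 : (p.map (algebraMap K N)).getD 0 = algebraMap K N (p.getD 0) := by
        cases p <;> simp
      rw [h1]
      refine (Pool.Agent.Helper61.AD.SA.log_sn_le hw hD _).trans ?_
      refine le_trans ?_ (hc0v v hv)
      refine le_trans ?_ (le_add_of_nonneg_left (abs_nonneg _))
      exact Finset.single_le_sum (f := fun p => (D : ℝ) * Real.log (sn v ![p.getD 0, 1]))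
        (fun p _ => mul_nonneg (Nat.cast_nonneg _) (hlog0 v _)) hp
    · intro i p' hp'
      obtain ⟨p, hp, rfl⟩ := GPA.mem_img.mp hp'
      exact hx i p hp
    · intro i p1 hp1 p2 hp2 h12
      obtain ⟨q1, hq1, rfl⟩ := GPA.mem_img.mp hp1
      obtain ⟨q2, hq2, rfl⟩ := GPA.mem_img.mp hp2
      have hq12 : q1 ≠ q2 := fun h => h12 (by rw [h])
      refine (hc1 v N hD w hw (x i) q1 hq1 q2 hq2 hq12 (hx i q1 hq1) (hx i q2 hq2)).trans ?_
      refine (le_abs_self _).trans ?_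
      refine le_trans ?_ (hc0v v hv)
      exact le_add_of_nonneg_right (hin0 v)
    · intro p' hp' s hs
      obtain ⟨p, hp, rfl⟩ := GPA.mem_img.mp hp'
      obtain ⟨I, hI1, hI2⟩ := hI v hv w hw p hp s hs
      refine ⟨I, hI1, ?_⟩
      rw [GPA.mm_map A _ hp]
      exact hI2
    · intro p' hp' s hs
      obtain ⟨p, hp, rfl⟩ := GPA.mem_img.mp hp'
      rw [GPA.mm_map A _ hp]
      exact GPA.tay_bd hw r B p s _ _ (hTB v hv p hp s hs)
    · intro p' hp' s hs
      obtain ⟨p, hp, rfl⟩ := GPA.mem_img.mp hp'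
      rw [GPA.mm_map A _ hp]
      exact GPA.tay_bd hw r B' p s _ _ (hTB' v hv p hp s hs)
  -- the product formula
  set f : Pl N → ℝ := fun w => Real.log (nv w Δ) +
    -(r * Real.log (vn w ![x i, 1]) + r * Real.log (vn w ![x j, 1])) with hfdef
  have hf1 : Pool.Agent.V2.FinS (fun w : Pl N => Real.log (nv w Δ)) := Pool.Agent.V2.finS_nv hΔ
  have hf2 : ∀ i, Pool.Agent.V2.FinS (fun w : Pl N => (r : ℝ) * Real.log (vn w ![x i, 1])) :=
    fun i => (Pool.Agent.V2.finS_vn (hx0 i)).const_mul _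
  have hf : Pool.Agent.V2.FinS f := hf1.add ((hf2 i).add (hf2 j)).neg
  have hgsum : Pool.Agent.V2.gsum f = -(r * vH ![x i, 1] + r * vH ![x j, 1]) := by
    rw [hfdef, Pool.Agent.V2.gsum_add hf1 ((hf2 i).add (hf2 j)).neg, Pool.Agent.V2.gsum_nv hΔ,
      Pool.Agent.V2.gsum_neg, Pool.Agent.V2.gsum_add (hf2 i) (hf2 j),
      Pool.Agent.V2.gsum_const_mul, Pool.Agent.V2.gsum_const_mul, zero_add]
    rfl
  have hvs : ∀ (w : Pl N) (y : N), vn w ![y, 1] = sn w ![y, 1] := fun w y => rfl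
  have hout : ∀ w, w ∉ Helper52.Vojta.upW N T → f w ≤ 0 := by
    intro w hw
    obtain ⟨v, hv, w', rfl, hw'⟩ := GPA.out_inr hT hw
    have hc : ∀ B : K[X], (∀ s, nv (.inr v) (B.coeff s) ≤ 1) →
        ∀ s, nv (.inr w') ((B.map (algebraMap K N)).coeff s) ≤ 1 := by
      intro B hB s
      rw [coeff_map, Helper52.Vojta.nv_above hw']
      exact pow_le_one₀ (Helper64.Vojta.nv_nonneg _ _) (hB s)
    have h1 := GPA.minor_out w' r P Q hPd hQd (hc B (hoB _ hv)) (hc B' (hoB' _ hv)) (x i) (x j)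
    have h2 := Real.log_le_log (Helper64.Vojta.nv_pos (.inr w') hΔ) h1
    rw [Real.log_mul (pow_pos (hsnpos _ _) _).ne' (pow_pos (hsnpos _ _) _).ne', Real.log_pow,
      Real.log_pow] at h2
    rw [hfdef]
    simp only [hvs]
    linarith
  have hmain := Pool.Agent.Helper61.AD.gsum_le_sum (Helper52.Vojta.upW N T) (g := f) hf
    (fun w _ => le_refl _) hout
  rw [hgsum, Helper52.Vojta.sum_upW] at hmain
  have hbound : ∀ v ∈ T, ∑ w ∈ above N v, f w ≤
      ∑ w ∈ above N v, (2 * (ldeg v w * κ v) + max 0 C1 -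
        (fw (img N A) w x i + fw (img N A) w x j + exc (img N A) w (x i) (x j))) := by
    intro v hv
    refine Finset.sum_le_sum fun w hw => ?_
    have h1 := hloc v hv w hw
    have h2 := le_max_right 0 C1
    rw [hfdef]
    simp only [hvs]
    linarith
  have hcard : ∀ v ∈ T, ∑ w ∈ above N v, (2 * (ldeg v w * κ v) + max 0 C1 -
        (fw (img N A) w x i + fw (img N A) w x j + exc (img N A) w (x i) (x j))) ≤
      2 * finrank K N * κ v + finrank K N * max 0 C1 - ∑ w ∈ above N v,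
        (fw (img N A) w x i + fw (img N A) w x j + exc (img N A) w (x i) (x j)) := by
    intro v _
    rw [Finset.sum_sub_distrib, Finset.sum_add_distrib, ← Finset.mul_sum, ← Finset.sum_mul,
      Finset.sum_const, nsmul_eq_mul]
    have h1 : ∑ w ∈ above N v, (ldeg v w : ℝ) = finrank K N := by
      rw [← Helper52.Vojta.sum_ldeg (L' := N) v]
      push_cast
      rfl
    have h2 : ((above N v).card : ℝ) ≤ finrank K N := by
      exact_mod_cast Helper64.Vojta.card_above_le v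
    have h3 : ((above N v).card : ℝ) * max 0 C1 ≤ finrank K N * max 0 C1 :=
      mul_le_mul_of_nonneg_right h2 (le_max_left _ _)
    rw [h1]
    linarith
  have hfin := hmain.trans (Finset.sum_le_sum fun v hv => (hbound v hv).trans (hcard v hv))
  rw [Finset.sum_sub_distrib, Finset.sum_add_distrib, ← Finset.mul_sum, Finset.sum_const,
    nsmul_eq_mul] at hfin
  linarith

end Pool.Agent.Helper61.AD2
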