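import Pool.Agent.Helper61.AD2.Defs2
import Pool.Agent.Helper61.AD.Gauss
import Pool.Agent.Helper61.AD.Liou

/-!
# Block AD2-HS: the sum of the heights of the roots; upper bound for the closeness of pairs

(a) `∏ i, sn w ![x i,1] ≤ c^.. vn w (cf r (∏ (X - C (x i))))` (`gauss_fin`, `gauss_inf`), logarithms, sum over all places
(`gsum`), infinite places cost `log c` each, there are at most `finrank ℚ N = finrank ℚ K * finrank K N` of them;
`vH` of the mapped vector is `finrank K N * vH (cf r P)` (`LI.vH_map` or `Helper52.Vojta.logHeight_algebraMap`). Compare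
`LI.root_height`.
(b) `prs`: every closeness is `≤ c (vH + 1)` by `LI.cl_liou` (with `k = K`); `exs`: `LI.cl_some_le` (closeness of `x i` and `x j`
at one place is at most `vH ![x i,1] + vH ![x j,1] + finrank ℚ N * log 4`), `LI.root_height`, and `- ∑ min ≤ card * log 4`
(`cl_ge`). Number of `w` over `T` at most `T.card * D`.
-/

namespace Pool.Agent.Helper61.AD2

open NumberField Finset Polynomial Module
open Pool.Agent.Helper64.Vojta (Pl nv sn above)
open Pool.Agent.Helper61.AD (cl tay cf)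
open Pool.Agent.V2 (vn vH)

universe u

namespace HSum

open Pool.Agent.V2 (gsum FinS)
open Pool.Agent.Helper61.AD (LI.kap LI.finS_kap LI.gsum_kap LI.le_kap_inl LI.sn_ge_one LI.finS_sn
  LI.cf_ne_zero LI.root_height LI.cl_some_le LI.vH_map LI.cl_liou LI.vec_ne_zero)

/-- the sum of the heights of the roots -/
theorem roots_height {N : Type u} [Field N] [NumberField N] {r : ℕ} {c : ℝ} (hc1 : 1 ≤ c)
    (hc : ∀ (w : InfinitePlace N) (x : Fin r → N),
      ∏ i, sn (.inl w) ![x i, 1] ≤ c * vn (.inl w) (cf r (∏ i, (X - C (x i)))))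
    (x : Fin r → N) :
    ∑ i, vH ![x i, 1] ≤ vH (cf r (∏ i, (X - C (x i)))) + finrank ℚ N * Real.log c := by
  classical
  set Q : N[X] := ∏ i, (X - C (x i)) with hQ
  have hQm : Q.Monic := monic_prod_of_monic _ _ fun i _ => monic_X_sub_C (x i)
  have hQr : Q.natDegree = r := by
    rw [hQ, natDegree_prod_of_monic _ _ fun i _ => monic_X_sub_C (x i)]
    simp
  have hne : cf r Q ≠ 0 := AD.LI.cf_ne_zero hQm hQr
  have hfin := Pool.Agent.V2.finS_vn hne
  rw [← AD.LI.gsum_kap (N := N) (Real.log c)]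
  unfold vH
  rw [← Pool.Agent.V2.gsum_add hfin (AD.LI.finS_kap _)]
  have hs : ∀ i ∈ (univ : Finset (Fin r)), FinS (fun v => Real.log (sn v ![x i, 1])) :=
    fun i _ => AD.LI.finS_sn (x i)
  have e1 : ∑ i, gsum (fun v => Real.log (vn v ![x i, 1])) =
      gsum (fun v => ∑ i, Real.log (sn v ![x i, 1])) :=
    (Pool.Agent.V2.gsum_sum univ hs).symm
  rw [e1]
  refine Pool.Agent.V2.gsum_mono (Pool.Agent.V2.FinS.sum univ hs) (hfin.add (AD.LI.finS_kap _))
    fun w => ?_
  have hpos : ∀ i, 0 < sn w ![x i, 1] := fun i => lt_of_lt_of_le one_pos (AD.LI.sn_ge_one w (x i))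
  have hpp : 0 < ∏ i, sn w ![x i, 1] := Finset.prod_pos fun i _ => hpos i
  have hvpos : 0 < vn w (cf r Q) := Pool.Agent.V2.vn_pos w hne
  have hlog : ∑ i, Real.log (sn w ![x i, 1]) = Real.log (∏ i, sn w ![x i, 1]) :=
    (Real.log_prod fun i _ => (hpos i).ne').symm
  rw [hlog]
  change _ ≤ Real.log (vn w (cf r Q)) + AD.LI.kap (Real.log c) w
  rcases w with w | w
  · have h3 := Real.log_le_log hpp (hc w x)
    rw [Real.log_mul (by linarith) hvpos.ne'] at h3
    have h4 := AD.LI.le_kap_inl (Real.log_nonneg hc1) w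
    linarith
  · have h3 := Real.log_le_log hpp (AD.gauss_fin w x)
    change _ ≤ _ + (0 : ℝ)
    linarith

theorem vH_prod {K N : Type u} [Field K] [NumberField K] [Field N] [NumberField N] [Algebra K N]
    {r : ℕ} {P : K[X]} (hP : P.Monic) (hr : P.natDegree = r) (x : Fin r → N)
    (hx : P.map (algebraMap K N) = ∏ i, (X - C (x i))) :
    vH (cf r (∏ i, (X - C (x i)))) = finrank K N * vH (cf r P) := by
  rw [← AD.LI.vH_map (AD.LI.cf_ne_zero hP hr)]
  congr 1
  funext j
  rw [← hx]
  simp only [cf, coeff_map]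

end HSum

theorem height_sum {K : Type u} [Field K] [NumberField K] (r : ℕ) :
    ∃ C0 : ℝ, ∀ (N : Type u) [Field N] [NumberField N] [Algebra K N],
      ∀ P : K[X], P.Monic → P.natDegree = r → ∀ x : Fin r → N,
      P.map (algebraMap K N) = ∏ i, (X - C (x i)) →
      ∑ i, vH ![x i, 1] ≤ finrank K N * (vH (cf r P) + C0) := by
  obtain ⟨c, hc1, hc⟩ := AD.gauss_inf.{u} r
  refine ⟨finrank ℚ K * Real.log c, fun N _ _ _ P hP hr x hx => ?_⟩
  have h1 := HSum.roots_height hc1 (fun w x => hc N w x) x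
  rw [HSum.vH_prod hP hr x hx] at h1
  have h2 : (finrank ℚ N : ℝ) = finrank ℚ K * finrank K N := by
    rw [← Module.finrank_mul_finrank ℚ K N]
    push_cast
    ring
  rw [h2] at h1
  linarith

theorem upper_bound {K : Type u} [Field K] [NumberField K] (r : ℕ) (hr : 2 ≤ r)
    (T : Finset (Pl K)) (A : Finset (Option K)) (D : ℕ) :
    ∃ C0 : ℝ, 0 ≤ C0 ∧ ∀ (N : Type u) [Field N] [NumberField N] [Algebra K N], finrank K N ≤ D →
      ∀ P : K[X], P.Monic → P.natDegree = r → ∀ x : Fin r → N, Function.Injective x →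
      P.map (algebraMap K N) = ∏ i, (X - C (x i)) →
      (∀ i, ∀ p ∈ A, p.map (algebraMap K N) ≠ some (x i)) →
      ∑ v ∈ T, ∑ w ∈ above N v, (prs (img N A) w x + exs (img N A) w x / (2 * r - 2)) ≤
        C0 * (vH (cf r P) + 1) := by
  classical
  obtain ⟨c₀, hc1, hc₀⟩ := AD.gauss_inf.{u} r
  have hlc : 0 ≤ Real.log c₀ := Real.log_nonneg hc1
  have h4 : (0 : ℝ) ≤ Real.log 4 := Real.log_nonneg (by norm_num)
  choose cp hcp0 hcp using fun p : Option K => AD.LI.cl_liou.{u} (k := K) (K := K) r p D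
  set M : ℝ := ∑ p ∈ A, cp p with hM
  have hM0 : 0 ≤ M := Finset.sum_nonneg fun p _ => hcp0 p
  have hD0 : (0 : ℝ) ≤ D := Nat.cast_nonneg D
  have hq0 : (0 : ℝ) ≤ finrank ℚ K := Nat.cast_nonneg _
  have hDq : 0 ≤ (finrank ℚ K : ℝ) * D := mul_nonneg hq0 hD0
  have ha0 : (0 : ℝ) ≤ A.card := Nat.cast_nonneg _
  have hr0 : (0 : ℝ) ≤ r := Nat.cast_nonneg _
  set E : ℝ := 2 * (D + finrank ℚ K * D * Real.log c₀) + finrank ℚ K * D * Real.log 4 +
    A.card * Real.log 4 with hE
  have hE0 : 0 ≤ E := by positivity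
  refine ⟨T.card * (D * (A.card * (r * (r * M)) + r * (r * E))), by positivity,
    fun N _ _ _ hN P hP hPr x hinj hx hA => ?_⟩
  have hNr : (finrank K N : ℝ) ≤ D := by exact_mod_cast hN
  have hNq : (finrank ℚ N : ℝ) ≤ finrank ℚ K * D := by
    rw [← Module.finrank_mul_finrank ℚ K N]
    push_cast
    exact mul_le_mul_of_nonneg_left hNr hq0
  set H : ℝ := vH (cf r P) with hH
  have hH0 : 0 ≤ H := Pool.Agent.V2.vH_nonneg (AD.LI.cf_ne_zero hP hPr)
  have hH1 : 0 ≤ H + 1 := by linarith
  have hcard : ((img N A).card : ℝ) ≤ A.card := by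
    unfold img
    exact_mod_cast Finset.card_image_le
  have hmem : ∀ q ∈ img N A, ∃ p ∈ A, p.map (algebraMap K N) = q := by
    intro q hq
    unfold img at hq
    exact Finset.mem_image.mp hq
  -- the closeness to the points of `A`
  have hclA : ∀ w : Pl N, ∀ i, ∀ q ∈ img N A, cl w (x i) q ≤ M * (H + 1) := by
    intro w i q hq
    obtain ⟨p, hp, rfl⟩ := hmem q hq
    have h1 := hcp p N hN P hP hPr x hx i (hA i p hp) w
    rw [show P.map (algebraMap K K) = P from Polynomial.map_id] at h1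
    refine h1.trans (mul_le_mul_of_nonneg_right ?_ hH1)
    exact Finset.single_le_sum (f := cp) (fun p _ => hcp0 p) hp
  have hclge : ∀ w : Pl N, ∀ i, ∀ q ∈ img N A, -Real.log 4 ≤ cl w (x i) q := by
    intro w i q hq
    obtain ⟨p, hp, rfl⟩ := hmem q hq
    exact AD.cl_ge w (x i) _ (hA i p hp)
  have hprs : ∀ w : Pl N, prs (img N A) w x ≤ A.card * (r * (r * M)) * (H + 1) := by
    intro w
    unfold prs
    have h1 : ∀ q ∈ img N A, ∑ i, ∑ j, min (cl w (x i) q) (cl w (x j) q) ≤
        r * (r * (M * (H + 1))) := by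
      intro q hq
      have h2 : ∀ i ∈ (univ : Finset (Fin r)), ∑ j, min (cl w (x i) q) (cl w (x j) q) ≤
          r * (M * (H + 1)) := by
        intro i _
        have h3 : ∀ j ∈ (univ : Finset (Fin r)), min (cl w (x i) q) (cl w (x j) q) ≤
            M * (H + 1) := fun j _ => (min_le_left _ _).trans (hclA w i q hq)
        have h5 := Finset.sum_le_card_nsmul _ _ _ h3
        rwa [Finset.card_univ, Fintype.card_fin, nsmul_eq_mul] at h5
      have h5 := Finset.sum_le_card_nsmul _ _ _ h2
      rwa [Finset.card_univ, Fintype.card_fin, nsmul_eq_mul] at h5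
    have h5 := Finset.sum_le_card_nsmul _ _ _ h1
    rw [nsmul_eq_mul] at h5
    refine h5.trans ?_
    have h6 : 0 ≤ (r : ℝ) * (r * (M * (H + 1))) := by positivity
    have h7 := mul_le_mul_of_nonneg_right hcard h6
    linarith
  -- the heights of the roots
  have hroot : ∀ i, vH ![x i, 1] ≤ D * H + finrank ℚ K * D * Real.log c₀ := by
    intro i
    have h1 := AD.LI.root_height (N := N) hc1 (fun w x => hc₀ N w x) x i
    rw [HSum.vH_prod hP hPr x hx] at h1
    have h2 := mul_le_mul_of_nonneg_right hNr hH0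
    have h3 := mul_le_mul_of_nonneg_right hNq hlc
    linarith
  have hexc : ∀ w : Pl N, ∀ i j, i ≠ j → exc (img N A) w (x i) (x j) ≤ E * (H + 1) := by
    intro w i j hij
    unfold exc
    have h1 := AD.LI.cl_some_le w (x i) (x j) (fun h => hij (hinj (Option.some.inj h)).symm)
    have h2 := hroot i
    have h3 := hroot j
    have h5 : -((img N A).card * Real.log 4) ≤
        ∑ q ∈ img N A, min (cl w (x i) q) (cl w (x j) q) := by
      have h6 : ∀ q ∈ img N A, -Real.log 4 ≤ min (cl w (x i) q) (cl w (x j) q) :=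
        fun q hq => le_min (hclge w i q hq) (hclge w j q hq)
      have h7 := Finset.card_nsmul_le_sum _ _ _ h6
      rw [nsmul_eq_mul] at h7
      linarith
    have h8 := mul_le_mul_of_nonneg_right hcard h4
    have h9 := mul_le_mul_of_nonneg_right hNq h4
    have h10 : E * (H + 1) = 2 * (D * H) + 2 * (finrank ℚ K * D * Real.log c₀) +
        finrank ℚ K * D * Real.log 4 + A.card * Real.log 4 + (2 * D +
        (2 * (finrank ℚ K * D * Real.log c₀) +
        finrank ℚ K * D * Real.log 4 + A.card * Real.log 4) * H) := by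
      rw [hE]; ring
    have h11 : 0 ≤ 2 * (D : ℝ) + (2 * (finrank ℚ K * D * Real.log c₀) +
        finrank ℚ K * D * Real.log 4 + A.card * Real.log 4) * H := by positivity
    linarith
  have hexs : ∀ w : Pl N, exs (img N A) w x ≤ r * (r * E) * (H + 1) := by
    intro w
    unfold exs
    have h2 : ∀ i ∈ (univ : Finset (Fin r)),
        ∑ j ∈ Finset.univ.erase i, exc (img N A) w (x i) (x j) ≤ r * (E * (H + 1)) := by
      intro i _
      have h3 : ∀ j ∈ (univ : Finset (Fin r)).erase i, exc (img N A) w (x i) (x j) ≤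
          E * (H + 1) := fun j hj => hexc w i j (Finset.ne_of_mem_erase hj).symm
      have h5 := Finset.sum_le_card_nsmul _ _ _ h3
      rw [nsmul_eq_mul] at h5
      refine h5.trans (mul_le_mul_of_nonneg_right ?_ (mul_nonneg hE0 hH1))
      have h6 : ((univ : Finset (Fin r)).erase i).card ≤ r := by
        refine (Finset.card_le_card (Finset.erase_subset _ _)).trans ?_
        rw [Finset.card_univ, Fintype.card_fin]
      exact_mod_cast h6
    have h5 := Finset.sum_le_card_nsmul _ _ _ h2
    rw [Finset.card_univ, Fintype.card_fin, nsmul_eq_mul] at h5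
    linarith
  have hterm : ∀ w : Pl N, prs (img N A) w x + exs (img N A) w x / (2 * r - 2) ≤
      (A.card * (r * (r * M)) + r * (r * E)) * (H + 1) := by
    intro w
    have h1 := hprs w
    have h2 := hexs w
    have h3 : (2 : ℝ) ≤ r := by exact_mod_cast hr
    have h5 : (0 : ℝ) < 2 * r - 2 := by linarith
    have h6 : 0 ≤ r * (r * E) * (H + 1) := by positivity
    have h7 : exs (img N A) w x / (2 * r - 2) ≤ r * (r * E) * (H + 1) := by
      rw [div_le_iff₀ h5]
      nlinarith
    linarith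
  set F : ℝ := (A.card * (r * (r * M)) + r * (r * E)) * (H + 1) with hF
  have hF0 : 0 ≤ F := by positivity
  have hv : ∀ v ∈ T, ∑ w ∈ above N v, (prs (img N A) w x + exs (img N A) w x / (2 * r - 2)) ≤
      D * F := by
    intro v _
    have h5 := Finset.sum_le_card_nsmul (above N v) _ _ fun w _ => hterm w
    rw [nsmul_eq_mul] at h5
    refine h5.trans (mul_le_mul_of_nonneg_right ?_ hF0)
    exact le_trans (by exact_mod_cast Pool.Agent.Helper64.Vojta.card_above_le v) hNr
  have h5 := Finset.sum_le_card_nsmul T _ _ hv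
  rw [nsmul_eq_mul] at h5
  refine h5.trans (le_of_eq ?_)
  rw [hF]
  ring

end Pool.Agent.Helper61.AD2
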