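import Pool.Agent.Helper61.AD2.Defs2
import Pool.Agent.Helper61.AD.Change

/-!
# Block AD2-LL: some value and some minor is not zero

(a) `NoBase.change` gives `Ideal.span (range B) = ⊤` for `B l = ∑ i, C (xb l i) * b i`; if all `aeval z (B l) = 0`, then
the ideal is contained in the kernel of `aeval z`, but `aeval z 1 = 1`.
(b) The matrix `xb` is invertible, so `b i = ∑ l, C (M i l) * B l`; if all minors of the `B l` at `z, z'` vanish then so
do all minors of the `b i` (bilinear).
(c) If `b0`, `b1` are linearly independent over a field of characteristic zero then their Wronskian is not zero: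
otherwise the derivative of `b1 / b0` (in the field of fractions) is zero; elementary proof: suppose
`b0' b1 = b0 b1'`, `b0 ≠ 0`; write `b0 = d u`, `b1 = d v` with `u`, `v` coprime (`d` = gcd); then
`(u' v - u v') d^2 = 0`, so `u' v = u v'`, `u ∣ u' v`, `u ∣ u'`, so `u' = 0` (degree), `u` constant, then `v' = 0`, so
`v` constant and `b0`, `b1` are proportional.
-/

namespace Pool.Agent.Helper61.AD2

open Polynomial
open Pool.Agent.Helper61.AD (NoBase)

theorem exists_eval_ne {K N : Type*} [Field K] [Field N] [Algebra K N] {n r : ℕ} {b : Fin n → K[X]}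
    (hb : NoBase r b) (xb : Fin n → Fin n → K) (hx : LinearIndependent K xb) (z : N) :
    ∃ l, aeval z (∑ i, C (xb l i) * b i) ≠ 0 := by
  by_contra hcon
  push Not at hcon
  have h1 := (hb.change xb hx).span
  have h2 : Ideal.span (Set.range fun l => ∑ i, C (xb l i) * b i) ≤
      RingHom.ker (aeval (R := K) z).toRingHom := by
    rw [Ideal.span_le]
    rintro _ ⟨l, rfl⟩
    exact hcon l
  rw [h1] at h2
  have h3 : (1 : K[X]) ∈ RingHom.ker (aeval (R := K) z).toRingHom := h2 Submodule.mem_top
  rw [RingHom.mem_ker, map_one] at h3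
  exact one_ne_zero h3

theorem exists_minor_ne {K N : Type*} [Field K] [Field N] [Algebra K N] {n : ℕ} {b : Fin n → K[X]}
    (xb : Fin n → Fin n → K) (hx : LinearIndependent K xb) (z z' : N) (i0 i1 : Fin n)
    (h : aeval z (b i0) * aeval z' (b i1) - aeval z (b i1) * aeval z' (b i0) ≠ 0) :
    ∃ l l', aeval z (∑ i, C (xb l i) * b i) * aeval z' (∑ i, C (xb l' i) * b i) -
      aeval z (∑ i, C (xb l' i) * b i) * aeval z' (∑ i, C (xb l i) * b i) ≠ 0 := by
  classical
  by_contra hcon
  push Not at hcon
  apply h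
  let M : Matrix (Fin n) (Fin n) K := xb
  have hM : IsUnit M := Matrix.linearIndependent_rows_iff_isUnit.1 hx
  have hdet : IsUnit M.det := (Matrix.isUnit_iff_isUnit_det M).1 hM
  have hinv : M⁻¹ * M = 1 := Matrix.nonsing_inv_mul M hdet
  have hback : ∀ i, b i = ∑ l, C (M⁻¹ i l) * ∑ j, C (xb l j) * b j := by
    intro i
    have h1 : ∑ l, C (M⁻¹ i l) * ∑ j, C (xb l j) * b j = ∑ j, C ((M⁻¹ * M) i j) * b j := by
      simp only [Matrix.mul_apply, map_sum, Finset.mul_sum, Finset.sum_mul, map_mul]
      rw [Finset.sum_comm]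
      refine Finset.sum_congr rfl fun j _ => Finset.sum_congr rfl fun l _ => ?_
      rw [mul_assoc]
    rw [h1, hinv]
    simp [Matrix.one_apply]
  have hev : ∀ (w : N) i, aeval w (b i) =
      ∑ l, algebraMap K N (M⁻¹ i l) * aeval w (∑ j, C (xb l j) * b j) := by
    intro w i
    conv_lhs => rw [hback i]
    rw [map_sum]
    refine Finset.sum_congr rfl fun l _ => ?_
    rw [map_mul, aeval_C]
  rw [hev z i0, hev z' i1, hev z i1, hev z' i0, Finset.sum_mul_sum, Finset.sum_mul_sum,
    Finset.sum_comm (γ := Fin n), ← Finset.sum_sub_distrib]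
  refine Finset.sum_eq_zero fun l' _ => ?_
  rw [← Finset.sum_sub_distrib]
  refine Finset.sum_eq_zero fun l _ => ?_
  linear_combination (algebraMap K N (M⁻¹ i0 l) * algebraMap K N (M⁻¹ i1 l')) * hcon l l'

theorem wr_ne_zero {K : Type*} [Field K] [CharZero K] (b0 b1 : K[X])
    (h : LinearIndependent K ![b0, b1]) : wr b0 b1 ≠ 0 := by
  classical
  intro hw
  rw [LinearIndependent.pair_iff] at h
  have hb0 : b0 ≠ 0 := by
    rintro rfl
    have := (h 1 0 (by simp)).1
    exact one_ne_zero this
  obtain ⟨u, hu⟩ := EuclideanDomain.gcd_dvd_left b0 b1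
  obtain ⟨v, hv⟩ := EuclideanDomain.gcd_dvd_right b0 b1
  have hab := EuclideanDomain.gcd_eq_gcd_ab b0 b1
  set d := EuclideanDomain.gcd b0 b1 with hd
  have hd0 : d ≠ 0 := by
    intro h0
    apply hb0
    rw [hu, h0, zero_mul]
  have hu0 : u ≠ 0 := by
    intro h0
    apply hb0
    rw [hu, h0, mul_zero]
  have hcop : IsCoprime u v := by
    refine ⟨EuclideanDomain.gcdA b0 b1, EuclideanDomain.gcdB b0 b1, ?_⟩
    apply mul_left_cancel₀ hd0
    rw [mul_one]
    conv_rhs => rw [hab]
    generalize EuclideanDomain.gcdA b0 b1 = s at *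
    generalize EuclideanDomain.gcdB b0 b1 = t at *
    linear_combination (-s) * hu + (-t) * hv
  have huv : derivative u * v = u * derivative v := by
    have h1 : d ^ 2 * (derivative u * v - u * derivative v) = 0 := by
      have h2 : wr b0 b1 = derivative (d * u) * (d * v) - d * u * derivative (d * v) := by
        unfold wr
        rw [← hu, ← hv]
      rw [hw, derivative_mul, derivative_mul] at h2
      linear_combination -h2
    have h2 := (mul_eq_zero.1 h1).resolve_left (pow_ne_zero 2 hd0)
    exact sub_eq_zero.1 h2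
  have hdiv : u ∣ derivative u := by
    have h1 : u ∣ derivative u * v := ⟨derivative v, huv⟩
    exact hcop.dvd_of_dvd_mul_right h1
  have hu' : derivative u = 0 := by
    by_contra hne
    have h1 := Polynomial.degree_le_of_dvd hdiv hne
    exact absurd (degree_derivative_lt hu0) (not_lt.2 h1)
  have hv' : derivative v = 0 := by
    rw [hu', zero_mul] at huv
    exact (mul_eq_zero.1 huv.symm).resolve_left hu0
  obtain ⟨a, ha⟩ : ∃ a, u = C a :=
    ⟨_, eq_C_of_natDegree_eq_zero (derivative_eq_zero.1 hu')⟩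
  obtain ⟨c, hc⟩ : ∃ c, v = C c :=
    ⟨_, eq_C_of_natDegree_eq_zero (derivative_eq_zero.1 hv')⟩
  have h3 := h c (-a) (by
    rw [hu, hv, ha, hc, smul_eq_C_mul, smul_eq_C_mul, map_neg]
    ring)
  apply hu0
  rw [ha]
  have h4 : a = 0 := neg_eq_zero.1 h3.2
  rw [h4, map_zero]

end Pool.Agent.Helper61.AD2
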