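import Pool.Agent.Helper61.AD2.WronA
import Pool.Agent.Helper61.AD.Gauss
import Pool.Agent.Helper61.AD.Sep

/-!
# Block AD2-SC2: pairs with the same image under `b1 / b0` have bounded excess

Proof. Suppose `cl w x (some y) > C1` (else `exc ≤ C1 + card * log 4` by `cl_ge`), `C1` large, so `x`, `y` are very close. Chordal
triangle inequality: `cl w y p ≥ min (cl w x (some y)) (cl w x p) - log 16`, and the same with `x`, `y` exchanged.
(i) There is a finite `p = some a ∈ A` with `cl w x p > C2` (`C2` large): then `nv w (x - a)` and `nv w (y - a)` are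
`≤ δ` (`sn w ![x,1]` is bounded because `x` is close to `a`), and `wron_near` gives
`cl w x (some y) ≤ cl w y p + C`, by symmetry (or the triangle inequality) `≤ min (cl w x p) (cl w y p) + C`.
(ii) `cl w x none > C2`: `x`, `y` are large; use `wron_near` for the reflected polynomials `b0.reflect m`, `b1.reflect m`
(`m = max` of the degrees), the point `0`, and `1/x`, `1/y`: the relation is multiplied by `(xy)^(-m)`; the Wronskian
of the reflected polynomials is not zero (they are not proportional; `wr = 0` iff proportional, or compute). For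
`nv w x, nv w y ≥ 1`: `cl w x (some y) = - log nv w (1/x - 1/y)` and `cl w x none = - log nv w (1/x)`.
(iii) `cl w x p ≤ C2` for all `p ∈ A`: `none ∈ A`, so `sn w ![x,1] ≤ exp C2`, and all roots `a` of the Wronskian satisfy
`nv w (x - a) ≥ c`; the Wronskian splits over `K`, so `nv w (aeval x (wr b0 b1)) ≥ c > 0`. The polynomial
`b0(X) b1(Y) - b1(X) b0(Y) = (X - Y) G(X,Y)` with `G(X,X) = ± wr`, and `G(x,x) - G(x,y)` is `(x - y)` times something bounded
(`x`, `y` bounded), `G(x,y) = 0` because `x ≠ y`: so `nv w (x - y) ≥ c'`, a contradiction if `C1` is large.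
All constants over `N` are constants of `K` raised to the power `ldeg v w ∈ [1, D]`.
-/

namespace Pool.Agent.Helper61.AD2

open NumberField Finset Polynomial Module
open Pool.Agent.Helper64.Vojta (Pl nv sn above)
open Pool.Agent.Helper61.AD (cl tay)

universe u

namespace WB

open Pool.Agent.Helper61.AD.SA (nv_add_le nv_neg sn_eq one_le far ldeg_le)
open Pool.Agent.Helper64.Vojta (nv_nonneg nv_pos nv_one nv_zero nv_mul nv_inv)

section

variable {K : Type u} [Field K] [NumberField K] {N : Type u} [Field N] [NumberField N] [Algebra K N]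

theorem nv_hi {v : Pl K} {w : Pl N} (hw : w ∈ above N v) {D : ℕ} (hD : finrank K N ≤ D) (b : K) :
    nv w (algebraMap K N b) ≤ max 1 (nv v b) ^ D := by
  rw [Helper52.Vojta.nv_above hw]
  have h1 : Helper52.Vojta.ldeg v w ≤ D := (ldeg_le hw).trans hD
  calc nv v b ^ Helper52.Vojta.ldeg v w ≤ max 1 (nv v b) ^ Helper52.Vojta.ldeg v w :=
        pow_le_pow_left₀ (nv_nonneg _ _) (le_max_right _ _) _
    _ ≤ max 1 (nv v b) ^ D := pow_le_pow_right₀ (le_max_left _ _) h1

theorem nv_lo {v : Pl K} {w : Pl N} (hw : w ∈ above N v) {D : ℕ} (hD : finrank K N ≤ D) (b : K) :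
    min 1 (nv v b) ^ D ≤ nv w (algebraMap K N b) := by
  rw [Helper52.Vojta.nv_above hw]
  have h1 : Helper52.Vojta.ldeg v w ≤ D := (ldeg_le hw).trans hD
  have h0 : 0 ≤ min 1 (nv v b) := le_min zero_le_one (nv_nonneg _ _)
  calc min 1 (nv v b) ^ D ≤ min 1 (nv v b) ^ Helper52.Vojta.ldeg v w :=
        pow_le_pow_of_le_one h0 (min_le_left _ _) h1
    _ ≤ nv v b ^ Helper52.Vojta.ldeg v w := pow_le_pow_left₀ h0 (min_le_right _ _) _

theorem nv_sub_comm (w : Pl N) (x y : N) : nv w (x - y) = nv w (y - x) := by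
  rw [← nv_neg w (x - y), neg_sub]

theorem cl_comm (w : Pl N) (x y : N) : cl w x (some y) = cl w y (some x) := by
  change Real.log (sn w ![x, 1]) + Real.log (sn w ![y, 1]) - Real.log (nv w (x - y)) =
    Real.log (sn w ![y, 1]) + Real.log (sn w ![x, 1]) - Real.log (nv w (y - x))
  rw [nv_sub_comm w x y]
  ring

end

theorem taylor_bd {K : Type u} [Field K] [NumberField K] (v : Pl K) (D : ℕ) (R : ℝ) (hR : 1 ≤ R)
    (f : K[X]) :
    ∃ M : ℝ, 0 ≤ M ∧ ∀ (N : Type u) [Field N] [NumberField N] [Algebra K N],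
      finrank K N ≤ D → ∀ w ∈ above N v, ∀ x y : N, nv w x ≤ R → nv w y ≤ R →
      ∃ q : N, aeval y f = aeval x f + (y - x) * aeval x (derivative f) + (y - x) ^ 2 * q ∧
        nv w q ≤ M ∧ nv w (aeval x f) ≤ M ∧ nv w (aeval x (derivative f)) ≤ M := by
  induction f using Polynomial.induction_on with
  | C a =>
    have h0 : 0 ≤ max 1 (nv v a) ^ D := pow_nonneg (zero_le_one.trans (le_max_left _ _)) _
    refine ⟨max 1 (nv v a) ^ D, h0, ?_⟩
    intro N _ _ _ hD w hw x y hx hy
    refine ⟨0, ?_, ?_, ?_, ?_⟩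
    · simp
    · rw [nv_zero]; exact h0
    · rw [aeval_C]; exact nv_hi hw hD a
    · rw [derivative_C, map_zero, nv_zero]; exact h0
  | add p q hp hq =>
    obtain ⟨M1, h1, H1⟩ := hp
    obtain ⟨M2, h2, H2⟩ := hq
    refine ⟨4 * max M1 M2, by positivity, ?_⟩
    intro N _ _ _ hD w hw x y hx hy
    obtain ⟨q1, e1, a1, b1, c1⟩ := H1 N hD w hw x y hx hy
    obtain ⟨q2, e2, a2, b2, c2⟩ := H2 N hD w hw x y hx hy
    have key : ∀ s t : N, nv w s ≤ M1 → nv w t ≤ M2 → nv w (s + t) ≤ 4 * max M1 M2 := by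
      intro s t hs ht
      refine (nv_add_le w s t).trans ?_
      exact mul_le_mul_of_nonneg_left (max_le_max hs ht) (by norm_num)
    refine ⟨q1 + q2, ?_, key _ _ a1 a2, ?_, ?_⟩
    · rw [map_add, map_add, derivative_add, map_add, e1, e2]; ring
    · rw [map_add]; exact key _ _ b1 b2
    · rw [derivative_add, map_add]; exact key _ _ c1 c2
  | monomial n a h =>
    obtain ⟨M, hM, H⟩ := h
    have hRM : M ≤ R * M := by nlinarith
    refine ⟨4 * (R * M), by positivity, ?_⟩
    intro N _ _ _ hD w hw x y hx hy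
    obtain ⟨q, e, a1, b1, c1⟩ := H N hD w hw x y hx hy
    have hf : (C a * X ^ (n + 1) : K[X]) = (C a * X ^ n) * X := by ring
    rw [hf]
    set g : K[X] := C a * X ^ n with hg
    clear_value g
    have hd : derivative (g * X) = derivative g * X + g := by
      rw [derivative_mul, derivative_X, mul_one]
    have hmulx : ∀ s t : N, nv w s ≤ M → nv w t ≤ R → nv w (s * t) ≤ R * M := by
      intro s t hs ht
      rw [nv_mul, mul_comm]
      exact mul_le_mul ht hs (nv_nonneg _ _) (by linarith)
    have key : ∀ s t : N, nv w s ≤ R * M → nv w t ≤ R * M → nv w (s + t) ≤ 4 * (R * M) := by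
      intro s t hs ht
      refine (nv_add_le w s t).trans ?_
      exact mul_le_mul_of_nonneg_left (max_le hs ht) (by norm_num)
    refine ⟨aeval x (derivative g) + q * y, ?_, ?_, ?_, ?_⟩
    · rw [hd, map_add, map_mul, map_mul, map_mul, aeval_X, aeval_X, e]; ring
    · exact key _ _ (c1.trans hRM) (hmulx _ _ a1 hy)
    · rw [map_mul, aeval_X]
      have := hmulx _ _ b1 hx
      have h0 : 0 ≤ R * M := by positivity
      linarith
    · rw [hd, map_add, map_mul, aeval_X]
      exact key _ _ (hmulx _ _ c1 hx) (b1.trans hRM)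

theorem prod_lo {N : Type u} [Field N] [NumberField N] (w : Pl N) (c : ℝ) (hc : 0 ≤ c)
    (s : Multiset N) (h : ∀ a ∈ s, c ≤ nv w a) : c ^ Multiset.card s ≤ nv w s.prod := by
  induction s using Multiset.induction_on with
  | empty => rw [Multiset.prod_zero, nv_one]; simp
  | cons a s ih =>
    rw [Multiset.prod_cons, nv_mul, Multiset.card_cons, pow_succ']
    exact mul_le_mul (h a (Multiset.mem_cons_self a s))
      (ih fun b hb => h b (Multiset.mem_cons_of_mem hb)) (pow_nonneg hc _) (nv_nonneg _ _)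

theorem mid {K : Type u} [Field K] [NumberField K] (b0 b1 : K[X]) (hW : wr b0 b1 ≠ 0)
    (hWs : (wr b0 b1).Splits) (v : Pl K) (D : ℕ) (R c : ℝ) (hR : 1 ≤ R) (hc : 0 < c) :
    ∃ ε : ℝ, 0 < ε ∧ ∀ (N : Type u) [Field N] [NumberField N] [Algebra K N],
      finrank K N ≤ D → ∀ w ∈ above N v, ∀ x y : N, x ≠ y → nv w x ≤ R → nv w y ≤ R →
      (∀ a : K, (wr b0 b1).IsRoot a → c ≤ nv w (x - algebraMap K N a)) →
      aeval x b0 * aeval y b1 - aeval x b1 * aeval y b0 = 0 → ε ≤ nv w (x - y) := by
  obtain ⟨M0, hM0, H0⟩ := taylor_bd v D R hR b0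
  obtain ⟨M1, hM1, H1⟩ := taylor_bd v D R hR b1
  set L : ℝ := min 1 (nv v (wr b0 b1).leadingCoeff) ^ D * c ^ Multiset.card (wr b0 b1).roots with hL
  have hlc : (wr b0 b1).leadingCoeff ≠ 0 := leadingCoeff_ne_zero.mpr hW
  have hLpos : 0 < L := by
    have h1 : 0 < min 1 (nv v (wr b0 b1).leadingCoeff) := lt_min one_pos (nv_pos v hlc)
    positivity
  have hM : 0 < 4 * (M0 * M1) + 1 := by positivity
  refine ⟨L / (4 * (M0 * M1) + 1), by positivity, ?_⟩
  intro N _ _ _ hD w hw x y hxy hx hy hroot hrel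
  obtain ⟨q0, e0, a0, v0, d0⟩ := H0 N hD w hw x y hx hy
  obtain ⟨q1, e1, a1, v1, d1⟩ := H1 N hD w hw x y hx hy
  have hyx : y - x ≠ 0 := sub_ne_zero.mpr (Ne.symm hxy)
  have hWx : aeval x (wr b0 b1) = (y - x) * (aeval x b0 * q1 - aeval x b1 * q0) := by
    unfold wr
    rw [map_sub, map_mul, map_mul]
    rw [e0, e1] at hrel
    have h1 : (y - x) * ((aeval x (derivative b0) * aeval x b1 - aeval x b0 * aeval x (derivative b1)) -
        (y - x) * (aeval x b0 * q1 - aeval x b1 * q0)) = 0 := by linear_combination -hrel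
    rcases mul_eq_zero.mp h1 with h2 | h2
    · exact absurd h2 hyx
    · exact sub_eq_zero.mp h2
  have hup : nv w (aeval x b0 * q1 - aeval x b1 * q0) ≤ 4 * (M0 * M1) := by
    rw [sub_eq_add_neg]
    refine (nv_add_le w _ _).trans (mul_le_mul_of_nonneg_left (max_le ?_ ?_) (by norm_num))
    · rw [nv_mul]
      exact mul_le_mul v0 a1 (nv_nonneg _ _) hM0
    · rw [nv_neg, nv_mul, mul_comm]
      exact mul_le_mul a0 v1 (nv_nonneg _ _) hM0
  have hlow : L ≤ nv w (aeval x (wr b0 b1)) := by
    have h1 := hWs.eq_prod_roots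
    have h2 : aeval x (wr b0 b1) = algebraMap K N (wr b0 b1).leadingCoeff *
        (Multiset.map (fun a => x - algebraMap K N a) (wr b0 b1).roots).prod := by
      conv_lhs => rw [h1]
      rw [map_mul, aeval_C, map_multiset_prod, Multiset.map_map]
      congr 2
      refine Multiset.map_congr rfl fun a _ => ?_
      simp
    rw [h2, nv_mul, hL]
    refine mul_le_mul (nv_lo hw hD _) ?_ (pow_nonneg hc.le _) (nv_nonneg _ _)
    have h3 := prod_lo w c hc.le (Multiset.map (fun a => x - algebraMap K N a) (wr b0 b1).roots) ?_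
    · rwa [Multiset.card_map] at h3
    · intro z hz
      obtain ⟨a, ha, rfl⟩ := Multiset.mem_map.mp hz
      exact hroot a (isRoot_of_mem_roots ha)
  rw [hWx, nv_mul, nv_sub_comm] at hlow
  rw [div_le_iff₀ hM]
  have h0 := nv_nonneg w (x - y)
  nlinarith

theorem finset_lo {K : Type*} (s : Finset K) (δ : K → ℝ) (h : ∀ a, 0 < δ a) :
    ∃ δ0 : ℝ, 0 < δ0 ∧ ∀ a ∈ s, δ0 ≤ δ a := by
  classical
  induction s using Finset.induction_on with
  | empty => exact ⟨1, one_pos, fun a ha => absurd ha (Finset.notMem_empty _)⟩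
  | insert a s _ ih =>
    obtain ⟨d, hd, hs⟩ := ih
    refine ⟨min d (δ a), lt_min hd (h a), fun b hb => ?_⟩
    rcases Finset.mem_insert.mp hb with rfl | hb
    · exact min_le_right _ _
    · exact (min_le_left _ _).trans (hs b hb)

theorem reflect_deriv {K : Type*} [Field K] (m : ℕ) (b : K[X]) (hb : b.natDegree ≤ m) :
    X * derivative (b.reflect m) = (m : K[X]) * b.reflect m - (X * derivative b).reflect m := by
  ext j
  have hXd : ∀ (p : K[X]) (i : ℕ), (X * derivative p).coeff i = (i : K) * p.coeff i := by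
    intro p i
    rcases i with _ | i
    · simp
    · rw [coeff_X_mul, coeff_derivative]; push_cast; ring
  rw [hXd, coeff_sub, coeff_reflect, coeff_reflect, hXd]
  have hm : ((m : K[X]) * b.reflect m).coeff j = (m : K) * (b.reflect m).coeff j := by
    rw [show (m : K[X]) = C (m : K) from (map_natCast C m).symm, coeff_C_mul]
  rw [hm, coeff_reflect]
  rcases le_or_gt j m with h | h
  · rw [revAt_le h, Nat.cast_sub h]; ring
  · rw [revAt_eq_self_of_lt h, coeff_eq_zero_of_natDegree_lt (lt_of_le_of_lt hb h)]; ring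

theorem wr_reflect {K : Type*} [Field K] (m : ℕ) (b0 b1 : K[X]) (h0 : b0.natDegree ≤ m)
    (h1 : b1.natDegree ≤ m) (hW : wr b0 b1 ≠ 0) : wr (b0.reflect m) (b1.reflect m) ≠ 0 := by
  intro h
  have hdeg : ∀ b : K[X], b.natDegree ≤ m → (X * derivative b).natDegree ≤ m := by
    intro b hb
    rcases Nat.eq_zero_or_pos b.natDegree with h2 | h2
    · rw [eq_C_of_natDegree_eq_zero h2, derivative_C, mul_zero, natDegree_zero]; exact Nat.zero_le _
    · refine natDegree_mul_le.trans ?_
      rw [natDegree_X]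
      have := natDegree_derivative_lt (p := b) h2.ne'
      omega
  have e1 : X * wr (b0.reflect m) (b1.reflect m) =
      -((X * wr b0 b1).reflect (m + m)) := by
    have e2 : X * wr b0 b1 = (X * derivative b0) * b1 - b0 * (X * derivative b1) := by
      unfold wr; ring
    rw [e2]
    have e3 : ((X * derivative b0) * b1 - b0 * (X * derivative b1)).reflect (m + m) =
        (X * derivative b0).reflect m * b1.reflect m - b0.reflect m * (X * derivative b1).reflect m := by
      rw [sub_eq_add_neg, reflect_add, reflect_neg, reflect_mul _ _ (hdeg b0 h0) h1,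
        reflect_mul _ _ h0 (hdeg b1 h1)]
      ring
    rw [e3]
    unfold wr
    have f0 := reflect_deriv m b0 h0
    have f1 := reflect_deriv m b1 h1
    linear_combination (b1.reflect m) * f0 - (b0.reflect m) * f1
  rw [h, mul_zero] at e1
  have e4 : (X * wr b0 b1).reflect (m + m) = 0 := by
    rw [eq_comm, neg_eq_zero] at e1; exact e1
  rw [reflect_eq_zero_iff] at e4
  exact (mul_ne_zero X_ne_zero hW) e4

theorem aeval_reflect {K N : Type*} [Field K] [Field N] [Algebra K N] (m : ℕ) (b : K[X])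
    (hb : b.natDegree ≤ m) (x : N) (hx : x ≠ 0) :
    aeval x⁻¹ (b.reflect m) * x ^ m = aeval x b := by
  have : Invertible x := invertibleOfNonzero hx
  have := eval₂_reflect_mul_pow (algebraMap K N) x m b hb
  rw [invOf_eq_inv] at this
  exact this

/-- the two possibilities -/
def Good {K : Type u} [Field K] (A : Finset (Option K)) (C : ℝ) (N : Type u) [Field N] [NumberField N] [Algebra K N]
    (w : Pl N) (x y : N) : Prop :=
  cl w x (some y) ≤ C ∨ ∃ p ∈ A, cl w x (some y) ≤
    min (cl w x (p.map (algebraMap K N))) (cl w y (p.map (algebraMap K N))) + C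

theorem Good.symm {K : Type u} [Field K] {A : Finset (Option K)} {C : ℝ} {N : Type u} [Field N]
    [NumberField N] [Algebra K N] {w : Pl N} {x y : N} (h : Good A C N w x y) : Good A C N w y x := by
  unfold Good at h ⊢
  rw [cl_comm w y x]
  rcases h with h | ⟨p, hp, h⟩
  · exact Or.inl h
  · exact Or.inr ⟨p, hp, by rwa [min_comm]⟩

theorem Good.mono {K : Type u} [Field K] {A : Finset (Option K)} {C C' : ℝ} (hC : C ≤ C') {N : Type u} [Field N]
    [NumberField N] [Algebra K N] {w : Pl N} {x y : N} (h : Good A C N w x y) : Good A C' N w x y := by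
  rcases h with h | ⟨p, hp, h⟩
  · exact Or.inl (h.trans hC)
  · exact Or.inr ⟨p, hp, h.trans (by linarith)⟩

/-- one of the points is bounded -/
theorem good_fin {K : Type u} [Field K] [NumberField K] (b0 b1 : K[X]) (hW : wr b0 b1 ≠ 0)
    (hWs : (wr b0 b1).Splits) (A : Finset (Option K))
    (hWr : ∀ a : K, (wr b0 b1).IsRoot a → some a ∈ A) (v : Pl K) (D : ℕ) (R : ℝ) (hR : 1 ≤ R) :
    ∃ C0 : ℝ, ∀ (N : Type u) [Field N] [NumberField N] [Algebra K N],
      finrank K N ≤ D → ∀ w ∈ above N v, ∀ x y : N, x ≠ y →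
      (∀ p ∈ A, p.map (algebraMap K N) ≠ some x) → (∀ p ∈ A, p.map (algebraMap K N) ≠ some y) →
      aeval x b0 * aeval y b1 - aeval x b1 * aeval y b0 = 0 → nv w x ≤ R →
      Good A C0 N w x y := by
  classical
  choose δ η hδ hη H using fun a : K => wron_near b0 b1 hW v a D
  obtain ⟨δ0, hδ0, hδa⟩ := finset_lo (wr b0 b1).roots.toFinset δ hδ
  obtain ⟨η0, hη0, hηa⟩ := finset_lo (wr b0 b1).roots.toFinset η hη
  obtain ⟨ε, hε, hmid⟩ := mid b0 b1 hW hWs v D (16 * R) (δ0 / 4) (by linarith) (by positivity)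
  have hmem : ∀ a : K, (wr b0 b1).IsRoot a → a ∈ (wr b0 b1).roots.toFinset := by
    intro a ha
    rw [Multiset.mem_toFinset]
    exact (mem_roots hW).mpr ha
  set ε0 : ℝ := min ε (δ0 / 4) with hε0
  have hε0p : 0 < ε0 := lt_min hε (by positivity)
  have h16 : (1 : ℝ) ≤ 16 * R := by linarith
  have hlR : 0 ≤ Real.log (16 * R) := Real.log_nonneg h16
  refine ⟨Real.log 4 + 2 * Real.log (16 * R) + |Real.log ε0| + |Real.log η0|, ?_⟩
  intro N _ _ _ hD w hw x y hxy hxA hyA hrel hx
  have hl4 : 0 ≤ Real.log 4 := Real.log_nonneg (by norm_num)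
  have he := abs_nonneg (Real.log ε0)
  have hn := abs_nonneg (Real.log η0)
  have he' := neg_abs_le (Real.log ε0)
  have hn' := neg_abs_le (Real.log η0)
  have hsx : sn w ![x, 1] ≤ R := by rw [sn_eq]; exact max_le hx hR
  have h1x := one_le w x
  have h1y := one_le w y
  have hxy' : x - y ≠ 0 := sub_ne_zero.mpr hxy
  have hlx : Real.log (sn w ![x, 1]) ≤ Real.log (16 * R) :=
    Real.log_le_log (by linarith) (by linarith)
  rcases le_or_gt (nv w y) (16 * R) with hy | hy
  · have hsy : sn w ![y, 1] ≤ 16 * R := by rw [sn_eq]; exact max_le hy h16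
    have hly : Real.log (sn w ![y, 1]) ≤ Real.log (16 * R) :=
      Real.log_le_log (by linarith) hsy
    by_cases hclose : ∃ a : K, (wr b0 b1).IsRoot a ∧ nv w (x - algebraMap K N a) ≤ δ a ∧
        nv w (y - algebraMap K N a) ≤ δ a
    · obtain ⟨a, ha, hxa, hya⟩ := hclose
      have hx0 : x ≠ algebraMap K N a := fun h => hxA _ (hWr a ha) (by rw [h]; rfl)
      have hy0 : y ≠ algebraMap K N a := fun h => hyA _ (hWr a ha) (by rw [h]; rfl)
      have hrel' : aeval y b0 * aeval x b1 - aeval y b1 * aeval x b0 = 0 := by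
        linear_combination -hrel
      have k1 := H a N hD w hw x y hxy hx0 hy0 hxa hya hrel
      have k2 := H a N hD w hw y x (Ne.symm hxy) hy0 hx0 hya hxa hrel'
      rw [nv_sub_comm w y x] at k2
      have hpx := nv_pos w (sub_ne_zero.mpr hx0)
      have hpy := nv_pos w (sub_ne_zero.mpr hy0)
      have hη1 := hηa a (hmem a ha)
      have g1 : Real.log η0 + Real.log (nv w (y - algebraMap K N a)) ≤ Real.log (nv w (x - y)) := by
        rw [← Real.log_mul hη0.ne' hpy.ne']
        exact Real.log_le_log (by positivity)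
          ((mul_le_mul_of_nonneg_right hη1 hpy.le).trans k1)
      have g2 : Real.log η0 + Real.log (nv w (x - algebraMap K N a)) ≤ Real.log (nv w (x - y)) := by
        rw [← Real.log_mul hη0.ne' hpx.ne']
        exact Real.log_le_log (by positivity)
          ((mul_le_mul_of_nonneg_right hη1 hpx.le).trans k2)
      have hA := Real.log_nonneg (one_le w (algebraMap K N a))
      refine Or.inr ⟨some a, hWr a ha, ?_⟩
      change Real.log (sn w ![x, 1]) + Real.log (sn w ![y, 1]) - Real.log (nv w (x - y)) ≤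
        min (Real.log (sn w ![x, 1]) + Real.log (sn w ![algebraMap K N a, 1]) -
          Real.log (nv w (x - algebraMap K N a)))
          (Real.log (sn w ![y, 1]) + Real.log (sn w ![algebraMap K N a, 1]) -
          Real.log (nv w (y - algebraMap K N a))) + _
      rcases min_choice (Real.log (sn w ![x, 1]) + Real.log (sn w ![algebraMap K N a, 1]) -
          Real.log (nv w (x - algebraMap K N a)))
          (Real.log (sn w ![y, 1]) + Real.log (sn w ![algebraMap K N a, 1]) -
          Real.log (nv w (y - algebraMap K N a))) with h | h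
      · rw [h]; linarith
      · rw [h]; linarith
    · rcases le_or_gt ε0 (nv w (x - y)) with hfar | hnear
      · refine Or.inl ?_
        have g1 := Real.log_le_log hε0p hfar
        change Real.log (sn w ![x, 1]) + Real.log (sn w ![y, 1]) - Real.log (nv w (x - y)) ≤ _
        linarith
      · exfalso
        have hroot : ∀ a : K, (wr b0 b1).IsRoot a → δ0 / 4 ≤ nv w (x - algebraMap K N a) := by
          intro a ha
          by_contra hcon
          rw [not_le] at hcon
          apply hclose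
          have hd := hδa a (hmem a ha)
          refine ⟨a, ha, by linarith, ?_⟩
          have h1 := nv_add_le w (y - x) (x - algebraMap K N a)
          rw [sub_add_sub_cancel, nv_sub_comm w y x] at h1
          have h2 : max (nv w (x - y)) (nv w (x - algebraMap K N a)) ≤ δ0 / 4 :=
            max_le (hnear.le.trans (min_le_right _ _)) hcon.le
          linarith
        have := hmid N hD w hw x y hxy (by linarith) hy hroot hrel
        exact absurd (this.trans_lt hnear) (not_lt.mpr (min_le_left _ _))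
  · refine Or.inl ?_
    have h1 : 16 * sn w ![x, 1] < sn w ![y, 1] := by
      have h2 : nv w y ≤ sn w ![y, 1] := by rw [sn_eq]; exact le_max_left _ _
      linarith
    have h3 := far w y x (sub_ne_zero.mpr (Ne.symm hxy)) h1
    rw [nv_sub_comm w y x] at h3
    change Real.log (sn w ![x, 1]) + Real.log (sn w ![y, 1]) - Real.log (nv w (x - y)) ≤ _
    linarith

/-- both points are large -/
theorem good_inf {K : Type u} [Field K] [NumberField K] (b0 b1 : K[X]) (hW : wr b0 b1 ≠ 0)
    (A : Finset (Option K)) (hnone : none ∈ A) (v : Pl K) (D : ℕ) :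
    ∃ R C0 : ℝ, 1 ≤ R ∧ ∀ (N : Type u) [Field N] [NumberField N] [Algebra K N],
      finrank K N ≤ D → ∀ w ∈ above N v, ∀ x y : N, x ≠ y →
      aeval x b0 * aeval y b1 - aeval x b1 * aeval y b0 = 0 → R ≤ nv w x → R ≤ nv w y →
      Good A C0 N w x y := by
  set m := max b0.natDegree b1.natDegree with hm
  have hm0 : b0.natDegree ≤ m := le_max_left _ _
  have hm1 : b1.natDegree ≤ m := le_max_right _ _
  obtain ⟨δ, η, hδ, hη, H⟩ := wron_near (b0.reflect m) (b1.reflect m)
    (wr_reflect m b0 b1 hm0 hm1 hW) v 0 D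
  refine ⟨max 1 δ⁻¹, |Real.log η|, le_max_left _ _, ?_⟩
  intro N _ _ _ hD w hw x y hxy hrel hx hy
  have hx1 : 1 ≤ nv w x := (le_max_left _ _).trans hx
  have hy1 : 1 ≤ nv w y := (le_max_left _ _).trans hy
  have hx0 : x ≠ 0 := by rintro rfl; rw [nv_zero] at hx1; linarith
  have hy0 : y ≠ 0 := by rintro rfl; rw [nv_zero] at hy1; linarith
  have hinv : ∀ z : N, max 1 δ⁻¹ ≤ nv w z → nv w (z⁻¹ - algebraMap K N 0) ≤ δ := by
    intro z hz
    rw [map_zero, sub_zero, nv_inv]
    exact inv_le_of_inv_le₀ hδ ((le_max_right _ _).trans hz)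
  have hrel1 : aeval x⁻¹ (b0.reflect m) * aeval y⁻¹ (b1.reflect m) -
      aeval x⁻¹ (b1.reflect m) * aeval y⁻¹ (b0.reflect m) = 0 := by
    rw [← aeval_reflect m b0 hm0 x hx0, ← aeval_reflect m b0 hm0 y hy0,
      ← aeval_reflect m b1 hm1 x hx0, ← aeval_reflect m b1 hm1 y hy0] at hrel
    have h1 : (x ^ m * y ^ m) * (aeval x⁻¹ (b0.reflect m) * aeval y⁻¹ (b1.reflect m) -
      aeval x⁻¹ (b1.reflect m) * aeval y⁻¹ (b0.reflect m)) = 0 := by linear_combination hrel
    rcases mul_eq_zero.mp h1 with h2 | h2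
    · exact absurd h2 (mul_ne_zero (pow_ne_zero _ hx0) (pow_ne_zero _ hy0))
    · exact h2
  have hrel2 : aeval y⁻¹ (b0.reflect m) * aeval x⁻¹ (b1.reflect m) -
      aeval y⁻¹ (b1.reflect m) * aeval x⁻¹ (b0.reflect m) = 0 := by linear_combination -hrel1
  have hne : x⁻¹ ≠ y⁻¹ := fun h => hxy (inv_injective h)
  have hx00 : x⁻¹ ≠ algebraMap K N 0 := by rw [map_zero]; exact inv_ne_zero hx0
  have hy00 : y⁻¹ ≠ algebraMap K N 0 := by rw [map_zero]; exact inv_ne_zero hy0
  have k1 := H N hD w hw x⁻¹ y⁻¹ hne hx00 hy00 (hinv x hx) (hinv y hy) hrel1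
  have k2 := H N hD w hw y⁻¹ x⁻¹ (Ne.symm hne) hy00 hx00 (hinv y hy) (hinv x hx) hrel2
  rw [nv_sub_comm w y⁻¹ x⁻¹] at k2
  rw [map_zero, sub_zero, nv_inv] at k1 k2
  have hdiff : nv w (x⁻¹ - y⁻¹) = nv w (x - y) * (nv w x)⁻¹ * (nv w y)⁻¹ := by
    rw [← nv_inv, ← nv_inv, ← nv_mul, ← nv_mul, nv_sub_comm]
    congr 1
    field_simp
  have hxp : 0 < nv w x := by linarith
  have hyp : 0 < nv w y := by linarith
  have hdp : 0 < nv w (x - y) := nv_pos w (sub_ne_zero.mpr hxy)
  rw [hdiff] at k1 k2
  have g1 : Real.log η + Real.log (nv w x) ≤ Real.log (nv w (x - y)) := by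
    rw [← Real.log_mul hη.ne' hxp.ne']
    refine Real.log_le_log (by positivity) ?_
    have h1 := mul_le_mul_of_nonneg_right k1 (mul_pos hxp hyp).le
    have h2 : η * (nv w y)⁻¹ * (nv w x * nv w y) = η * nv w x := by field_simp
    have h3 : nv w (x - y) * (nv w x)⁻¹ * (nv w y)⁻¹ * (nv w x * nv w y) = nv w (x - y) := by
      field_simp
    linarith
  have g2 : Real.log η + Real.log (nv w y) ≤ Real.log (nv w (x - y)) := by
    rw [← Real.log_mul hη.ne' hyp.ne']
    refine Real.log_le_log (by positivity) ?_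
    have h1 := mul_le_mul_of_nonneg_right k2 (mul_pos hxp hyp).le
    have h2 : η * (nv w x)⁻¹ * (nv w x * nv w y) = η * nv w y := by field_simp
    have h3 : nv w (x - y) * (nv w x)⁻¹ * (nv w y)⁻¹ * (nv w x * nv w y) = nv w (x - y) := by
      field_simp
    linarith
  have hsx : sn w ![x, 1] = nv w x := by rw [sn_eq]; exact max_eq_left hx1
  have hsy : sn w ![y, 1] = nv w y := by rw [sn_eq]; exact max_eq_left hy1
  have hn' := neg_abs_le (Real.log η)
  refine Or.inr ⟨none, hnone, ?_⟩
  change Real.log (sn w ![x, 1]) + Real.log (sn w ![y, 1]) - Real.log (nv w (x - y)) ≤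
    min (Real.log (sn w ![x, 1])) (Real.log (sn w ![y, 1])) + _
  rw [hsx, hsy]
  rcases min_choice (Real.log (nv w x)) (Real.log (nv w y)) with h | h
  · rw [h]; linarith
  · rw [h]; linarith

end WB

theorem same_image {K : Type u} [Field K] [NumberField K] (b0 b1 : K[X]) (hW : wr b0 b1 ≠ 0)
    (hWs : (wr b0 b1).Splits) (A : Finset (Option K)) (hnone : none ∈ A)
    (hWr : ∀ a : K, (wr b0 b1).IsRoot a → some a ∈ A) (v : Pl K) (D : ℕ) :
    ∃ C0 : ℝ, ∀ (N : Type u) [Field N] [NumberField N] [Algebra K N],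
      finrank K N ≤ D → ∀ w ∈ above N v, ∀ x y : N, x ≠ y →
      (∀ p ∈ A, p.map (algebraMap K N) ≠ some x) → (∀ p ∈ A, p.map (algebraMap K N) ≠ some y) →
      aeval x b0 * aeval y b1 - aeval x b1 * aeval y b0 = 0 →
      exc (img N A) w x y ≤ C0 := by
  classical
  obtain ⟨R, C1, hR, H1⟩ := WB.good_inf b0 b1 hW A hnone v D
  obtain ⟨C2, H2⟩ := WB.good_fin b0 b1 hW hWs A hWr v D R hR
  refine ⟨max C1 C2 + A.card * Real.log 4, ?_⟩
  intro N _ _ _ hD w hw x y hxy hxA hyA hrel
  have hgood : WB.Good A (max C1 C2) N w x y := by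
    rcases le_or_gt (nv w x) R with hx | hx
    · exact (H2 N hD w hw x y hxy hxA hyA hrel hx).mono (le_max_right _ _)
    · rcases le_or_gt (nv w y) R with hy | hy
      · exact ((H2 N hD w hw y x (Ne.symm hxy) hyA hxA (by linear_combination -hrel) hy).symm).mono
          (le_max_right _ _)
      · exact (H1 N hD w hw x y hxy hrel hx.le hy.le).mono (le_max_left _ _)
  have hl4 : 0 ≤ Real.log 4 := Real.log_nonneg (by norm_num)
  have hcard : ((img N A).card : ℝ) ≤ A.card := by
    unfold img
    exact_mod_cast Finset.card_image_le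
  have hlow : ∀ p ∈ img N A, -Real.log 4 ≤ min (cl w x p) (cl w y p) := by
    intro p hp
    unfold img at hp
    obtain ⟨q, hq, rfl⟩ := Finset.mem_image.mp hp
    exact le_min (Pool.Agent.Helper61.AD.cl_ge w x _ (hxA q hq))
      (Pool.Agent.Helper61.AD.cl_ge w y _ (hyA q hq))
  unfold exc
  rcases hgood with h | ⟨p, hp, h⟩
  · have h1 : -(A.card * Real.log 4) ≤ ∑ p ∈ img N A, min (cl w x p) (cl w y p) := by
      have h2 := Finset.card_nsmul_le_sum (img N A) _ (-Real.log 4) hlow
      rw [nsmul_eq_mul] at h2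
      nlinarith
    linarith
  · have hp' : p.map (algebraMap K N) ∈ img N A := by
      unfold img
      exact Finset.mem_image_of_mem _ hp
    have h1 : min (cl w x (p.map (algebraMap K N))) (cl w y (p.map (algebraMap K N))) -
        A.card * Real.log 4 ≤ ∑ p ∈ img N A, min (cl w x p) (cl w y p) := by
      rw [← Finset.add_sum_erase _ _ hp']
      have h2 := Finset.card_nsmul_le_sum ((img N A).erase (p.map (algebraMap K N)))
        (fun p => min (cl w x p) (cl w y p)) (-Real.log 4)
        (fun q hq => hlow q (Finset.mem_of_mem_erase hq))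
      rw [nsmul_eq_mul] at h2
      have h3 : (((img N A).erase (p.map (algebraMap K N))).card : ℝ) ≤ A.card := by
        refine le_trans ?_ hcard
        exact_mod_cast Finset.card_le_card (Finset.erase_subset _ _)
      nlinarith
    linarith

end Pool.Agent.Helper61.AD2
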