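import Pool.Agent.Helper61.AD2.GlobR
import Pool.Agent.Helper61.AD2.GlobP
import Pool.Agent.Helper61.AD2.Minor
import Pool.Agent.Helper61.AD2.HSum
import Pool.Agent.Helper61.AD2.WronB

/-!
# Block AD2-LEV: the inequality for one polynomial and one basis in the boxes

Proof. Call a pair `i ≠ j` cross if `aeval (x i) (b i0) * aeval (x j) (b i1) - aeval (x i) (b i1) * aeval (x j) (b i0) ≠ 0`
(symmetric relation). `B l = ∑ i, C (xb l i) * b i`, `natDegree ≤ r` (`hb.deg`).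
(I1) for every `i`: `exists_eval_ne` gives `l` with `aeval (x i) (B l) ≠ 0`; `root_global`:
 `R i := ∑_{T} ∑_w fw i ≤ finrank K N * (κtot + C) + r h_i`, `h_i = vH ![x i,1]`.
(I2) for every cross pair: `exists_minor_ne`, `pair_global`:
 `∑∑ (fw i + fw j + exc i j) ≤ finrank K N * (2 κtot + C) + r h_i + r h_j`.
Let `n_i` = number of `j` with `(i,j)` cross (`≤ r - 1`). Sum (I2) over all ordered cross pairs and (I1) with the weight
`2 (r-1) - 2 n_i ≥ 0`: left side `2 (r-1) ∑ R i + ∑_{cross} ∑∑ exc`, right side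
`finrank K N * (2 (r-1) r κtot + C') + 2 (r-1) r ∑ h_i`, as `∑_{cross} (h_i + h_j) = ∑_i 2 n_i h_i` and
`∑_{cross} 1 = ∑ n_i`. Other pairs `i ≠ j` (`x` injective): `exc ≤ C` at every `w` over `T` (`same_image`), number of `w`
at most `T.card * finrank K N`. `∑ h_i ≤ finrank K N * (vH (cf r P) + C)` (`height_sum`). Divide by `2 (r-1) > 0`;
`prs = ∑ fw` (`prs_eq`).
-/

namespace Pool.Agent.Helper61.AD2

open NumberField Finset Polynomial Module
open Pool.Agent.Helper64.Vojta (Pl nv sn above)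
open Pool.Agent.Helper61.AD (cl tay cf NoBase)
open Pool.Agent.Helper52.Vojta (ldeg)
open Pool.Agent.V2 (vn vH)

universe u

/-- The purely numerical part: sum over all ordered pairs. -/
theorem combine_pairs {r : ℕ} (hr : 2 ≤ r) (R h : Fin r → ℝ) (E : Fin r → Fin r → ℝ)
    (F κ c H : ℝ)
    (h2 : ∀ i j, i ≠ j → R i + R j + E i j ≤ F * (2 * κ + c) + r * h i + r * h j)
    (hH : ∑ i, h i ≤ F * H) :
    ∑ i, R i + (∑ i, ∑ j ∈ univ.erase i, E i j) / (2 * r - 2) ≤
      F * (r * κ + r * H + r * c) - F * (r * c / 2) := by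
  have hr' : (2 : ℝ) ≤ r := by exact_mod_cast hr
  have hr1 : (0 : ℝ) < 2 * r - 2 := by linarith
  have key : ∀ g : Fin r → ℝ, ∑ i, ∑ j ∈ univ.erase i, (g i + g j) = (2 * r - 2) * ∑ i, g i := by
    intro g
    have e1 : ∀ i : Fin r, ∑ j ∈ univ.erase i, (g i + g j) = (r - 1) * g i + (∑ j, g j - g i) := by
      intro i
      rw [Finset.sum_add_distrib, Finset.sum_const, Finset.card_erase_of_mem (Finset.mem_univ i),
        Finset.card_univ, Fintype.card_fin, nsmul_eq_mul, Nat.cast_sub (by omega), Nat.cast_one,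
        Finset.sum_erase_eq_sub (Finset.mem_univ i)]
    rw [Finset.sum_congr rfl fun i _ => e1 i, Finset.sum_add_distrib, Finset.sum_sub_distrib,
      Finset.sum_const, ← Finset.mul_sum, Finset.card_univ, Fintype.card_fin, nsmul_eq_mul]
    ring
  have hsum : ∑ i, ∑ j ∈ univ.erase i, (R i + R j + E i j) ≤
      ∑ i, ∑ j ∈ univ.erase i, (F * (2 * κ + c) + r * h i + r * h j) :=
    Finset.sum_le_sum fun i _ => Finset.sum_le_sum fun j hj =>
      h2 i j (Finset.ne_of_mem_erase hj).symm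
  have hL : ∑ i, ∑ j ∈ univ.erase i, (R i + R j + E i j) =
      (2 * r - 2) * ∑ i, R i + ∑ i, ∑ j ∈ univ.erase i, E i j := by
    rw [← key R, ← Finset.sum_add_distrib]
    exact Finset.sum_congr rfl fun i _ => Finset.sum_add_distrib
  have hR : ∑ i, ∑ j ∈ univ.erase i, (F * (2 * κ + c) + r * h i + r * h j) =
      (2 * r - 2) * (∑ i, (F * (2 * κ + c) / 2 + r * h i)) := by
    rw [← key fun i => F * (2 * κ + c) / 2 + r * h i]
    exact Finset.sum_congr rfl fun i _ => Finset.sum_congr rfl fun j _ => by ring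
  rw [hL, hR, Finset.sum_add_distrib, Finset.sum_const, Finset.card_univ, Fintype.card_fin,
    nsmul_eq_mul, ← Finset.mul_sum] at hsum
  have hdiv : ∑ i, R i + (∑ i, ∑ j ∈ univ.erase i, E i j) / (2 * r - 2) =
      ((2 * r - 2) * ∑ i, R i + ∑ i, ∑ j ∈ univ.erase i, E i j) / (2 * r - 2) := by
    rw [add_div, mul_div_cancel_left₀ _ hr1.ne']
  rw [hdiv, div_le_iff₀ hr1]
  have hr0 : (0 : ℝ) ≤ r := by linarith
  have := mul_le_mul_of_nonneg_left (mul_le_mul_of_nonneg_left hH hr0) hr1.le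
  nlinarith

theorem level_ineq {K : Type u} [Field K] [NumberField K] {n r : ℕ} (hr : 2 ≤ r)
    (b : Fin n → K[X]) (hb : NoBase r b) (i0 i1 : Fin n) (hW : wr (b i0) (b i1) ≠ 0)
    (hWs : (wr (b i0) (b i1)).Splits) (A : Finset (Option K)) (hnone : none ∈ A)
    (hWr : ∀ a : K, (wr (b i0) (b i1)).IsRoot a → some a ∈ A)
    (T : Finset (Pl K)) (hT : ∀ v : InfinitePlace K, Sum.inl v ∈ T) (D : ℕ) :
    ∃ C0 : ℝ, ∀ (N : Type u) [Field N] [NumberField N] [Algebra K N], finrank K N ≤ D →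
      ∀ P : K[X], P.Monic → P.natDegree = r → ∀ x : Fin r → N, Function.Injective x →
      P.map (algebraMap K N) = ∏ i, (X - C (x i)) →
      (∀ i, ∀ p ∈ A, p.map (algebraMap K N) ≠ some (x i)) →
      ∀ (μ : Pl K → Option K → ℕ → ℝ) (κ : Pl K → ℝ),
      (∀ v ∈ T, ∀ w ∈ above N v, ∀ p ∈ A, ∀ s ≤ r, ∃ I : Finset (Fin r), I.card = r - s ∧
        ∑ i ∈ I, max 0 (cl w (x i) (p.map (algebraMap K N))) ≤ ldeg v w * μ v p s) →
      ∀ xb : Fin n → Fin n → K, LinearIndependent K xb →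
      (∀ v ∈ T, ∀ p ∈ A, ∀ l, ∀ s ≤ r,
        nv v ((tay p r (∑ i, C (xb l i) * b i)).coeff s) ≤ Real.exp (κ v - μ v p s)) →
      (∀ v : Pl K, v ∉ T → ∀ l s, nv v ((∑ i, C (xb l i) * b i).coeff s) ≤ 1) →
      ∑ v ∈ T, ∑ w ∈ above N v, (prs (img N A) w x + exs (img N A) w x / (2 * r - 2)) ≤
        finrank K N * (r * ∑ v ∈ T, κ v + r * vH (cf r P) + C0) := by
  classical
  have hA : A.Nonempty := ⟨none, hnone⟩
  obtain ⟨C1, hC1⟩ := root_global r A hA T hT D
  obtain ⟨C2, hC2⟩ := pair_global r A hA T hT D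
  obtain ⟨C4, hC4⟩ := height_sum (K := K) r
  choose C3 hC3 using fun v : Pl K => same_image (b i0) (b i1) hW hWs A hnone hWr v D
  refine ⟨r * C4 + r * (|C2| + 2 * |C1| + ∑ v ∈ T, |C3 v|), ?_⟩
  intro N _ _ _ hD P hP hPd x hx hPx hxA μ κ hμ xb hxb hB hB1
  have hdeg : ∀ l, (∑ i, C (xb l i) * b i).natDegree ≤ r := by
    intro l
    refine Polynomial.natDegree_sum_le_of_forall_le _ _ fun i _ => ?_
    exact (Polynomial.natDegree_C_mul_le _ _).trans (hb.deg i)
  have hF : (0 : ℝ) ≤ finrank K N := Nat.cast_nonneg _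
  set F : ℝ := (finrank K N : ℝ) with hFdef
  set κt : ℝ := ∑ v ∈ T, κ v with hκt
  set A' := img N A with hA'
  -- (I1)
  have I1 : ∀ i, ∑ v ∈ T, ∑ w ∈ above N v, fw A' w x i ≤ F * (κt + C1) + r * vH ![x i, 1] := by
    intro i
    obtain ⟨l, hl⟩ := exists_eval_ne hb xb hxb (x i)
    exact hC1 N hD x hxA μ κ hμ _ (hdeg l) (fun v hv p hp s hs => hB v hv p hp l s hs)
      (fun v hv s => hB1 v hv l s) i hl
  -- all pairs
  have I2 : ∀ i j, i ≠ j → ∑ v ∈ T, ∑ w ∈ above N v, fw A' w x i +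
      ∑ v ∈ T, ∑ w ∈ above N v, fw A' w x j +
      ∑ v ∈ T, ∑ w ∈ above N v, exc A' w (x i) (x j) ≤
      F * (2 * κt + (|C2| + 2 * |C1| + ∑ v ∈ T, |C3 v|)) + r * vH ![x i, 1] +
        r * vH ![x j, 1] := by
    intro i j hij
    have hxij : x i ≠ x j := fun h => hij (hx h)
    have hS3 : 0 ≤ ∑ v ∈ T, |C3 v| := Finset.sum_nonneg fun v _ => abs_nonneg _
    by_cases hc : aeval (x i) (b i0) * aeval (x j) (b i1) -
        aeval (x i) (b i1) * aeval (x j) (b i0) = 0
    · -- same image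
      have h3 : ∑ v ∈ T, ∑ w ∈ above N v, exc A' w (x i) (x j) ≤ F * ∑ v ∈ T, |C3 v| := by
        rw [Finset.mul_sum]
        refine Finset.sum_le_sum fun v _ => ?_
        calc ∑ w ∈ above N v, exc A' w (x i) (x j) ≤ ∑ w ∈ above N v, |C3 v| := by
              refine Finset.sum_le_sum fun w hw => ?_
              exact (hC3 v N hD w hw (x i) (x j) hxij (hxA i) (hxA j) hc).trans (le_abs_self _)
          _ = ((above N v).card : ℝ) * |C3 v| := by rw [Finset.sum_const, nsmul_eq_mul]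
          _ ≤ F * |C3 v| := by
              refine mul_le_mul_of_nonneg_right ?_ (abs_nonneg _)
              rw [hFdef]
              exact_mod_cast Pool.Agent.Helper64.Vojta.card_above_le v
      have h1 := I1 i
      have h2 := I1 j
      have h4 : F * C1 ≤ F * |C1| := mul_le_mul_of_nonneg_left (le_abs_self _) hF
      have h5 : 0 ≤ F * |C2| := mul_nonneg hF (abs_nonneg _)
      nlinarith
    · obtain ⟨l, l', hll⟩ := exists_minor_ne xb hxb (x i) (x j) i0 i1 hc
      have h2 := hC2 N hD x hxA μ κ hμ _ _ (hdeg l) (hdeg l')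
        (fun v hv p hp s hs => hB v hv p hp l s hs) (fun v hv p hp s hs => hB v hv p hp l' s hs)
        (fun v hv s => hB1 v hv l s) (fun v hv s => hB1 v hv l' s) i j hxij hll
      have h2' : ∑ v ∈ T, ∑ w ∈ above N v, fw A' w x i +
          ∑ v ∈ T, ∑ w ∈ above N v, fw A' w x j +
          ∑ v ∈ T, ∑ w ∈ above N v, exc A' w (x i) (x j) ≤
          F * (2 * κt + C2) + r * vH ![x i, 1] + r * vH ![x j, 1] := by
        refine le_trans (le_of_eq ?_) h2
        rw [← Finset.sum_add_distrib, ← Finset.sum_add_distrib]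
        refine Finset.sum_congr rfl fun v _ => ?_
        rw [← Finset.sum_add_distrib, ← Finset.sum_add_distrib]
      have h4 : F * C2 ≤ F * |C2| := mul_le_mul_of_nonneg_left (le_abs_self _) hF
      have h5 : 0 ≤ F * |C1| := mul_nonneg hF (abs_nonneg _)
      have h6 : 0 ≤ F * ∑ v ∈ T, |C3 v| := mul_nonneg hF hS3
      nlinarith
  have hfin := combine_pairs hr (fun i => ∑ v ∈ T, ∑ w ∈ above N v, fw A' w x i)
    (fun i => vH ![x i, 1]) (fun i j => ∑ v ∈ T, ∑ w ∈ above N v, exc A' w (x i) (x j))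
    F κt (|C2| + 2 * |C1| + ∑ v ∈ T, |C3 v|) (vH (cf r P) + C4) I2 (hC4 N P hP hPd x hPx)
  have hsw : ∀ {ι : Type} (s : Finset ι) (f : ι → Pl N → ℝ),
      ∑ v ∈ T, ∑ w ∈ above N v, ∑ i ∈ s, f i w = ∑ i ∈ s, ∑ v ∈ T, ∑ w ∈ above N v, f i w := by
    intro ι s f
    rw [Finset.sum_congr rfl fun v _ => Finset.sum_comm, Finset.sum_comm]
  have hgoal : ∑ v ∈ T, ∑ w ∈ above N v, (prs A' w x + exs A' w x / (2 * r - 2)) =
      ∑ i, ∑ v ∈ T, ∑ w ∈ above N v, fw A' w x i +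
      (∑ i, ∑ j ∈ univ.erase i, ∑ v ∈ T, ∑ w ∈ above N v, exc A' w (x i) (x j)) / (2 * r - 2) := by
    have e1 : ∑ v ∈ T, ∑ w ∈ above N v, prs A' w x =
        ∑ i, ∑ v ∈ T, ∑ w ∈ above N v, fw A' w x i := by
      rw [← hsw]
      exact Finset.sum_congr rfl fun v _ => Finset.sum_congr rfl fun w _ => prs_eq A' w x
    have e2 : ∑ v ∈ T, ∑ w ∈ above N v, exs A' w x =
        ∑ i, ∑ j ∈ univ.erase i, ∑ v ∈ T, ∑ w ∈ above N v, exc A' w (x i) (x j) := by
      rw [Finset.sum_congr rfl fun i _ => (hsw (univ.erase i) fun j w => exc A' w (x i) (x j)).symm,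
        ← hsw]
      rfl
    rw [← e1, ← e2, Finset.sum_div, ← Finset.sum_add_distrib]
    refine Finset.sum_congr rfl fun v _ => ?_
    rw [Finset.sum_div, ← Finset.sum_add_distrib]
  rw [hgoal]
  refine hfin.trans ?_
  have hS3 : 0 ≤ ∑ v ∈ T, |C3 v| := Finset.sum_nonneg fun v _ => abs_nonneg _
  have hr0 : (0 : ℝ) ≤ r := Nat.cast_nonneg _
  have hnn : 0 ≤ F * (r * (|C2| + 2 * |C1| + ∑ v ∈ T, |C3 v|) / 2) := by positivity
  refine le_trans (sub_le_self _ hnn) (le_of_eq ?_)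
  ring

end Pool.Agent.Helper61.AD2
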