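import Pool.Agent.Helper61.AD2.CoreB
import Pool.Agent.Helper64.Vojta.OneSpace

/-!
# Block AD2-LIM: passage to the limit

Proof. From `hfail` and `hup`: `j ≤ (2r+ε) t j + j ≤ c (t j + 1) + c`, so `t j → ∞` along `U`. For `v ∈ T`, `p ∈ A`, `s ≤ r`:
`μ j v p s / t j ∈ [0, 2c]` eventually, so it has a limit `m v p s ≥ 0` along `U` (as in `AD/Lim.lean`:
`isCompact_Icc.ultrafilter_le_nhds`); put `m = 0` for the other indices. `core_basis`: `hH'` from `hH` (`c ≤ ε t j` eventually),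
`happ` from `htay` (`c ≤ exp (ε t j / 2)` and `μ j ≥ t j (m - ε/2)` eventually). Let `δ > 0` be small. Eventually
`D ≤ exp (δ t j)` and `μ j v p s ≤ t j (m v p s + δ)` for the finitely many `v, p, s`, so the basis `x` for `δ` satisfies
the hypotheses of `hlev` with `κ v = t j * (kap K δ v + 2 δ)`; coefficients at places outside `T` (finite places): `hint` and the
ultrametric inequality. Hence `a j ≤ r t j (1 + δ + 2 δ T.card) + r t j + c` (`sum_kap`), and with `hfail`: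
`(2 r + ε) t j + j ≤ 2 r t j + r δ (1 + 2 T.card) t j + 2 c`, false for `r δ (1 + 2 T.card) ≤ ε` and `j > 2 c`.
-/

namespace Pool.Agent.Helper61.AD2

open NumberField Finset Polynomial Module
open Pool.Agent.Helper64.Vojta (Pl nv sn above)
open Pool.Agent.Helper61.AD (cl tay cf)
open Pool.Agent.V2 (vn vH)

theorem limit_contra2 {K : Type*} [Field K] [NumberField K] {n r : ℕ} (hn : 0 < n)
    (b : Fin n → K[X]) (hdeg : ∀ i, (b i).natDegree ≤ r)
    (hint : ∀ (v : FinitePlace K) i s, nv (.inr v) ((b i).coeff s) ≤ 1)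
    (T : Finset (Pl K)) (hT : ∀ v : InfinitePlace K, Sum.inl v ∈ T) (A : Finset (Option K))
    (c ε : ℝ) (hc : 1 ≤ c) (hε : 0 < ε)
    (U : Ultrafilter ℕ) (hU : Filter.Tendsto (fun j : ℕ => (j : ℝ)) (U : Filter ℕ) Filter.atTop)
    (y : ℕ → Fin n → K)
    (hgen : ∀ W : Submodule K (Fin n → K), W ≠ ⊤ → ∀ᶠ j in (U : Filter ℕ), y j ∉ W)
    (t : ℕ → ℝ) (ht0 : ∀ᶠ j in (U : Filter ℕ), 0 ≤ t j)
    (hH : ∀ᶠ j in (U : Filter ℕ), vH (y j) ≤ t j + c)
    (μ : ℕ → Pl K → Option K → ℕ → ℝ) (hμ0 : ∀ᶠ j in (U : Filter ℕ), ∀ v p s, 0 ≤ μ j v p s)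
    (hμ1 : ∀ᶠ j in (U : Filter ℕ), ∀ v p s, μ j v p s ≤ c * (t j + 1))
    (htay : ∀ᶠ j in (U : Filter ℕ), ∀ v ∈ T, ∀ p ∈ A, ∀ s ≤ r,
      nv v ((tay p r (∑ i, C (y j i) * b i)).coeff s) ≤
        c * vn v (y j) * Real.exp (-(μ j v p s)))
    (a : ℕ → ℝ) (hup : ∀ᶠ j in (U : Filter ℕ), a j ≤ c * (t j + 1))
    (hlev : ∀ᶠ j in (U : Filter ℕ), ∀ (κ : Pl K → ℝ) (xb : Fin n → Fin n → K),
      LinearIndependent K xb →
      (∀ v ∈ T, ∀ p ∈ A, ∀ l, ∀ s ≤ r,
        nv v ((tay p r (∑ i, C (xb l i) * b i)).coeff s) ≤ Real.exp (κ v - μ j v p s)) →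
      (∀ v : Pl K, v ∉ T → ∀ l s, nv v ((∑ i, C (xb l i) * b i).coeff s) ≤ 1) →
      a j ≤ r * ∑ v ∈ T, κ v + r * t j + c)
    (hfail : ∀ᶠ j in (U : Filter ℕ), (2 * r + ε) * t j + j ≤ a j + c) : False := by
  classical
  -- `t → ∞`
  have htU : Filter.Tendsto t (U : Filter ℕ) Filter.atTop := by
    have h1 : Filter.Tendsto (fun j : ℕ => (j : ℝ) / c - 2) (U : Filter ℕ) Filter.atTop :=
      Filter.tendsto_atTop_add_const_right _ _ (hU.atTop_div_const (by linarith))
    refine Filter.tendsto_atTop_mono' _ ?_ h1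
    filter_upwards [ht0, hup, hfail] with j h0 h2 h3
    have h4 : 0 ≤ (2 * (r : ℝ) + ε) * t j := mul_nonneg (by positivity) h0
    have h5 : (j : ℝ) / c ≤ t j + 2 := by
      rw [div_le_iff₀ (by linarith)]
      linarith
    linarith
  have ht1 : ∀ᶠ j in (U : Filter ℕ), 1 ≤ t j := htU.eventually (Filter.eventually_ge_atTop _)
  -- limits
  have hlim : ∀ v p i, ∃ x : ℝ, 0 ≤ x ∧
      Filter.Tendsto (fun j => μ j v p i / t j) (U : Filter ℕ) (nhds x) := by
    intro v p i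
    have h1 : ∀ᶠ j in (U : Filter ℕ), μ j v p i / t j ∈ Set.Icc 0 (2 * c) := by
      filter_upwards [ht1, hμ0, hμ1] with j hn h2 h3
      refine ⟨div_nonneg (h2 v p i) (by linarith), ?_⟩
      rw [div_le_iff₀ (by linarith)]
      have h4 := h3 v p i
      nlinarith
    obtain ⟨x, hx, hx'⟩ := (isCompact_Icc (a := (0 : ℝ)) (b := 2 * c)).ultrafilter_le_nhds
      (U.map (fun j => μ j v p i / t j)) (by
        rw [Filter.le_principal_iff, Ultrafilter.coe_map, Filter.mem_map]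
        exact h1)
    exact ⟨x, hx.1, hx'⟩
  choose m hm0 hm using hlim
  obtain ⟨D, hD1, hD⟩ := core_basis hn b hdeg T hT A m (fun w _ p _ s => hm0 w p s) U t htU y hgen
    (by
      intro δ hδ
      have h3 : ∀ᶠ j in (U : Filter ℕ), c / δ ≤ t j :=
        htU.eventually (Filter.eventually_ge_atTop _)
      filter_upwards [h3, hH] with j h4 h5
      rw [div_le_iff₀ hδ] at h4
      nlinarith)
    (by
      intro w hw p hp s hs δ hδ
      have h2 : ∀ᶠ j in (U : Filter ℕ), m w p s - δ / 2 < μ j w p s / t j :=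
        (hm w p s).eventually (lt_mem_nhds (by linarith))
      have h3 : ∀ᶠ j in (U : Filter ℕ), Real.log c / (δ / 2) ≤ t j :=
        htU.eventually (Filter.eventually_ge_atTop _)
      filter_upwards [h2, h3, ht1, htay] with j h2 h3 h4 h7
      rw [lt_div_iff₀ (by linarith)] at h2
      rw [div_le_iff₀ (by linarith)] at h3
      refine (h7 w hw p hp s hs).trans ?_
      have hvn : 0 ≤ vn w (y j) :=
        (Pool.Agent.Helper64.Vojta.nv_nonneg w _).trans (Pool.Agent.V2.le_vn w _ ⟨0, hn⟩)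
      have h5 : c * Real.exp (-(μ j w p s)) ≤ Real.exp (t j * (δ - m w p s)) := by
        have h6 : c = Real.exp (Real.log c) := (Real.exp_log (by linarith)).symm
        rw [h6, ← Real.exp_add]
        apply Real.exp_le_exp.mpr
        nlinarith
      calc c * vn w (y j) * Real.exp (-(μ j w p s))
          = vn w (y j) * (c * Real.exp (-(μ j w p s))) := by ring
        _ ≤ vn w (y j) * Real.exp (t j * (δ - m w p s)) :=
            mul_le_mul_of_nonneg_left h5 hvn)
  -- the choice of `δ`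
  obtain ⟨δ, hδ0, hδ⟩ : ∃ δ : ℝ, 0 < δ ∧ (r : ℝ) * δ * (1 + 2 * T.card) ≤ ε := by
    refine ⟨ε / (((r : ℝ) + 1) * (1 + 2 * T.card)), by positivity, ?_⟩
    have h1 : (r : ℝ) * (ε / (((r : ℝ) + 1) * (1 + 2 * T.card))) * (1 + 2 * T.card) =
        ε * (r / (r + 1)) := by
      field_simp
    rw [h1]
    have h2 : (r : ℝ) / (r + 1) ≤ 1 := by
      rw [div_le_one (by positivity)]
      linarith
    nlinarith
  have e2 : ∀ᶠ j in (U : Filter ℕ), Real.log D / δ ≤ t j :=
    htU.eventually (Filter.eventually_ge_atTop _)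
  have e3 : ∀ᶠ j in (U : Filter ℕ), ∀ v ∈ T, ∀ p ∈ A, ∀ s ∈ Finset.range (r + 1),
      μ j v p s < t j * (m v p s + δ) := by
    rw [Filter.eventually_all_finset]
    intro v _
    rw [Filter.eventually_all_finset]
    intro p _
    rw [Filter.eventually_all_finset]
    intro s _
    have h2 : ∀ᶠ j in (U : Filter ℕ), μ j v p s / t j < m v p s + δ :=
      (hm v p s).eventually (gt_mem_nhds (by linarith))
    filter_upwards [h2, ht1] with j h2 h3
    rw [div_lt_iff₀ (by linarith)] at h2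
    linarith
  have e6 : ∀ᶠ j : ℕ in (U : Filter ℕ), 2 * c < (j : ℝ) := hU.eventually (Filter.eventually_gt_atTop _)
  obtain ⟨j, ⟨⟨⟨⟨⟨⟨hj1, hj2⟩, hj3⟩, hj4⟩, hj5⟩, hj6⟩, hj7⟩⟩ :=
    ((((((hD δ hδ0).and e2).and e3).and hlev).and hfail).and e6 |>.and ht1).exists
  obtain ⟨x, hx1, hx2, hx3⟩ := hj1
  have key := hj4 (fun v => t j * (kap K δ v + 2 * δ)) x hx1 (by
    intro v hv p hp l s hs
    refine (hx2 v hv p hp l s hs).trans ?_
    have h3 := hj3 v hv p hp s (Finset.mem_range.mpr (by omega))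
    rw [div_le_iff₀ hδ0] at hj2
    have h6 : D = Real.exp (Real.log D) := (Real.exp_log (by linarith)).symm
    rw [h6, ← Real.exp_add]
    apply Real.exp_le_exp.mpr
    nlinarith) (by
    intro v hv l s
    rcases v with v | v
    · exact absurd (hT v) hv
    · rw [finsetSum_coeff]
      refine Pool.Agent.Helper64.Vojta.nv_sum_le_inr v _ _ 1 zero_le_one fun i _ => ?_
      rw [coeff_C_mul, Pool.Agent.Helper64.Vojta.nv_mul]
      exact mul_le_one₀ (hx3 v hv l i) (Pool.Agent.Helper64.Vojta.nv_nonneg _ _) (hint v i s))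
  have hsum : ∑ v ∈ T, t j * (kap K δ v + 2 * δ) = t j * (1 + δ + 2 * δ * T.card) := by
    rw [← Finset.mul_sum, Finset.sum_add_distrib, sum_kap δ T hT, Finset.sum_const, nsmul_eq_mul]
    ring
  rw [hsum] at key
  have h8 : (r : ℝ) * δ * (1 + 2 * T.card) * t j ≤ ε * t j :=
    mul_le_mul_of_nonneg_right hδ (by linarith)
  have h9 : (r : ℝ) * (t j * (1 + δ + 2 * δ * T.card)) =
      r * t j + (r : ℝ) * δ * (1 + 2 * T.card) * t j := by ring
  rw [h9] at key
  linarith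

end Pool.Agent.Helper61.AD2
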