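import Pool.Agent.Helper61.AD2.Defs2
import Pool.Agent.Helper61.AD.Tower
import Pool.Agent.Helper61.AD.PerPoint

/-!
# Block AD2-TR: transfer to a larger field and a larger set of points

Proof. (a) For `w ∈ above N ν` and `w' ∈ above N' w`: `cl w' (algebraMap a) (p.map ..) = ldeg w w' * cl w a p` (definition of `cl`,
`nv_above`, `sn_above`, `log`; also for `a = b` in `cl w a (some b)`, since `log 0 = 0`), so
`prs (img N' A) w' x' = ldeg * prs A w x` and the same for `exs` (`min` and sums; `img` is an injective image). With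
`∑_{w' ∈ above N' w} ldeg w w' = finrank N N'` (`sum_ldeg`) and `sum_above_tower` (for `k ⊆ N ⊆ N'`) the double sum over `N'` is
`finrank N N'` times the one over `N`.
(b) For `A1 ⊆ A2` (points over `N'`) the difference of `prs + exs / (2r-2)` is the sum over `p ∈ A2 \ A1` of
`∑_i cl (x i) p + (1 - 1/(2r-2)) ∑_{i ≠ j} min (cl (x i) p) (cl (x j) p) ≥ - (r + r^2) log 4` (`cl_ge`). At most `a` points, and at
most `S.card * finrank k N'` places.
-/

namespace Pool.Agent.Helper61.AD2

open NumberField Finset Polynomial Module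
open Pool.Agent.Helper64.Vojta (Pl nv sn above)
open Pool.Agent.Helper61.AD (cl tay cf)

universe u

namespace TR

theorem cl_up {N N' : Type u} [Field N] [NumberField N] [Field N'] [NumberField N']
    [Algebra N N'] {w : Pl N} {w' : Pl N'} (h : w' ∈ above N' w) (a : N) (p : Option N) :
    cl w' (algebraMap N N' a) (p.map (algebraMap N N')) =
      (Helper52.Vojta.ldeg w w' : ℝ) * cl w a p := by
  have hs : ∀ b : N, Real.log (sn w' ![algebraMap N N' b, 1]) =
      (Helper52.Vojta.ldeg w w' : ℝ) * Real.log (sn w ![b, 1]) := by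
    intro b
    have h1 := Helper52.Vojta.sn_above (by norm_num : 0 < 2) h ![b, 1]
    have e : (fun i => algebraMap N N' ((![b, 1] : Fin 2 → N) i)) = ![algebraMap N N' b, 1] := by
      funext i
      fin_cases i
      · rfl
      · exact map_one _
    rw [e] at h1
    rw [h1, Real.log_pow]
  cases p with
  | none => exact hs a
  | some b =>
    change Real.log (sn w' ![algebraMap N N' a, 1]) + Real.log (sn w' ![algebraMap N N' b, 1]) -
      Real.log (nv w' (algebraMap N N' a - algebraMap N N' b)) = _ *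
      (Real.log (sn w ![a, 1]) + Real.log (sn w ![b, 1]) - Real.log (nv w (a - b)))
    rw [hs, hs, ← map_sub, Helper52.Vojta.nv_above h, Real.log_pow]
    ring

theorem sum_img {N N' : Type u} [Field N] [Field N'] [Algebra N N'] (A : Finset (Option N))
    (f : Option N' → ℝ) : ∑ p ∈ img N' A, f p = ∑ p ∈ A, f (p.map (algebraMap N N')) := by
  classical
  unfold img
  rw [Finset.sum_image]
  · intro a _ b _ hab
    exact Option.map_injective (algebraMap N N').injective hab

theorem sum_min_up {N N' : Type u} [Field N] [NumberField N] [Field N'] [NumberField N']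
    [Algebra N N'] {w : Pl N} {w' : Pl N'} (h : w' ∈ above N' w) (A : Finset (Option N)) (a b : N) :
    ∑ p ∈ img N' A, min (cl w' (algebraMap N N' a) p) (cl w' (algebraMap N N' b) p) =
      (Helper52.Vojta.ldeg w w' : ℝ) * ∑ p ∈ A, min (cl w a p) (cl w b p) := by
  rw [sum_img, Finset.mul_sum]
  refine Finset.sum_congr rfl fun p _ => ?_
  rw [cl_up h, cl_up h, mul_min_of_nonneg _ _ (Nat.cast_nonneg _)]

theorem prs_alt {N : Type u} [Field N] [NumberField N] {r : ℕ} (A : Finset (Option N)) (w : Pl N)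
    (x : Fin r → N) : prs A w x = ∑ i, ∑ j, ∑ p ∈ A, min (cl w (x i) p) (cl w (x j) p) := by
  unfold prs
  rw [Finset.sum_comm]
  refine Finset.sum_congr rfl fun i _ => ?_
  rw [Finset.sum_comm]

theorem prs_up {N N' : Type u} [Field N] [NumberField N] [Field N'] [NumberField N']
    [Algebra N N'] {w : Pl N} {w' : Pl N'} (h : w' ∈ above N' w) (A : Finset (Option N)) {r : ℕ}
    (x : Fin r → N) :
    prs (img N' A) w' (fun i => algebraMap N N' (x i)) =
      (Helper52.Vojta.ldeg w w' : ℝ) * prs A w x := by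
  rw [prs_alt, prs_alt, Finset.mul_sum]
  refine Finset.sum_congr rfl fun i _ => ?_
  rw [Finset.mul_sum]
  exact Finset.sum_congr rfl fun j _ => sum_min_up h A _ _

theorem exs_up {N N' : Type u} [Field N] [NumberField N] [Field N'] [NumberField N']
    [Algebra N N'] {w : Pl N} {w' : Pl N'} (h : w' ∈ above N' w) (A : Finset (Option N)) {r : ℕ}
    (x : Fin r → N) :
    exs (img N' A) w' (fun i => algebraMap N N' (x i)) =
      (Helper52.Vojta.ldeg w w' : ℝ) * exs A w x := by
  unfold exs
  rw [Finset.mul_sum]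
  refine Finset.sum_congr rfl fun i _ => ?_
  rw [Finset.mul_sum]
  refine Finset.sum_congr rfl fun j _ => ?_
  unfold exc
  rw [sum_min_up h A, mul_sub]
  congr 1
  exact cl_up h (x i) (some (x j))

/-- enlarging the set of points -/
theorem enlarge {N : Type u} [Field N] [NumberField N] {r a : ℕ} (hr : 2 ≤ r) (w : Pl N)
    (A A' : Finset (Option N)) (hA : A ⊆ A') (ha : A'.card ≤ a) (x : Fin r → N)
    (hx : ∀ i, ∀ p ∈ A', p ≠ some (x i)) :
    prs A w x + exs A w x / (2 * r - 2) ≤ prs A' w x + exs A' w x / (2 * r - 2) +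
      a * ((r + r * r) * Real.log 4) := by
  classical
  have hl4 : 0 ≤ Real.log 4 := Real.log_nonneg (by norm_num)
  have hr2 : (2 : ℝ) ≤ (r : ℝ) := by exact_mod_cast hr
  have hd : (2 : ℝ) ≤ 2 * (r : ℝ) - 2 := by linarith
  have hd0 : (0 : ℝ) < 2 * (r : ℝ) - 2 := by linarith
  -- one point
  have hp : ∀ p ∈ A' \ A, -((r + r * r) * Real.log 4) ≤
      ∑ i, ∑ j, min (cl w (x i) p) (cl w (x j) p) -
        (∑ i, ∑ j ∈ Finset.univ.erase i, min (cl w (x i) p) (cl w (x j) p)) / (2 * r - 2) := by
    intro p hp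
    have hpA : p ∈ A' := (Finset.mem_sdiff.mp hp).1
    have hc : ∀ i, -Real.log 4 ≤ cl w (x i) p := fun i =>
      Pool.Agent.Helper61.AD.cl_ge w (x i) p (hx i p hpA)
    have hm : ∀ i j, -Real.log 4 ≤ min (cl w (x i) p) (cl w (x j) p) := fun i j =>
      le_min (hc i) (hc j)
    set s1 := ∑ i, cl w (x i) p with hs1
    set s2 := ∑ i, ∑ j ∈ Finset.univ.erase i, min (cl w (x i) p) (cl w (x j) p) with hs2
    have e : ∑ i, ∑ j, min (cl w (x i) p) (cl w (x j) p) = s1 + s2 := by
      rw [hs1, hs2, ← Finset.sum_add_distrib]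
      refine Finset.sum_congr rfl fun i _ => ?_
      rw [← Finset.add_sum_erase Finset.univ _ (Finset.mem_univ i), min_self]
    have b1 : -(r * Real.log 4) ≤ s1 := by
      have h1 := Finset.card_nsmul_le_sum (Finset.univ : Finset (Fin r)) (fun i => cl w (x i) p)
        (-Real.log 4) (fun i _ => hc i)
      rw [Finset.card_univ, Fintype.card_fin, nsmul_eq_mul] at h1
      rw [hs1]; linarith
    have b2 : -(r * r * Real.log 4) ≤ s2 := by
      have h1 : ∀ i ∈ (Finset.univ : Finset (Fin r)), -(r * Real.log 4) ≤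
          ∑ j ∈ Finset.univ.erase i, min (cl w (x i) p) (cl w (x j) p) := by
        intro i _
        have h2 := Finset.card_nsmul_le_sum (Finset.univ.erase i)
          (fun j => min (cl w (x i) p) (cl w (x j) p)) (-Real.log 4) (fun j _ => hm i j)
        rw [nsmul_eq_mul] at h2
        have h3 : (((Finset.univ.erase i).card : ℕ) : ℝ) ≤ r := by
          have h4 := Finset.card_le_card (Finset.erase_subset i (Finset.univ : Finset (Fin r)))
          rw [Finset.card_univ, Fintype.card_fin] at h4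
          exact_mod_cast h4
        have h5 := mul_le_mul_of_nonneg_right h3 hl4
        linarith
      have h2 := Finset.card_nsmul_le_sum (Finset.univ : Finset (Fin r)) _ _ h1
      rw [Finset.card_univ, Fintype.card_fin, nsmul_eq_mul] at h2
      rw [hs2]; linarith
    rw [e]
    have h3 : s1 + s2 - s2 / (2 * r - 2) = s1 + s2 * (1 - 1 / (2 * r - 2)) := by
      ring
    rw [h3]
    have h4 : 0 ≤ 1 - 1 / (2 * (r : ℝ) - 2) := by
      rw [sub_nonneg, div_le_one hd0]; linarith
    have h5 : 1 - 1 / (2 * (r : ℝ) - 2) ≤ 1 := by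
      have : 0 ≤ 1 / (2 * (r : ℝ) - 2) := by positivity
      linarith
    have h6 : -(r * r * Real.log 4) ≤ s2 * (1 - 1 / (2 * r - 2)) := by
      have h7 := mul_le_mul_of_nonneg_right b2 h4
      have h8 : r * r * Real.log 4 * (1 - 1 / (2 * (r : ℝ) - 2)) ≤ r * r * Real.log 4 * 1 :=
        mul_le_mul_of_nonneg_left h5 (by positivity)
      linarith
    linarith
  -- the sums
  have hprs : prs A' w x = prs A w x +
      ∑ p ∈ A' \ A, ∑ i, ∑ j, min (cl w (x i) p) (cl w (x j) p) := by
    unfold prs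
    rw [add_comm, Finset.sum_sdiff hA]
  have hexs : exs A' w x = exs A w x -
      ∑ p ∈ A' \ A, ∑ i, ∑ j ∈ Finset.univ.erase i, min (cl w (x i) p) (cl w (x j) p) := by
    unfold exs
    have e1 : ∑ p ∈ A' \ A, ∑ i, ∑ j ∈ Finset.univ.erase i, min (cl w (x i) p) (cl w (x j) p) =
        ∑ i, ∑ j ∈ Finset.univ.erase i, ∑ p ∈ A' \ A, min (cl w (x i) p) (cl w (x j) p) := by
      rw [Finset.sum_comm]
      refine Finset.sum_congr rfl fun i _ => ?_
      rw [Finset.sum_comm]
    rw [e1, ← Finset.sum_sub_distrib]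
    refine Finset.sum_congr rfl fun i _ => ?_
    rw [← Finset.sum_sub_distrib]
    refine Finset.sum_congr rfl fun j _ => ?_
    unfold exc
    rw [← Finset.sum_sdiff hA]
    ring
  have hsum := Finset.card_nsmul_le_sum (A' \ A) _ _ hp
  rw [nsmul_eq_mul, Finset.sum_sub_distrib, ← Finset.sum_div] at hsum
  have hcard : (((A' \ A).card : ℕ) : ℝ) ≤ a := by
    exact_mod_cast (Finset.card_le_card Finset.sdiff_subset).trans ha
  have hK : 0 ≤ (r + r * r) * Real.log 4 := by positivity
  have h9 := mul_le_mul_of_nonneg_right hcard hK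
  rw [hprs, hexs, sub_div]
  linarith

end TR

open TR in
theorem transfer {k : Type u} [Field k] [NumberField k] (S : Finset (Pl k)) (r a : ℕ)
    (hr : 2 ≤ r) :
    ∃ C0 : ℝ, 0 ≤ C0 ∧ ∀ (N N' : Type u) [Field N] [NumberField N] [Field N'] [NumberField N']
      [Algebra k N] [Algebra k N'] [Algebra N N'] [IsScalarTower k N N']
      (A : Finset (Option N)) (A' : Finset (Option N')), img N' A ⊆ A' → A'.card ≤ a →
      ∀ x : Fin r → N, (∀ i, ∀ p ∈ A', p ≠ some (algebraMap N N' (x i))) →
      (finrank N N' : ℝ) * ∑ ν ∈ S, ∑ w ∈ above N ν, (prs A w x + exs A w x / (2 * r - 2)) ≤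
        ∑ ν ∈ S, ∑ w ∈ above N' ν, (prs A' w (fun i => algebraMap N N' (x i)) +
          exs A' w (fun i => algebraMap N N' (x i)) / (2 * r - 2)) + finrank k N' * C0 := by
  classical
  have hl4 : 0 ≤ Real.log 4 := Real.log_nonneg (by norm_num)
  refine ⟨S.card * (a * ((r + r * r) * Real.log 4)), by positivity, ?_⟩
  intro N N' _ _ _ _ _ _ _ _ A A' hA ha x hx
  set x' : Fin r → N' := fun i => algebraMap N N' (x i) with hx'
  set K0 : ℝ := a * ((r + r * r) * Real.log 4) with hK0
  have hK0n : 0 ≤ K0 := by positivity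
  -- transfer for the image
  have h1 : (finrank N N' : ℝ) * ∑ ν ∈ S, ∑ w ∈ above N ν, (prs A w x + exs A w x / (2 * r - 2)) =
      ∑ ν ∈ S, ∑ w ∈ above N' ν, (prs (img N' A) w x' + exs (img N' A) w x' / (2 * r - 2)) := by
    rw [Pool.Agent.Helper61.AD.sum_above_tower (K := N) S
      (fun w => prs (img N' A) w x' + exs (img N' A) w x' / (2 * r - 2)),
      Pool.Agent.Helper52.Vojta.sum_upW, Finset.mul_sum]
    refine Finset.sum_congr rfl fun ν _ => ?_
    rw [Finset.mul_sum]
    refine Finset.sum_congr rfl fun w _ => ?_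
    rw [← Helper52.Vojta.sum_ldeg (L' := N') w]
    push_cast
    rw [Finset.sum_mul]
    refine Finset.sum_congr rfl fun w' hw' => ?_
    rw [hx', prs_up hw', exs_up hw']
    ring
  rw [h1]
  have h2 : ∑ ν ∈ S, ∑ w ∈ above N' ν, (prs (img N' A) w x' + exs (img N' A) w x' / (2 * r - 2)) ≤
      ∑ ν ∈ S, ∑ w ∈ above N' ν, (prs A' w x' + exs A' w x' / (2 * r - 2) + K0) :=
    Finset.sum_le_sum fun ν _ => Finset.sum_le_sum fun w _ => enlarge hr w _ _ hA ha x' hx
  have h3 : ∑ ν ∈ S, ∑ w ∈ above N' ν, (prs A' w x' + exs A' w x' / (2 * r - 2) + K0) =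
      ∑ ν ∈ S, ∑ w ∈ above N' ν, (prs A' w x' + exs A' w x' / (2 * r - 2)) +
        ∑ ν ∈ S, ∑ w ∈ above N' ν, K0 := by
    rw [← Finset.sum_add_distrib]
    exact Finset.sum_congr rfl fun ν _ => Finset.sum_add_distrib
  have h4 : ∑ ν ∈ S, ∑ _w ∈ above N' ν, K0 ≤ finrank k N' * (S.card * K0) := by
    calc ∑ ν ∈ S, ∑ _w ∈ above N' ν, K0 ≤ ∑ ν ∈ S, (finrank k N' : ℝ) * K0 := by
          refine Finset.sum_le_sum fun ν _ => ?_
          rw [Finset.sum_const, nsmul_eq_mul]
          refine mul_le_mul_of_nonneg_right ?_ hK0n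
          exact_mod_cast Pool.Agent.Helper64.Vojta.card_above_le ν
      _ = finrank k N' * (S.card * K0) := by
          rw [Finset.sum_const, nsmul_eq_mul]; ring
  linarith

end Pool.Agent.Helper61.AD2
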