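import Pool.Agent.Helper61.AD2.Setup
import Pool.Agent.Helper61.AD2.Level
import Pool.Agent.Helper61.AD2.Lim2
import Pool.Agent.Helper61.AD2.Trans
import Pool.Agent.Helper61.AD2.Datum
import Pool.Agent.Helper61.AD.Roots

/-!
# The strengthened main inequality
-/

namespace Pool.Agent.Helper61.AD2

open NumberField Finset Polynomial Module
open Pool.Agent.Helper64.Vojta (Pl nv sn above)
open Pool.Agent.Helper61.AD
open Pool.Agent.Helper52.Vojta (upW ldeg)
open Pool.Agent.V2 (vn vH vH_nonneg)

universe u

/-- a finite extension over which a polynomial splits -/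
theorem exists_ext {k N : Type u} [Field k] [Field N] [NumberField N] [Algebra k N]
    (f : k[X]) (hf : f ≠ 0) :
    ∃ (N' : Type u) (_ : Field N') (_ : NumberField N') (_ : Algebra k N') (_ : Algebra N N')
      (_ : IsScalarTower k N N'), finrank N N' ≤ (f.natDegree + 1) ^ f.natDegree ∧
        (f.map (algebraMap k N')).Splits := by
  set F : N[X] := f.map (algebraMap k N) with hF
  have hF0 : F ≠ 0 := (Polynomial.map_ne_zero_iff (algebraMap k N).injective).mpr hf
  have hFd : F.natDegree ≤ f.natDegree := natDegree_map_le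
  let N' := IntermediateField.adjoin N (F.rootSet (AlgebraicClosure N))
  have hfd := finrank_adjoin_roots (Ω := AlgebraicClosure N) f.natDegree F hF0 hFd
  have hfd1 : FiniteDimensional N N' := hfd.1
  have hcz : CharZero N' := charZero_of_injective_algebraMap (algebraMap N N').injective
  have hfdQ : FiniteDimensional ℚ N' := Module.Finite.trans N N'
  have hNF : NumberField N' := { to_charZero := hcz, to_finiteDimensional := hfdQ }
  letI ialg : Algebra k N' := ((algebraMap N N').comp (algebraMap k N)).toAlgebra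
  have itow : IsScalarTower k N N' := IsScalarTower.of_algebraMap_eq' rfl
  have hspf : F.IsSplittingField N N' :=
    IntermediateField.adjoin_rootSet_isSplittingField (IsAlgClosed.splits _)
  refine ⟨N', inferInstance, hNF, ialg, inferInstance, itow, hfd.2, ?_⟩
  have h1 : f.map (algebraMap k N') = F.map (algebraMap N N') := by
    rw [hF, Polynomial.map_map]
    rfl
  rw [h1]
  exact hspf.splits'

/-- the splitting field over `k` maps to every field over which the polynomial splits -/
theorem exists_lift {k : Type u} [Field k] [NumberField k] (f : k[X]) (N : Type u) [Field N]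
    [Algebra k N] (hsp : (f.map (algebraMap k N)).Splits) :
    Nonempty (IntermediateField.adjoin k (f.rootSet (AlgebraicClosure k)) →ₐ[k] N) := by
  have hspf : f.IsSplittingField k (IntermediateField.adjoin k (f.rootSet (AlgebraicClosure k))) :=
    IntermediateField.adjoin_rootSet_isSplittingField (IsAlgClosed.splits _)
  exact ⟨Polynomial.IsSplittingField.lift _ f hsp⟩

theorem nf_adjoin {k : Type u} [Field k] [NumberField k] (f : k[X]) (hf : f ≠ 0) :
    NumberField (IntermediateField.adjoin k (f.rootSet (AlgebraicClosure k))) := by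
  have hfd : FiniteDimensional k (IntermediateField.adjoin k (f.rootSet (AlgebraicClosure k))) :=
    (finrank_adjoin_roots _ _ hf le_rfl).1
  have hcz : CharZero (IntermediateField.adjoin k (f.rootSet (AlgebraicClosure k))) :=
    charZero_of_injective_algebraMap (algebraMap k _).injective
  have hfdQ : FiniteDimensional ℚ (IntermediateField.adjoin k (f.rootSet (AlgebraicClosure k))) :=
    Module.Finite.trans k _
  exact { to_charZero := hcz, to_finiteDimensional := hfdQ }

/-- the points of `f = 0` over a larger field are the images -/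
theorem img_pts {k K N : Type u} [Field k] [Field K] [Field N] [Algebra k K] [Algebra k N]
    [Algebra K N] [IsScalarTower k K N] (f : k[X]) (hsp : (f.map (algebraMap k K)).Splits) (q : ℕ) :
    img N (pts f q K) = pts f q N := by
  classical
  rw [pts_tower (K := K) (N := N) f hsp q]
  unfold img
  congr

theorem pts_mono {k N : Type u} [Field k] [Field N] [Algebra k N] (g g' : k[X]) (hg' : g' ≠ 0)
    (h : g ∣ g') (q : ℕ) : pts g q N ⊆ pts g' (g'.natDegree + 1) N := by
  classical
  intro p hp
  unfold pts at hp ⊢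
  rw [if_pos (Nat.lt_succ_self _)]
  rw [Finset.mem_union] at hp ⊢
  rcases hp with hp | hp
  · left
    rw [Finset.mem_image] at hp ⊢
    obtain ⟨a, ha, rfl⟩ := hp
    refine ⟨a, ?_, rfl⟩
    rw [Multiset.mem_toFinset] at ha ⊢
    rw [mem_aroots] at ha ⊢
    refine ⟨hg', ?_⟩
    obtain ⟨s, hs⟩ := h
    rw [hs, map_mul, ha.2, zero_mul]
  · right
    split_ifs at hp with h1
    · exact hp
    · simp at hp

theorem none_mem_pts {k N : Type u} [Field k] [Field N] [Algebra k N] (f : k[X]) :
    (none : Option N) ∈ pts f (f.natDegree + 1) N := by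
  classical
  unfold pts
  rw [if_pos (Nat.lt_succ_self _)]
  exact Finset.mem_union_right _ (Finset.mem_singleton_self _)

theorem some_mem_pts {k N : Type u} [Field k] [Field N] [Algebra k N] (f : k[X]) (hf : f ≠ 0)
    (q : ℕ) (a : N) (ha : aeval a f = 0) : some a ∈ pts f q N := by
  classical
  unfold pts
  refine Finset.mem_union_left _ (Finset.mem_image_of_mem _ ?_)
  rw [Multiset.mem_toFinset, mem_aroots]
  exact ⟨hf, ha⟩

theorem card_pts_le {k N : Type u} [Field k] [Field N] [Algebra k N] (f : k[X]) (q : ℕ) :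
    (pts f q N).card ≤ f.natDegree + 1 := by
  classical
  unfold pts
  refine (Finset.card_union_le _ _).trans ?_
  refine Nat.add_le_add ((Finset.card_image_le).trans ?_) ?_
  · refine (Multiset.toFinset_card_le _).trans ?_
    exact (card_roots' _).trans natDegree_map_le
  · split_ifs <;> simp

/-- a root of `P` is not a root of `f` if the irreducible `P` does not divide `f` -/
theorem not_mem_pts {k N : Type u} [Field k] [Field N] [Algebra k N] {r : ℕ} (f : k[X])
    {P : k[X]} (hirr : Irreducible P) (hmon : P.Monic) (hnd : ¬ P ∣ f) (x : Fin r → N)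
    (hx : P.map (algebraMap k N) = ∏ i, (X - C (x i))) (q : ℕ) :
    ∀ i, ∀ p ∈ pts f q N, p ≠ some (x i) := by
  classical
  intro i p hp hpx
  subst hpx
  unfold pts at hp
  rw [Finset.mem_union] at hp
  rcases hp with hp | hp
  · rw [Finset.mem_image] at hp
    obtain ⟨a, ha, hai⟩ := hp
    rw [Option.some.injEq] at hai
    subst hai
    rw [Multiset.mem_toFinset, mem_aroots] at ha
    have h1 : aeval (x i) P = 0 := by
      rw [← eval_map_algebraMap, hx, eval_prod]
      exact Finset.prod_eq_zero (Finset.mem_univ i) (by simp)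
    apply hnd
    have h2 : P = minpoly k (x i) := minpoly.eq_of_irreducible_of_monic hirr h1 hmon
    rw [h2]
    exact minpoly.dvd k _ ha.2
  · split_ifs at hp with h1
    · simp at hp
    · simp at hp

/-- the roots of an irreducible polynomial are different -/
theorem inj_roots {k N : Type u} [Field k] [CharZero k] [Field N] [Algebra k N] {r : ℕ}
    {P : k[X]} (hirr : Irreducible P) (x : Fin r → N)
    (hx : P.map (algebraMap k N) = ∏ i, (X - C (x i))) : Function.Injective x := by
  have hsep : (P.map (algebraMap k N)).Separable := hirr.separable.map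
  rw [hx] at hsep
  intro i j hij
  by_contra hne
  have h1 := Polynomial.separable_prod_X_sub_C_iff.mp hsep
  exact hne (h1 hij)

/-- crude upper bound over `k` -/
theorem upper_k {k : Type u} [Field k] [NumberField k] (g : k[X]) (hg : g ≠ 0) (q : ℕ)
    (S : Finset (Pl k)) (r : ℕ) (hr : 2 ≤ r) (D : ℕ) :
    ∃ c : ℝ, 0 ≤ c ∧ ∀ (N : Type u) [Field N] [NumberField N] [Algebra k N], finrank k N ≤ D →
      (g.map (algebraMap k N)).Splits → ∀ P : k[X], P.Monic → Irreducible P → P.natDegree = r →
      ¬ P ∣ g → ∀ x : Fin r → N, P.map (algebraMap k N) = ∏ i, (X - C (x i)) →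
      ∑ ν ∈ S, ∑ w ∈ above N ν, (prs (pts g q N) w x + exs (pts g q N) w x / (2 * r - 2)) ≤
        c * (vH (cf r P) + 1) := by
  classical
  let K := IntermediateField.adjoin k (g.rootSet (AlgebraicClosure k))
  have hNF : NumberField K := nf_adjoin g hg
  have hspf : g.IsSplittingField k K :=
    IntermediateField.adjoin_rootSet_isSplittingField (IsAlgClosed.splits _)
  have hspK : (g.map (algebraMap k K)).Splits := hspf.splits'
  obtain ⟨c, hc0, hc⟩ := upper_bound.{u} (K := K) r hr (upW K S) (pts g q K) D
  have hKpos : (1 : ℝ) ≤ finrank k K := by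
    have : 0 < finrank k K := finrank_pos
    exact_mod_cast this
  refine ⟨c * finrank k K, mul_nonneg hc0 (by linarith), fun N _ _ _ hD hspN P hmon hirr hdeg hnd x hx => ?_⟩
  obtain ⟨φ⟩ := exists_lift g N hspN
  letI : Algebra K N := φ.toRingHom.toAlgebra
  have htower : IsScalarTower k K N := IsScalarTower.of_algebraMap_eq' φ.comp_algebraMap.symm
  have hfdk : FiniteDimensional k N := FiniteDimensional.right ℚ k N
  have hfdK : FiniteDimensional K N := FiniteDimensional.right k K N
  have hfin : finrank k K * finrank K N = finrank k N := finrank_mul_finrank k K N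
  have hDK : finrank K N ≤ D := by
    refine le_trans ?_ hD
    rw [← hfin]
    exact Nat.le_mul_of_pos_left _ finrank_pos
  have himg : img N (pts g q K) = pts g q N := img_pts g hspK q
  have hPK : (P.map (algebraMap k K)).map (algebraMap K N) = ∏ i, (X - C (x i)) := by
    rw [Polynomial.map_map, ← IsScalarTower.algebraMap_eq, hx]
  have h1 := hc N hDK (P.map (algebraMap k K)) (hmon.map _) (by rw [hmon.natDegree_map, hdeg]) x
    (inj_roots hirr x hx) hPK (by
      intro i p hp
      refine not_mem_pts g hirr hmon hnd x hx q i _ ?_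
      rw [← himg]
      unfold img
      exact Finset.mem_image_of_mem _ hp)
  rw [himg, vH_cf_map hmon hdeg] at h1
  rw [sum_above_tower (K := K)]
  refine h1.trans ?_
  have h2 : 0 ≤ vH (cf r P) := vH_nonneg (AD.cf_ne_zero hmon hdeg)
  nlinarith [mul_nonneg hc0 h2, mul_nonneg hc0 (sub_nonneg.mpr hKpos)]

theorem main_ineq2 {k : Type u} [Field k] [NumberField k] (g : k[X]) (hg : g ≠ 0) (q : ℕ)
    (S : Finset (Pl k)) (hS : ∀ v : InfinitePlace k, Sum.inl v ∈ S) (r : ℕ) (hr : 2 ≤ r) (D : ℕ)
    (ε : ℝ) (hε : 0 < ε) :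
    ∃ c : ℝ, ∀ (N : Type u) [Field N] [NumberField N] [Algebra k N], finrank k N ≤ D →
      (g.map (algebraMap k N)).Splits → ∀ P : k[X], P.Monic → Irreducible P → P.natDegree = r →
      ¬ P ∣ g → ∀ x : Fin r → N, P.map (algebraMap k N) = ∏ i, (X - C (x i)) →
      ∑ ν ∈ S, ∑ w ∈ above N ν, (prs (pts g q N) w x + exs (pts g q N) w x / (2 * r - 2)) ≤
        finrank k N * ((2 * r + ε) * vH (cf r P) + c) := by
  classical
  by_contra hcon
  push Not at hcon
  -- a sequence of counterexamples
  have key : ∀ n : ℕ, ∃ P : k[X], P.Monic ∧ Irreducible P ∧ P.natDegree = r ∧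
      ∃ (N : Type u) (_ : Field N) (_ : NumberField N) (_ : Algebra k N), finrank k N ≤ D ∧
        (g.map (algebraMap k N)).Splits ∧ ¬ P ∣ g ∧ ∃ x : Fin r → N,
        P.map (algebraMap k N) = ∏ i, (X - C (x i)) ∧
        finrank k N * ((2 * r + ε) * vH (cf r P) + n) <
          ∑ ν ∈ S, ∑ w ∈ above N ν, (prs (pts g q N) w x + exs (pts g q N) w x / (2 * r - 2)) := by
    intro n
    obtain ⟨N, i1, i2, i3, hD, hsp, P, hmon, hirr, hdeg, hnd, x, hx, hlt⟩ := hcon n
    exact ⟨P, hmon, hirr, hdeg, N, i1, i2, i3, hD, hsp, hnd, x, hx, hlt⟩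
  choose P hmon hirr hdeg hfail using key
  have ht00 : ∀ j, 0 ≤ vH (cf r (P j)) := fun j => vH_nonneg (AD.cf_ne_zero (hmon j) (hdeg j))
  let U : Ultrafilter ℕ := Filter.hyperfilter ℕ
  have hU : Filter.Tendsto (fun j : ℕ => (j : ℝ)) (U : Filter ℕ) Filter.atTop :=
    tendsto_natCast_atTop_atTop.mono_left Nat.hyperfilter_le_atTop
  -- the heights tend to infinity
  obtain ⟨cu, hcu0, hcu⟩ := upper_k.{u} g hg q S r hr D
  have hpos : ∀ (N : Type u) [Field N] [NumberField N] [Algebra k N], (1 : ℝ) ≤ finrank k N := by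
    intro N _ _ _
    have h1 : FiniteDimensional k N := FiniteDimensional.right ℚ k N
    have h2 : 0 < finrank k N := finrank_pos
    exact_mod_cast h2
  have hV : Filter.Tendsto (fun j => vH (cf r (P j))) (U : Filter ℕ) Filter.atTop := by
    have h1 : ∀ j : ℕ, ((j : ℝ) - cu) / (cu + 1) ≤ vH (cf r (P j)) := by
      intro j
      obtain ⟨N, i1, i2, i3, hD, hsp, hnd, x, hx, hlt⟩ := hfail j
      have h2 := hlt.trans_le (hcu N hD hsp (P j) (hmon j) (hirr j) (hdeg j) hnd x hx)
      have h3 := hpos N
      have h4 := ht00 j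
      have h5 : (0 : ℝ) ≤ (2 * r + ε) * vH (cf r (P j)) + j := by positivity
      have h6 : (2 * r + ε) * vH (cf r (P j)) + j ≤
          finrank k N * ((2 * r + ε) * vH (cf r (P j)) + j) := le_mul_of_one_le_left h5 h3
      have h7 : 0 ≤ (2 * r + ε) * vH (cf r (P j)) := by positivity
      rw [div_le_iff₀ (by linarith)]
      nlinarith
    refine Filter.tendsto_atTop_mono h1 ?_
    refine Filter.Tendsto.atTop_div_const (by linarith) ?_
    exact Filter.tendsto_atTop_add_const_right _ _ hU
  obtain ⟨n, b0, z, hn2, hlin, hdegb, hPz, hset⟩ := setup (by omega) U P hmon hirr hdeg hV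
  let i0 : Fin n := ⟨0, by omega⟩
  let i1 : Fin n := ⟨1, by omega⟩
  have hi01 : i0 ≠ i1 := by
    intro h
    have := congrArg Fin.val h
    simp [i0, i1] at this
  have hW0 : wr (b0 i0) (b0 i1) ≠ 0 := by
    refine wr_ne_zero _ _ ?_
    have h1 : (![b0 i0, b0 i1] : Fin 2 → k[X]) = b0 ∘ ![i0, i1] := by
      funext i
      fin_cases i <;> rfl
    rw [h1]
    refine hlin.comp _ ?_
    intro a b hab
    fin_cases a <;> fin_cases b
    · rfl
    · exact absurd hab hi01
    · exact absurd hab hi01.symm
    · rfl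
  let W0 : k[X] := wr (b0 i0) (b0 i1)
  let g' : k[X] := g * W0 * X
  have hg' : g' ≠ 0 := mul_ne_zero (mul_ne_zero hg hW0) X_ne_zero
  have hgg' : g ∣ g' := Dvd.intro _ (by rw [← mul_assoc])
  have hWg' : W0 ∣ g' := ⟨g * X, by ring⟩
  let K := IntermediateField.adjoin k (g'.rootSet (AlgebraicClosure k))
  have hNF : NumberField K := nf_adjoin g' hg'
  have hspf : g'.IsSplittingField k K :=
    IntermediateField.adjoin_rootSet_isSplittingField (IsAlgClosed.splits _)
  have hspK : (g'.map (algebraMap k K)).Splits := hspf.splits'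
  let A : Finset (Option K) := pts g' (g'.natDegree + 1) K
  let T : Finset (Pl K) := upW K S
  have hT : ∀ v : InfinitePlace K, Sum.inl v ∈ T := inl_mem_upW S hS
  obtain ⟨hNB, hint, hgen, ⟨cH, hcH⟩, hvn⟩ := hset K
  let b : Fin n → K[X] := fun i => (b0 i).map (algebraMap k K)
  have hwrK : wr (b i0) (b i1) = W0.map (algebraMap k K) := by
    simp only [wr, b, W0, derivative_map, Polynomial.map_sub, Polynomial.map_mul]
  have hWK0 : wr (b i0) (b i1) ≠ 0 := by
    rw [hwrK]
    exact (Polynomial.map_ne_zero_iff (algebraMap k K).injective).mpr hW0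
  have hWs : (wr (b i0) (b i1)).Splits := by
    rw [hwrK]
    exact hspK.of_dvd ((Polynomial.map_ne_zero_iff (algebraMap k K).injective).mpr hg')
      (Polynomial.map_dvd _ hWg')
  have hnone : (none : Option K) ∈ A := none_mem_pts g'
  have hWr : ∀ a : K, (wr (b i0) (b i1)).IsRoot a → some a ∈ A := by
    intro a ha
    refine some_mem_pts g' hg' _ a ?_
    obtain ⟨s, hs⟩ := hWg'
    have h1 : aeval a W0 = 0 := by
      rw [← eval_map_algebraMap, ← hwrK]
      exact ha
    rw [hs, map_mul, h1, zero_mul]
  let D' : ℕ := D * (g'.natDegree + 1) ^ g'.natDegree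
  obtain ⟨cl0, hcl⟩ := level_ineq.{u} (K := K) hr b hNB i0 i1 hWK0 hWs A hnone hWr T hT D'
  obtain ⟨cd, hcd1, hcd⟩ := datum.{u} (K := K) r T A D'
  obtain ⟨cb, hcb0, hcb⟩ := upper_bound.{u} (K := K) r hr T A D'
  obtain ⟨ct, hct0, hct⟩ := transfer.{u} (k := k) S r (g'.natDegree + 1) hr
  choose cv hcv using hvn
  -- eventually `P j` does not divide `g'`
  have hnd' : ∀ᶠ j in (U : Filter ℕ), ¬ P j ∣ g' := by
    have hfin : {Q : k[X] | Q ∣ g' ∧ Q.Monic ∧ Irreducible Q}.Finite := by
      refine ((UniqueFactorizationMonoid.normalizedFactors g').toFinset.finite_toSet).subset ?_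
      rintro Q ⟨h1, h2, h3⟩
      rw [Finset.mem_coe, Multiset.mem_toFinset]
      exact (UniqueFactorizationMonoid.mem_normalizedFactors_iff' hg').mpr
        ⟨h3, h2.normalize_eq_self, h1⟩
    obtain ⟨B, hB⟩ := (hfin.image (fun Q => vH (cf r Q))).bddAbove
    filter_upwards [hV.eventually (Filter.eventually_gt_atTop B)] with j hj hdvd
    exact absurd (hB (Set.mem_image_of_mem _ ⟨hdvd, hmon j, hirr j⟩)) (not_le.mpr hj)
  have hKpos : (1 : ℝ) ≤ finrank k K := by
    have : 0 < finrank k K := finrank_pos
    exact_mod_cast this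
  let t : ℕ → ℝ := fun j => vH (cf r ((P j).map (algebraMap k K)))
  have ht : ∀ j, t j = finrank k K * vH (cf r (P j)) := fun j => vH_cf_map (hmon j) (hdeg j)
  have ht0 : ∀ j, 0 ≤ t j := fun j => by
    rw [ht j]
    exact mul_nonneg (by linarith) (ht00 j)
  let y : ℕ → Fin n → K := fun j i => algebraMap k K (z j i)
  have hPK : ∀ᶠ j in (U : Filter ℕ), (P j).map (algebraMap k K) = ∑ i, C (y j i) * b i := by
    filter_upwards [hPz] with j hj
    conv_lhs => rw [hj]
    rw [Polynomial.map_sum]
    refine Finset.sum_congr rfl fun i _ => ?_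
    rw [Polynomial.map_mul, Polynomial.map_C]
  -- the data at `j`
  have hdata : ∀ᶠ j in (U : Filter ℕ), ∃ aμ : ℝ × (Pl K → Option K → ℕ → ℝ),
      (∀ v p s, 0 ≤ aμ.2 v p s) ∧ (∀ v p s, aμ.2 v p s ≤ cd * (t j + 1)) ∧
      (∀ v ∈ T, ∀ p ∈ A, ∀ s ≤ r, nv v ((tay p r ((P j).map (algebraMap k K))).coeff s) ≤
        cd * vn v (cf r ((P j).map (algebraMap k K))) * Real.exp (-(aμ.2 v p s))) ∧
      aμ.1 ≤ cb * (t j + 1) ∧
      (∀ (κ : Pl K → ℝ) (xb : Fin n → Fin n → K), LinearIndependent K xb →
        (∀ v ∈ T, ∀ p ∈ A, ∀ l, ∀ s ≤ r,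
          nv v ((tay p r (∑ i, C (xb l i) * b i)).coeff s) ≤ Real.exp (κ v - aμ.2 v p s)) →
        (∀ v : Pl K, v ∉ T → ∀ l s, nv v ((∑ i, C (xb l i) * b i).coeff s) ≤ 1) →
        aμ.1 ≤ r * ∑ v ∈ T, κ v + r * t j + cl0) ∧
      (2 * r + ε) * t j + j ≤ aμ.1 + finrank k K * ct := by
    filter_upwards [hnd'] with j hndj
    obtain ⟨N, iF, iN, iA, hD, hsp, hnd, x, hx, hlt⟩ := hfail j
    obtain ⟨N', jF, jN, jA, jB, jT, hdegN, hspN'⟩ := exists_ext (k := k) (N := N) g' hg'
    obtain ⟨φ⟩ := exists_lift g' N' hspN'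
    letI : Algebra K N' := φ.toRingHom.toAlgebra
    have htower : IsScalarTower k K N' := IsScalarTower.of_algebraMap_eq' φ.comp_algebraMap.symm
    have hfdk : FiniteDimensional k N' := FiniteDimensional.right ℚ k N'
    have hfdkN : FiniteDimensional k N := FiniteDimensional.right ℚ k N
    have hfdK : FiniteDimensional K N' := FiniteDimensional.right k K N'
    have hfdN : FiniteDimensional N N' := FiniteDimensional.right k N N'
    have hfin : finrank k K * finrank K N' = finrank k N' := finrank_mul_finrank k K N'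
    have hfin2 : finrank k N * finrank N N' = finrank k N' := finrank_mul_finrank k N N'
    have hDk : finrank k N' ≤ D' := by
      rw [← hfin2]
      exact Nat.mul_le_mul hD hdegN
    have hDK : finrank K N' ≤ D' := by
      refine le_trans ?_ hDk
      rw [← hfin]
      exact Nat.le_mul_of_pos_left _ finrank_pos
    let x' : Fin r → N' := fun i => algebraMap N N' (x i)
    have hx' : (P j).map (algebraMap k N') = ∏ i, (X - C (x' i)) := by
      rw [IsScalarTower.algebraMap_eq k N N', ← Polynomial.map_map, hx, Polynomial.map_prod]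
      refine Finset.prod_congr rfl fun i _ => ?_
      simp [x']
    have hPKN : ((P j).map (algebraMap k K)).map (algebraMap K N') = ∏ i, (X - C (x' i)) := by
      rw [Polynomial.map_map, ← IsScalarTower.algebraMap_eq, hx']
    have himg : img N' A = pts g' (g'.natDegree + 1) N' := img_pts g' hspK _
    have hnm : ∀ i, ∀ p ∈ pts g' (g'.natDegree + 1) N', p ≠ some (x' i) :=
      not_mem_pts g' (hirr j) (hmon j) hndj x' hx' _
    have hnmK : ∀ i, ∀ p ∈ A, p.map (algebraMap K N') ≠ some (x' i) := by
      intro i p hp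
      refine hnm i _ ?_
      rw [← himg]
      unfold img
      exact Finset.mem_image_of_mem _ hp
    have hinj' : Function.Injective x' := inj_roots (hirr j) x' hx'
    have hmonK : ((P j).map (algebraMap k K)).Monic := (hmon j).map _
    have hdegK : ((P j).map (algebraMap k K)).natDegree = r := by
      rw [(hmon j).natDegree_map, hdeg j]
    obtain ⟨μ, hμ0, hμ1, hμ2, hμ3⟩ := hcd N' hDK _ hmonK hdegK x' hPKN hnmK
    have hub := hcb N' hDK _ hmonK hdegK x' hinj' hPKN hnmK
    have hlev := hcl N' hDK _ hmonK hdegK x' hinj' hPKN hnmK μ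
    have htr := hct N N' (pts g q N) (pts g' (g'.natDegree + 1) N') (by
      rw [img_pts g hsp q]
      exact pts_mono g g' hg' hgg' q) (card_pts_le g' _) x (by
      intro i p hp
      exact hnm i p hp)
    set Sg : ℝ := ∑ v ∈ T, ∑ w ∈ above N' v,
      (prs (img N' A) w x' + exs (img N' A) w x' / (2 * r - 2)) with hSg
    have hSk : ∑ ν ∈ S, ∑ w ∈ above N' ν, (prs (pts g' (g'.natDegree + 1) N') w x' +
        exs (pts g' (g'.natDegree + 1) N') w x' / (2 * r - 2)) = Sg := by
      rw [hSg, himg, sum_above_tower (K := K)]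
    rw [hSk] at htr
    have hNpos : (0 : ℝ) < finrank K N' := by exact_mod_cast finrank_pos
    have hN1 : (1 : ℝ) ≤ finrank K N' := by
      have : 0 < finrank K N' := finrank_pos
      exact_mod_cast this
    refine ⟨(Sg / finrank K N', μ), hμ0, hμ1, hμ2, ?_, ?_, ?_⟩
    · change Sg / finrank K N' ≤ cb * (t j + 1)
      rw [div_le_iff₀ hNpos]
      have h1 : 0 ≤ cb * (t j + 1) := mul_nonneg hcb0 (by linarith [ht0 j])
      exact hub.trans (le_mul_of_one_le_right h1 hN1)
    · intro κ xb hxb h1 h2
      change Sg / finrank K N' ≤ _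
      rw [div_le_iff₀ hNpos]
      refine (hlev κ hμ3 xb hxb h1 h2).trans (le_of_eq ?_)
      ring
    · change _ ≤ Sg / finrank K N' + _
      have h1 : (finrank k K : ℝ) * finrank K N' = finrank k N' := by exact_mod_cast hfin
      have h2 : (finrank k N : ℝ) * finrank N N' = finrank k N' := by exact_mod_cast hfin2
      have h3 : (0 : ℝ) < finrank N N' := by exact_mod_cast finrank_pos
      have h4 : (finrank N N' : ℝ) * (finrank k N * ((2 * r + ε) * vH (cf r (P j)) + j)) ≤
          Sg + finrank k N' * ct := (mul_le_mul_of_nonneg_left hlt.le h3.le).trans htr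
      have h5 : (finrank N N' : ℝ) * (finrank k N * ((2 * r + ε) * vH (cf r (P j)) + j)) =
          finrank K N' * (finrank k K * ((2 * r + ε) * vH (cf r (P j)) + j)) := by
        rw [← mul_assoc, mul_comm (finrank N N' : ℝ), h2, ← h1]
        ring
      rw [h5, ← h1] at h4
      have h6 : (finrank k K : ℝ) * ((2 * r + ε) * vH (cf r (P j)) + j) ≤
          Sg / finrank K N' + finrank k K * ct := by
        have h7 : (finrank K N' : ℝ) * (finrank k K * ((2 * r + ε) * vH (cf r (P j)) + j)) ≤
            finrank K N' * (Sg / finrank K N' + finrank k K * ct) := by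
          refine h4.trans (le_of_eq ?_)
          field_simp
        exact le_of_mul_le_mul_left h7 hNpos
      have h8 : (j : ℝ) ≤ finrank k K * j := le_mul_of_one_le_left (Nat.cast_nonneg _) hKpos
      rw [ht j]
      nlinarith
  obtain ⟨f, hf⟩ := hdata.choice
  -- the constant
  let c : ℝ := 1 + |cd| + |cb| + |cl0| + |finrank k K * ct| + |cH| +
    |cd| * ∑ v ∈ T, |cv v|
  have hsumcv : 0 ≤ |cd| * ∑ v ∈ T, |cv v| :=
    mul_nonneg (abs_nonneg _) (Finset.sum_nonneg fun _ _ => abs_nonneg _)
  have hc1 : 1 ≤ c := by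
    have := abs_nonneg cd
    have := abs_nonneg cb
    have := abs_nonneg cl0
    have := abs_nonneg (finrank k K * ct)
    have := abs_nonneg cH
    simp only [c]
    linarith
  have hcd' : cd ≤ c := by
    have := le_abs_self cd
    have := abs_nonneg cb
    have := abs_nonneg cl0
    have := abs_nonneg (finrank k K * ct)
    have := abs_nonneg cH
    simp only [c]
    linarith
  have hcb' : cb ≤ c := by
    have := abs_nonneg cd
    have := le_abs_self cb
    have := abs_nonneg cl0
    have := abs_nonneg (finrank k K * ct)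
    have := abs_nonneg cH
    simp only [c]
    linarith
  have hcl' : cl0 ≤ c := by
    have := abs_nonneg cd
    have := abs_nonneg cb
    have := le_abs_self cl0
    have := abs_nonneg (finrank k K * ct)
    have := abs_nonneg cH
    simp only [c]
    linarith
  have hct' : finrank k K * ct ≤ c := by
    have := abs_nonneg cd
    have := abs_nonneg cb
    have := abs_nonneg cl0
    have := le_abs_self (finrank k K * ct)
    have := abs_nonneg cH
    simp only [c]
    linarith
  have hcH' : cH ≤ c := by
    have := abs_nonneg cd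
    have := abs_nonneg cb
    have := abs_nonneg cl0
    have := abs_nonneg (finrank k K * ct)
    have := le_abs_self cH
    simp only [c]
    linarith
  have hcv' : ∀ v ∈ T, cd * |cv v| ≤ c := by
    intro v hv
    have h1 : |cv v| ≤ ∑ v ∈ T, |cv v| :=
      Finset.single_le_sum (f := fun v => |cv v|) (fun _ _ => abs_nonneg _) hv
    have h2 : cd * |cv v| ≤ |cd| * ∑ v ∈ T, |cv v| :=
      mul_le_mul (le_abs_self cd) h1 (abs_nonneg _) (abs_nonneg _)
    have := abs_nonneg cd
    have := abs_nonneg cb
    have := abs_nonneg cl0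
    have := abs_nonneg (finrank k K * ct)
    have := abs_nonneg cH
    simp only [c]
    linarith
  refine limit_contra2 (by omega) b (fun i => hNB.deg i) hint T hT A c ε hc1 hε U hU y hgen t
    (Filter.Eventually.of_forall ht0) ?_ (fun j => (f j).2) ?_ ?_ ?_ (fun j => (f j).1) ?_ ?_ ?_
  · filter_upwards [hcH] with j hj
    exact hj.trans (by linarith)
  · filter_upwards [hf] with j hj using hj.1
  · filter_upwards [hf] with j hj
    intro v p s
    exact (hj.2.1 v p s).trans (mul_le_mul_of_nonneg_right hcd' (by linarith [ht0 j]))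
  · have hall : ∀ᶠ j in (U : Filter ℕ), ∀ v ∈ T, vn v (cf r ((P j).map (algebraMap k K))) ≤
        cv v * vn v (y j) := by
      rw [Filter.eventually_all_finset]
      intro v _
      exact hcv v
    filter_upwards [hf, hPK, hall] with j hj hPj hv
    intro v hvT p hp s hs
    rw [← hPj]
    refine (hj.2.2.1 v hvT p hp s hs).trans ?_
    refine mul_le_mul_of_nonneg_right ?_ (Real.exp_pos _).le
    have hvy : 0 ≤ vn v (y j) := by
      have : Nonempty (Fin n) := ⟨i0⟩
      exact (Pool.Agent.Helper64.Vojta.nv_nonneg v _).trans (Pool.Agent.V2.le_vn v (y j) i0)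
    calc cd * vn v (cf r ((P j).map (algebraMap k K))) ≤ cd * (cv v * vn v (y j)) :=
          mul_le_mul_of_nonneg_left (hv v hvT) (by linarith)
      _ ≤ cd * (|cv v| * vn v (y j)) := by
          refine mul_le_mul_of_nonneg_left ?_ (by linarith)
          exact mul_le_mul_of_nonneg_right (le_abs_self _) hvy
      _ = (cd * |cv v|) * vn v (y j) := by ring
      _ ≤ c * vn v (y j) := mul_le_mul_of_nonneg_right (hcv' v hvT) hvy
  · filter_upwards [hf] with j hj
    exact hj.2.2.2.1.trans (mul_le_mul_of_nonneg_right hcb' (by linarith [ht0 j]))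
  · filter_upwards [hf] with j hj
    intro κ xb h1 h2 h3
    exact (hj.2.2.2.2.1 κ xb h1 h2 h3).trans (by linarith)
  · filter_upwards [hf] with j hj
    exact hj.2.2.2.2.2.trans (by linarith)

end Pool.Agent.Helper61.AD2
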