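import Pool.Agent.Helper61.AD.Gen
import Pool.Agent.Helper61.AD.Main

/-!
# The smallest subspace containing almost all forms

The first part of the proof of `core_irred` in `AD/Gen.lean`, for all extension fields at once.
-/

namespace Pool.Agent.Helper61.AD2

open NumberField Finset Polynomial Module
open Pool.Agent.Helper64.Vojta (Pl nv sn nv_nonneg nv_sum_le nv_mul)
open Pool.Agent.Helper61.AD Pool.Agent.Helper61.AD.Gen
open Pool.Agent.V2

universe u

theorem setup {k : Type u} [Field k] [NumberField k] {r : ℕ} (hr : 0 < r) (U : Ultrafilter ℕ)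
    (P : ℕ → k[X]) (hmon : ∀ j, (P j).Monic) (hirr : ∀ j, Irreducible (P j))
    (hdeg : ∀ j, (P j).natDegree = r)
    (hV : Filter.Tendsto (fun j => vH (cf r (P j))) (U : Filter ℕ) Filter.atTop) :
    ∃ (n : ℕ) (b0 : Fin n → k[X]) (z : ℕ → Fin n → k), 2 ≤ n ∧ LinearIndependent k b0 ∧
      (∀ i, (b0 i).natDegree ≤ r) ∧ (∀ᶠ j in (U : Filter ℕ), P j = ∑ i, C (z j i) * b0 i) ∧
      ∀ (K : Type u) [Field K] [NumberField K] [Algebra k K],
        NoBase r (fun i => (b0 i).map (algebraMap k K)) ∧
        (∀ (v : FinitePlace K) i s, nv (.inr v) (((b0 i).map (algebraMap k K)).coeff s) ≤ 1) ∧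
        (∀ W' : Submodule K (Fin n → K), W' ≠ ⊤ → ∀ᶠ j in (U : Filter ℕ),
          (fun i => algebraMap k K (z j i)) ∉ W') ∧
        (∃ c : ℝ, ∀ᶠ j in (U : Filter ℕ), vH (fun i => algebraMap k K (z j i)) ≤
          vH (cf r ((P j).map (algebraMap k K))) + c) ∧
        (∀ v : Pl K, ∃ c : ℝ, ∀ᶠ j in (U : Filter ℕ), vn v (cf r ((P j).map (algebraMap k K))) ≤
          c * vn v (fun i => algebraMap k K (z j i))) := by
  classical
  obtain ⟨W, hW, hmin⟩ := exists_min (k := k) U (fun j => cf r (P j))
  obtain ⟨n, B, hB⟩ := exists_basis W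
  obtain ⟨q, hq⟩ := W.subtype.exists_leftInverse_of_injective W.ker_subtype
  let g : (Fin (r + 1) → k) →ₗ[k] (Fin n → k) := B.equivFun.toLinearMap ∘ₗ q
  have hg : ∀ v ∈ W, v = ∑ i, g v i • (B i : Fin (r + 1) → k) := by
    intro v hv
    have h1 : q v = ⟨v, hv⟩ := by
      have := LinearMap.congr_fun hq ⟨v, hv⟩
      simpa using this
    have h2 : (∑ i, g v i • B i : W) = ⟨v, hv⟩ := by
      have h3 : ∀ i, g v i = B.equivFun ⟨v, hv⟩ i := by
        intro i
        simp [g, h1]
      simp_rw [h3]
      exact B.sum_equivFun _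
    have h4 := congrArg Subtype.val h2
    simpa using h4.symm
  let b0 : Fin n → k[X] := fun i => pol r (B i : Fin (r + 1) → k)
  let z : ℕ → Fin n → k := fun j => g (cf r (P j))
  have hz : ∀ᶠ j in (U : Filter ℕ), cf r (P j) = ∑ i, z j i • (B i : Fin (r + 1) → k) := by
    filter_upwards [hW] with j hj using hg _ hj
  have hP : ∀ᶠ j in (U : Filter ℕ), P j = ∑ i, C (z j i) * b0 i := by
    filter_upwards [hz] with j hj
    rw [← pol_cf (hdeg j).le, hj, pol_sum]
  have hlin : LinearIndependent k b0 := by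
    rw [Fintype.linearIndependent_iff]
    intro a ha
    have h1 : pol r (∑ i, a i • (B i : Fin (r + 1) → k)) = 0 := by
      rw [pol_sum, ← ha]
      exact Finset.sum_congr rfl fun i _ => (smul_eq_C_mul (a i)).symm
    have h2 : (∑ i, a i • (B i : Fin (r + 1) → k)) = 0 := by
      funext s
      have h3 := pol_coeff r (∑ i, a i • (B i : Fin (r + 1) → k)) s
      rw [h1, coeff_zero, dif_pos s.2] at h3
      exact h3.symm
    have h4 : ∑ i, a i • B i = 0 := by
      apply Subtype.ext
      simpa using h2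
    exact fun i => Fintype.linearIndependent_iff.mp B.linearIndependent a h4 i
  have hn2 : 2 ≤ n := by
    by_contra hlt
    have hcases : n = 0 ∨ n = 1 := by omega
    rcases hcases with h | h
    · subst h
      obtain ⟨j, hj⟩ := hP.exists
      apply (hmon j).ne_zero
      rw [hj]
      simp
    · subst h
      have h1 : ∀ᶠ j in (U : Filter ℕ), Associated (b0 0) (P j) := by
        filter_upwards [hP] with j hj
        rw [Fin.sum_univ_one] at hj
        have hz0 : z j 0 ≠ 0 := by
          intro h0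
          apply (hmon j).ne_zero
          rw [hj, h0]
          simp
        refine ⟨(isUnit_C.mpr hz0.isUnit).unit, ?_⟩
        rw [hj, mul_comm]
        rfl
      obtain ⟨j0, hj0⟩ := h1.exists
      have hconst : ∀ᶠ j in (U : Filter ℕ), P j = P j0 := by
        filter_upwards [h1] with j hj
        exact eq_of_monic_of_associated (hmon j) (hmon j0) (hj.symm.trans hj0)
      obtain ⟨j, h2, h3⟩ := (hconst.and
        (hV.eventually (Filter.eventually_gt_atTop (vH (cf r (P j0)))))).exists
      rw [h2] at h3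
      exact lt_irrefl _ h3
  refine ⟨n, b0, z, hn2, hlin, fun i => pol_deg _ _, hP, ?_⟩
  intro K _ _ _
  let b : Fin n → K[X] := fun i => (b0 i).map (algebraMap k K)
  let y : ℕ → Fin n → K := fun j i => algebraMap k K (z j i)
  have hPK : ∀ᶠ j in (U : Filter ℕ), (P j).map (algebraMap k K) = ∑ i, C (y j i) * b i := by
    filter_upwards [hP] with j hj
    conv_lhs => rw [hj]
    rw [Polynomial.map_sum]
    refine Finset.sum_congr rfl fun i _ => ?_
    rw [Polynomial.map_mul, Polynomial.map_C]
  have hPK0 : ∀ j, (P j).map (algebraMap k K) ≠ 0 := fun j => ((hmon j).map _).ne_zero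
  have hn : 0 < n := by omega
  have hb : NoBase r b := by
    refine ⟨fun i => ?_, ?_, ?_⟩
    · exact natDegree_map_le.trans (pol_deg _ _)
    · have h1 : Ideal.span (Set.range b0) = ⊤ := by
        refine span_top b0 U P hmon hirr ?_ (fun Q => vH (cf r Q)) hV
        filter_upwards [hP] with j hj
        rw [hj]
        exact Ideal.sum_mem _ fun i _ => Ideal.mul_mem_left _ _ (Ideal.subset_span ⟨i, rfl⟩)
      have h2 := congrArg (Ideal.map (mapRingHom (algebraMap k K))) h1
      rw [Ideal.map_span, Ideal.map_top, ← Set.range_comp] at h2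
      exact h2
    · obtain ⟨j, hj⟩ := hPK.exists
      by_contra hcon
      push Not at hcon
      have h1 : ((P j).map (algebraMap k K)).coeff r = 1 := by
        have h2 := ((hmon j).map (algebraMap k K)).coeff_natDegree
        rwa [(hmon j).natDegree_map, hdeg j] at h2
      rw [hj, finsetSum_coeff] at h1
      simp [hcon] at h1
  have hint : ∀ (v : FinitePlace K) i s, nv (.inr v) ((b i).coeff s) ≤ 1 := by
    intro v i s
    have h1 : (b i).coeff s = algebraMap k K ((b0 i).coeff s) := coeff_map _ _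
    rw [h1]
    have h2 : (b0 i).coeff s = if h : s < r + 1 then (B i : Fin (r + 1) → k) ⟨s, h⟩ else 0 :=
      pol_coeff _ _ _
    rw [h2]
    split_ifs with h
    · obtain ⟨x, hx⟩ := hB i ⟨s, h⟩
      rw [← hx]
      have hx' : IsIntegral ℤ (algebraMap k K (x : k)) :=
        (x.2).map (algebraMap k K).toIntAlgHom
      exact M1.nv_int_le_one v ⟨algebraMap k K (x : k), hx'⟩
    · rw [map_zero, Pool.Agent.Helper64.Vojta.nv_zero]
      exact zero_le_one
  have hy0 : ∀ᶠ j in (U : Filter ℕ), y j ≠ 0 := by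
    filter_upwards [hPK] with j hj h0
    apply hPK0 j
    rw [hj, h0]
    simp
  have hcf0 : ∀ j, cf r ((P j).map (algebraMap k K)) ≠ 0 := fun j =>
    AD.cf_ne_zero ((hmon j).map _) (by rw [(hmon j).natDegree_map]; exact hdeg j)
  let Γ : Fin n × Fin (r + 1) → K := fun p =>
    algebraMap k K (g (fun j => if p.2 = j then 1 else 0) p.1)
  have hyΓ : ∀ j, y j = fun i => ∑ s, Γ (i, s) * cf r ((P j).map (algebraMap k K)) s := by
    intro j
    funext i
    have h1 : z j i = ∑ s, (cf r (P j) s) * g (fun l => if s = l then 1 else 0) i := by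
      have h2 : z j = g (cf r (P j)) := rfl
      rw [h2, LinearMap.pi_apply_eq_sum_univ g]
      simp [Finset.sum_apply]
    change algebraMap k K (z j i) = _
    rw [h1, map_sum]
    refine Finset.sum_congr rfl fun s _ => ?_
    rw [map_mul, mul_comm]
    congr 1
    exact (coeff_map _ _).symm
  refine ⟨hb, hint, fun W' hW' => generic W B U (fun j => cf r (P j)) hmin z hz W' hW',
    ⟨Height.totalWeight K * Real.log (Nat.card (Fin (r + 1))) + Height.logHeight Γ, ?_⟩, ?_⟩
  · filter_upwards [hy0] with j h2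
    change vH (y j) ≤ _
    rw [vH_eq h2, vH_eq (hcf0 j)]
    have h4 := Height.logHeight_linearMap_apply_le Γ (cf r ((P j).map (algebraMap k K)))
    rw [← hyΓ j] at h4
    linarith
  · intro w
    let M : ℝ := ∑ i, ∑ s : Fin (r + 1), nv w ((b i).coeff s)
    have hM0 : 0 ≤ M := Finset.sum_nonneg fun i _ => Finset.sum_nonneg fun s _ => nv_nonneg _ _
    have hM : ∀ i (s : Fin (r + 1)), nv w ((b i).coeff s) ≤ M := by
      intro i s
      refine le_trans (Finset.single_le_sum (f := fun s : Fin (r + 1) => nv w ((b i).coeff s))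
        (fun _ _ => nv_nonneg _ _) (Finset.mem_univ s)) ?_
      exact Finset.single_le_sum (f := fun i => ∑ s : Fin (r + 1), nv w ((b i).coeff s))
        (fun _ _ => Finset.sum_nonneg fun _ _ => nv_nonneg _ _) (Finset.mem_univ i)
    refine ⟨((Finset.univ : Finset (Fin n)).card + 1 : ℝ) ^ 2 * M, ?_⟩
    filter_upwards [hPK] with j hj
    change _ ≤ _ * vn w (y j)
    have hvy : 0 ≤ vn w (y j) := by
      have : Nonempty (Fin n) := ⟨⟨0, hn⟩⟩
      exact (nv_nonneg w _).trans (le_vn w (y j) ⟨0, hn⟩)
    refine vn_le _ _ (by positivity) fun s => ?_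
    have h1 : cf r ((P j).map (algebraMap k K)) s = ∑ i, y j i * (b i).coeff s := by
      change ((P j).map (algebraMap k K)).coeff s = _
      rw [hj, finsetSum_coeff]
      exact Finset.sum_congr rfl fun i _ => coeff_C_mul _
    rw [h1]
    refine (nv_sum_le w Finset.univ (fun i => y j i * (b i).coeff s) (M * vn w (y j))
      (mul_nonneg hM0 hvy) fun i _ => ?_).trans ?_
    · rw [nv_mul, mul_comm]
      exact mul_le_mul (hM i s) (le_vn w (y j) i) (nv_nonneg _ _) hM0
    · rw [← mul_assoc]

end Pool.Agent.Helper61.AD2
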