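import Pool.Agent.Helper61.AD.Core

/-!
# Block AD2-CB: bases in the boxes

Proof: this is exactly the part of the proof of `core` in `AD/Core.lean` before `det_ineq` (choice of the filtrations and
adapted bases, `slope`, the constant `D = max D1 D2`); the profile `m` is only used through `0 ≤ m`.
-/

namespace Pool.Agent.Helper61.AD2

open NumberField Finset Polynomial Module
open Pool.Agent.Helper64.Vojta (Pl nv sn)
open Pool.Agent.Helper61.AD
open Pool.Agent.V2

/-- `(1 + ε) mult v / [K : ℚ]` at the infinite places, zero at the finite places -/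
noncomputable def kap (K : Type*) [Field K] [NumberField K] (ε : ℝ) : Pl K → ℝ
  | .inl v => (1 + ε) * v.mult / Module.finrank ℚ K
  | .inr _ => 0

theorem sum_kap {K : Type*} [Field K] [NumberField K] (ε : ℝ) (T : Finset (Pl K))
    (hT : ∀ v : InfinitePlace K, Sum.inl v ∈ T) : ∑ w ∈ T, kap K ε w = 1 + ε := by
  have hd : (0 : ℝ) < Module.finrank ℚ K := by exact_mod_cast Module.finrank_pos
  have h1 : ∑ w ∈ T, kap K ε w =
      ∑ v : InfinitePlace K, (1 + ε) * v.mult / Module.finrank ℚ K := by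
    conv_lhs => rw [← Finset.toLeft_disjSum_toRight (u := T)]
    rw [Finset.sum_disjSum]
    have h2 : T.toLeft = Finset.univ := by
      rw [Finset.eq_univ_iff_forall]
      intro v
      exact Finset.mem_toLeft.mpr (hT v)
    rw [h2]
    simp only [kap, Finset.sum_const_zero, add_zero]
  rw [h1, ← Finset.sum_div, ← Finset.mul_sum]
  have h3 : ∑ v : InfinitePlace K, (v.mult : ℝ) = Module.finrank ℚ K := by
    rw [← NumberField.InfinitePlace.sum_mult_eq]
    push_cast
    rfl
  rw [h3]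
  field_simp

theorem core_basis {K : Type*} [Field K] [NumberField K] {n r : ℕ} (hn : 0 < n)
    (b : Fin n → K[X]) (hdeg : ∀ i, (b i).natDegree ≤ r)
    (T : Finset (Pl K)) (hT : ∀ v : InfinitePlace K, Sum.inl v ∈ T) (A : Finset (Option K))
    (m : Pl K → Option K → ℕ → ℝ) (hm : ∀ w ∈ T, ∀ p ∈ A, ∀ s, 0 ≤ m w p s)
    (U : Ultrafilter ℕ) (t : ℕ → ℝ) (ht : Filter.Tendsto t (U : Filter ℕ) Filter.atTop)
    (y : ℕ → Fin n → K)
    (hgen : ∀ W : Submodule K (Fin n → K), W ≠ ⊤ → ∀ᶠ j in (U : Filter ℕ), y j ∉ W)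
    (hH : ∀ ε : ℝ, 0 < ε → ∀ᶠ j in (U : Filter ℕ), vH (y j) ≤ (1 + ε) * t j)
    (happ : ∀ w ∈ T, ∀ p ∈ A, ∀ s ≤ r, ∀ ε : ℝ, 0 < ε → ∀ᶠ j in (U : Filter ℕ),
      nv w ((tay p r (∑ i, C (y j i) * b i)).coeff s) ≤
        vn w (y j) * Real.exp (t j * (ε - m w p s))) :
    ∃ D : ℝ, 1 ≤ D ∧ ∀ ε : ℝ, 0 < ε → ∀ᶠ j in (U : Filter ℕ),
      ∃ x : Fin n → Fin n → K, LinearIndependent K x ∧
        (∀ w ∈ T, ∀ p ∈ A, ∀ l, ∀ s ≤ r, nv w ((tay p r (∑ i, C (x l i) * b i)).coeff s) ≤
          D * Real.exp (t j * (kap K ε w - m w p s))) ∧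
        (∀ v : FinitePlace K, Sum.inr v ∉ T → ∀ l i, nv (.inr v) (x l i) ≤ 1) := by
  classical
  have hT' : ∀ w : Pl K, w ∉ T → ∃ v : FinitePlace K, w = .inr v := by
    rintro (v | v) hw
    · exact absurd (hT v) hw
    · exact ⟨v, rfl⟩
  -- the filtrations and the adapted bases
  set V := fun w => coreV U t ht y w with hV
  let Λ : Pl K → Finset ℝ := fun w =>
    insert 0 ((A ×ˢ Finset.range (r + 1)).image fun q => m w q.1 q.2)
  have hΛ0 : ∀ w, (0 : ℝ) ∈ Λ w := fun w => Finset.mem_insert_self _ _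
  have hΛm : ∀ w, ∀ p ∈ A, ∀ s ≤ r, m w p s ∈ Λ w := by
    intro w p hp s hs
    refine Finset.mem_insert_of_mem (Finset.mem_image.mpr ⟨(p, s), ?_, rfl⟩)
    rw [Finset.mem_product]
    exact ⟨hp, Finset.mem_range.mpr (Nat.lt_succ_of_le hs)⟩
  have hex : ∀ w : Pl K, ∃ (M : Matrix (Fin n) (Fin n) K) (c : Fin n → ℝ), M.det ≠ 0 ∧
      (∀ i, M i ∈ V w (c i)) ∧
      (w ∈ T → ∀ τ ∈ Λ w, V w τ ≤ Submodule.span K {x | ∃ i, τ ≤ c i ∧ x = M i}) ∧
      (w ∉ T → M = 1 ∧ c = 0) := by
    intro w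
    by_cases hw : w ∈ T
    · obtain ⟨M, c, h1, h2, h3, h4⟩ := adapt (Λ w) (hΛ0 w) (by
        intro τ hτ
        rcases Finset.mem_insert.mp hτ with rfl | hτ
        · exact le_rfl
        · obtain ⟨q, hq, rfl⟩ := Finset.mem_image.mp hτ
          rw [Finset.mem_product] at hq
          exact hm w hw q.1 hq.1 _) (V w) (coreV_zero U t ht y w) (coreV_anti U t ht y w)
      exact ⟨M, c, h1, h3, fun _ => h4, fun h => absurd hw h⟩
    · refine ⟨1, 0, by simp, fun i => ?_, fun h => absurd h hw, fun _ => ⟨rfl, rfl⟩⟩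
      rw [Pi.zero_apply, hV]
      simp only [coreV_zero]
      trivial
  choose M c hdet hrow hspan hout using hex
  let F : Frm K (Fin n) :=
    { S := T.toRight
      L := M
      hL := hdet
      hS := fun v hv => (hout _ fun h => hv (Finset.mem_toRight.mpr h)).1 }
  let cc : Pl K → Fin n → ℝ := fun w i => - c w i
  have hcc : ExpS F.S cc := by
    intro v hv
    funext i
    have h1 : c (.inr v) = 0 := (hout _ fun h => hv (Finset.mem_toRight.mpr h)).2
    simp only [cc, h1, Pi.zero_apply, neg_zero]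
  have hy0 : ∀ᶠ j in (U : Filter ℕ), y j ≠ 0 := by
    haveI : Nonempty (Fin n) := ⟨⟨0, hn⟩⟩
    filter_upwards [hgen ⊥ bot_ne_top] with j hj h0
    exact hj (by rw [h0]; exact Submodule.zero_mem _)
  -- twisted heights
  have hslope := slope hn F cc hcc U t ht y (by
    intro ε hε
    set δ : ℝ := ε / (2 * (T.card + 1)) with hδ
    have hδ0 : 0 < δ := by positivity
    have hrows : ∀ w ∈ T, ∀ᶠ j in (U : Filter ℕ), ∀ i,
        nv w (∑ k, M w i k * y j k) ≤ vn w (y j) * Real.exp (t j * (δ - c w i)) := by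
      intro w _
      rw [Filter.eventually_all]
      intro i
      exact (mem_coreV.mp (hrow w i)) δ hδ0
    have hrows' : ∀ᶠ j in (U : Filter ℕ), ∀ w ∈ T, ∀ i,
        nv w (∑ k, M w i k * y j k) ≤ vn w (y j) * Real.exp (t j * (δ - c w i)) := by
      rw [Filter.eventually_all_finset]
      exact hrows
    filter_upwards [hrows', hH (ε / 2) (by linarith), hy0, ht.eventually_ge_atTop 0]
      with j h1 h2 h3 h4
    have h5 : tH F (sc (t j) cc) (y j) ≤ vH (y j) + ∑ w ∈ T, t j * δ := by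
      unfold tH vH
      rw [← gsum_supp T (fun w => if w ∈ T then t j * δ else 0) (fun v hv => if_neg hv) |>.trans
        (Finset.sum_congr rfl fun v hv => if_pos hv)]
      rw [← gsum_add (finS_vn h3) (finS_supp T _ fun v hv => if_neg hv)]
      refine gsum_mono (finS_tn F _ (hcc.sc _) h3)
        ((finS_vn h3).add (finS_supp T _ fun v hv => if_neg hv)) fun w => ?_
      by_cases hw : w ∈ T
      · rw [if_pos hw]
        have h6 : tn F (sc (t j) cc) w (y j) ≤ vn w (y j) * Real.exp (t j * δ) := by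
          refine tn_le F _ w _ (mul_nonneg (core_vn_nonneg _ _) (Real.exp_pos _).le) fun i => ?_
          rw [Real.exp_neg, ← div_eq_mul_inv, div_le_iff₀ (Real.exp_pos _)]
          refine (h1 w hw i).trans (le_of_eq ?_)
          rw [mul_assoc, ← Real.exp_add]
          congr 2
          simp only [sc, cc]
          ring
        have h7 := Real.log_le_log (tn_pos F _ w h3) h6
        rwa [Real.log_mul (vn_pos w h3).ne' (Real.exp_pos _).ne', Real.log_exp] at h7
      · rw [if_neg hw, add_zero]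
        obtain ⟨v, rfl⟩ := hT' w hw
        rw [tn_out F _ (hcc.sc _) (fun h => hw (Finset.mem_toRight.mp h))]
    refine h5.trans ?_
    rw [Finset.sum_const, nsmul_eq_mul]
    have h6 : (T.card : ℝ) * (t j * δ) ≤ ε / 2 * t j := by
      have h7 : (T.card : ℝ) * δ ≤ ε / 2 := by
        rw [hδ]
        have h8 : (0 : ℝ) ≤ T.card := Nat.cast_nonneg _
        rw [← mul_div_assoc, div_le_div_iff₀ (by positivity) (by norm_num)]
        nlinarith
      nlinarith
    nlinarith) hgen
  -- the constant D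
  obtain ⟨D1, hD1, hD1'⟩ := core_unif ((T ×ˢ A) ×ˢ Finset.range (r + 1))
    (fun q D => ∀ (τ κ : ℝ) (z : Fin n → K), 0 ≤ τ →
      (∀ i, nv q.1.1 ((M q.1.1).mulVec z i) ≤ Real.exp (τ * (κ - c q.1.1 i))) →
      nv q.1.1 ((tay q.1.2 r (∑ i, C (z i) * b i)).coeff q.2) ≤
        D * Real.exp (τ * (κ - m q.1.1 q.1.2 q.2)))
    (fun q D D' hDD h τ κ z h1 h2 => (h τ κ z h1 h2).trans
      (mul_le_mul_of_nonneg_right hDD (Real.exp_pos _).le)) (by
    rintro ⟨⟨w, p⟩, s⟩ hq
    simp only [Finset.mem_product, Finset.mem_range] at hq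
    obtain ⟨⟨hw, hp⟩, hs⟩ := hq
    have hs' : s ≤ r := Nat.lt_succ_iff.mp hs
    have hmem : (fun i => (tay p r (b i)).coeff s) ∈ V w (m w p s) := by
      change _ ∈ coreV U t ht y w (m w p s)
      rw [mem_coreV]
      intro ε hε
      filter_upwards [happ w hw p hp s hs' ε hε] with j hj
      rw [coeff_tay_comb] at hj
      simpa only [mul_comm] using hj
    obtain ⟨D, hD, hD'⟩ := core_comb w (M w) (c w) (m w p s) _
      (hspan w hw _ (hΛm w p hp s hs') hmem)
    refine ⟨D, fun τ κ z h1 h2 => ?_⟩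
    have h3 := hD' τ κ z h1 h2
    simp only
    rw [coeff_tay_comb]
    simpa only [mul_comm] using h3)
  refine ⟨D1, hD1, fun ε hε => ?_⟩
  filter_upwards [hslope ε hε, ht.eventually_ge_atTop 0] with j hj ht0
  obtain ⟨x, hx, hB⟩ := hj
  have hB' : ∀ l w i, nv w ((M w).mulVec (x l) i) ≤ Real.exp (t j * (kap K ε w - c w i)) := by
    intro l w i
    refine (hB l w i).trans (le_of_eq ?_)
    congr 1
    rcases w with v | v
    · simp only [sc, rai, cc, kap]; ring
    · simp only [sc, rai, cc, kap]; ring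
  refine ⟨x, hx, ?_, ?_⟩
  · intro w hw p hp l s hs
    refine (hD1' ((w, p), s) ?_ (t j) (kap K ε w) (x l) ht0 (hB' l w))
    simp only [Finset.mem_product, Finset.mem_range]
    exact ⟨⟨hw, hp⟩, Nat.lt_succ_of_le hs⟩
  · intro v hv l i
    have h2 := hB' l (.inr v) i
    rw [(hout _ hv).1, (hout _ hv).2] at h2
    simpa [kap] using h2

end Pool.Agent.Helper61.AD2
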