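import Pool.Agent.Helper61.AD.Defs
import Pool.Agent.Helper64.Vojta.OneSpace

/-!
# Definitions for the second form of the inequality in all degrees (MP_71c16a_nt)

The inequality of `Helper61/AD` plus the part `1/(2r-2)` of the closeness of pairs of conjugates which is not forced
by closeness to the points of the divisor. Idea of the strengthening: helper16.
-/

namespace Pool.Agent.Helper61.AD2

open NumberField Finset Polynomial Module
open Pool.Agent.Helper64.Vojta (Pl nv sn above)
open Pool.Agent.Helper61.AD (cl)

section

variable {N : Type*} [Field N] [NumberField N]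

/-- The closeness of `a` and `b` at `w` minus the part forced by closeness to the points of `A`. -/
noncomputable def exc (A : Finset (Option N)) (w : Pl N) (a b : N) : ℝ :=
  cl w a (some b) - ∑ p ∈ A, min (cl w a p) (cl w b p)

/-- `∑ p, ∑ j, min (cl (x i) p) (cl (x j) p)` -/
noncomputable def fw {r : ℕ} (A : Finset (Option N)) (w : Pl N) (x : Fin r → N) (i : Fin r) : ℝ :=
  ∑ p ∈ A, ∑ j, min (cl w (x i) p) (cl w (x j) p)

/-- sum over the points and all pairs of conjugates -/
noncomputable def prs {r : ℕ} (A : Finset (Option N)) (w : Pl N) (x : Fin r → N) : ℝ :=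
  ∑ p ∈ A, ∑ i, ∑ j, min (cl w (x i) p) (cl w (x j) p)

/-- sum of the `exc` over the ordered pairs of different conjugates -/
noncomputable def exs {r : ℕ} (A : Finset (Option N)) (w : Pl N) (x : Fin r → N) : ℝ :=
  ∑ i, ∑ j ∈ Finset.univ.erase i, exc A w (x i) (x j)

theorem prs_eq {r : ℕ} (A : Finset (Option N)) (w : Pl N) (x : Fin r → N) :
    prs A w x = ∑ i, fw A w x i := by
  unfold prs fw
  rw [Finset.sum_comm]

end

/-- The same points over a larger field. -/
noncomputable def img (N : Type*) [Field N] {K : Type*} [Field K] [Algebra K N]
    (A : Finset (Option K)) : Finset (Option N) := by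
  classical
  exact A.image (Option.map (algebraMap K N))

/-- Wronskian -/
noncomputable def wr {K : Type*} [Field K] (b0 b1 : K[X]) : K[X] :=
  derivative b0 * b1 - b0 * derivative b1

end Pool.Agent.Helper61.AD2
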