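import Pool.Agent.Helper61.AD2.Defs2
import Pool.Agent.Helper61.AD.Tay

/-!
# Block AD2-EB: values of a polynomial near a point

Proof. `p = some a`: `B(x) = ∑_{s ≤ r} T_s (x - a)^s` (`T_s` = coefficients of `tay p r B = B.comp (X + C a)`),
`nv w (x - a) = sn w ![x,1] * sn w ![a,1] * exp (- cl w x p)` (definition of `cl`, `x ≠ a`), so
`nv w ((x-a)^s) ≤ sn w ![x,1]^r * sn w ![a,1]^r * exp (-(s * cl))` (all `sn ≥ 1`), and `nv_sum_le` for
`r + 1` terms. `p = none`: `B(x) = ∑_{s ≤ r} (B.coeff (r - s)) x^(r-s)`, `(tay none r B).coeff s = B.coeff (r - s)` (`coeff_reflect`,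
`revAt`), `nv w (x^(r-s)) ≤ sn w ![x,1]^(r-s) = sn w ![x,1]^r * exp (-(s * cl w x none))`; `(none).getD 0 = 0` and
`1 ≤ sn w ![0,1]`.
-/

namespace Pool.Agent.Helper61.AD2

open NumberField Finset Polynomial Module
open Pool.Agent.Helper64.Vojta (Pl nv sn above)
open Pool.Agent.Helper61.AD (cl tay)

private theorem eb_nv_pow {N : Type*} [Field N] [NumberField N] (w : Pl N) (y : N) (n : ℕ) :
    nv w (y ^ n) = nv w y ^ n := by
  induction n with
  | zero => rw [pow_zero, pow_zero]; exact Pool.Agent.Helper64.Vojta.nv_one w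
  | succ n ih => rw [pow_succ, pow_succ, Pool.Agent.Helper64.Vojta.nv_mul, ih]

private theorem eb_one_le {N : Type*} [Field N] [NumberField N] (w : Pl N) (y : N) :
    1 ≤ sn w ![y, 1] := by
  have h := Pool.Agent.Helper64.Vojta.le_sn w ![y, 1] 1
  have h2 : nv w ((![y, 1] : Fin 2 → N) 1) = 1 := Pool.Agent.Helper64.Vojta.nv_one w
  rwa [h2] at h

private theorem eb_le {N : Type*} [Field N] [NumberField N] (w : Pl N) (y : N) :
    nv w y ≤ sn w ![y, 1] :=
  Pool.Agent.Helper64.Vojta.le_sn w ![y, 1] 0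

private theorem eb_aux {N : Type*} [Field N] [NumberField N] (w : Pl N) {r : ℕ} (T y : ℕ → N)
    (Cc E c : ℝ) (hC : 0 ≤ Cc) (hy : ∀ s ≤ r, nv w (y s) ≤ Cc * Real.exp (-(s * c)))
    (hE : ∀ s ≤ r, nv w (T s) * Real.exp (-(s * c)) ≤ E) :
    nv w (∑ s ∈ Finset.range (r + 1), T s * y s) ≤ (r + 2) ^ 2 * Cc * E := by
  have hE0 : 0 ≤ E := by
    refine le_trans ?_ (hE 0 (Nat.zero_le r))
    exact mul_nonneg (Pool.Agent.Helper64.Vojta.nv_nonneg w _) (Real.exp_pos _).le
  have h := Pool.Agent.Helper64.Vojta.nv_sum_le w (Finset.range (r + 1)) (fun s => T s * y s)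
    (Cc * E) (mul_nonneg hC hE0) (by
      intro s hs
      have hs' : s ≤ r := Nat.lt_succ_iff.mp (Finset.mem_range.mp hs)
      rw [Pool.Agent.Helper64.Vojta.nv_mul]
      calc nv w (T s) * nv w (y s) ≤ nv w (T s) * (Cc * Real.exp (-(s * c))) :=
            mul_le_mul_of_nonneg_left (hy s hs') (Pool.Agent.Helper64.Vojta.nv_nonneg w _)
        _ = Cc * (nv w (T s) * Real.exp (-(s * c))) := by ring
        _ ≤ Cc * E := mul_le_mul_of_nonneg_left (hE s hs') hC)
  refine h.trans (le_of_eq ?_)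
  rw [Finset.card_range]
  push_cast
  ring

theorem eval_bound {N : Type*} [Field N] [NumberField N] (w : Pl N) (p : Option N) (x : N)
    (hx : p ≠ some x) {r : ℕ} (B : N[X]) (hB : B.natDegree ≤ r) (E : ℝ)
    (hE : ∀ s ≤ r, nv w ((tay p r B).coeff s) * Real.exp (-(s * cl w x p)) ≤ E) :
    nv w (B.eval x) ≤ (r + 2) ^ 2 * sn w ![p.getD 0, 1] ^ r * sn w ![x, 1] ^ r * E := by
  have hsx := eb_one_le w x
  have hsx0 : 0 < sn w ![x, 1] := lt_of_lt_of_le one_pos hsx
  cases p with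
  | none =>
    have hs0 := eb_one_le w (0 : N)
    have h1 : B.eval x = ∑ s ∈ Finset.range (r + 1), (tay none r B).coeff s * x ^ (r - s) := by
      rw [Polynomial.eval_eq_sum_range' (Nat.lt_succ_of_le hB),
        ← Finset.sum_range_reflect _ (r + 1)]
      refine Finset.sum_congr rfl fun s hs => ?_
      have hs' : s ≤ r := Nat.lt_succ_iff.mp (Finset.mem_range.mp hs)
      rw [Pool.Agent.Helper61.AD.tay_none, coeff_reflect, revAt_le hs']
      have h2 : r + 1 - 1 - s = r - s := by omega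
      rw [h2]
    rw [h1]
    have h3 := eb_aux w (r := r) (fun s => (tay none r B).coeff s) (fun s => x ^ (r - s))
      (sn w ![x, 1] ^ r) E (cl w x none) (pow_nonneg hsx0.le r) (by
        intro s hs
        have h4 : Real.exp (-(s * cl w x none)) = (sn w ![x, 1] ^ s)⁻¹ := by
          change Real.exp (-(s * Real.log (sn w ![x, 1]))) = _
          rw [Real.exp_neg, mul_comm, Real.exp_mul, Real.exp_log hsx0, Real.rpow_natCast]
        rw [h4, eb_nv_pow]
        calc nv w x ^ (r - s) ≤ sn w ![x, 1] ^ (r - s) :=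
              pow_le_pow_left₀ (Pool.Agent.Helper64.Vojta.nv_nonneg w _) (eb_le w x) _
          _ = sn w ![x, 1] ^ r * (sn w ![x, 1] ^ s)⁻¹ := by
              rw [pow_sub₀ _ hsx0.ne' hs]) hE
    refine h3.trans ?_
    have hE0 : 0 ≤ E := by
      refine le_trans ?_ (hE 0 (Nat.zero_le r))
      exact mul_nonneg (Pool.Agent.Helper64.Vojta.nv_nonneg w _) (Real.exp_pos _).le
    refine mul_le_mul_of_nonneg_right ?_ hE0
    have h5 : (1 : ℝ) ≤ sn w ![(none : Option N).getD 0, 1] ^ r := one_le_pow₀ hs0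
    have h6 : (0 : ℝ) ≤ ((r : ℝ) + 2) ^ 2 := by positivity
    refine mul_le_mul_of_nonneg_right ?_ (pow_nonneg hsx0.le r)
    nlinarith
  | some a =>
    have hsa := eb_one_le w a
    have hsa0 : 0 < sn w ![a, 1] := lt_of_lt_of_le one_pos hsa
    have hxa : x - a ≠ 0 := by
      intro h
      exact hx (by rw [sub_eq_zero.mp h])
    have hn := Pool.Agent.Helper64.Vojta.nv_pos w hxa
    have h1 : B.eval x = ∑ s ∈ Finset.range (r + 1), (tay (some a) r B).coeff s * (x - a) ^ s := by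
      rw [← Polynomial.eval_eq_sum_range' (Nat.lt_succ_of_le
        (Pool.Agent.Helper61.AD.natDegree_tay_le (some a) hB)),
        Pool.Agent.Helper61.AD.tay_some, eval_comp]
      simp
    rw [h1]
    have h3 := eb_aux w (r := r) (fun s => (tay (some a) r B).coeff s) (fun s => (x - a) ^ s)
      (sn w ![a, 1] ^ r * sn w ![x, 1] ^ r) E (cl w x (some a))
      (mul_nonneg (pow_nonneg hsa0.le r) (pow_nonneg hsx0.le r)) (by
        intro s hs
        have h4 : Real.exp (-(s * cl w x (some a))) =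
            (sn w ![x, 1] ^ s * sn w ![a, 1] ^ s)⁻¹ * nv w (x - a) ^ s := by
          have h5 : cl w x (some a) =
              Real.log (sn w ![x, 1] * sn w ![a, 1] * (nv w (x - a))⁻¹) := by
            rw [Real.log_mul (mul_pos hsx0 hsa0).ne' (inv_pos.mpr hn).ne',
              Real.log_mul hsx0.ne' hsa0.ne', Real.log_inv]
            rfl
          have h6 : 0 < sn w ![x, 1] * sn w ![a, 1] * (nv w (x - a))⁻¹ :=
            mul_pos (mul_pos hsx0 hsa0) (inv_pos.mpr hn)
          rw [h5, Real.exp_neg, mul_comm, Real.exp_mul, Real.exp_log h6, Real.rpow_natCast,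
            mul_pow, mul_pow, mul_inv, inv_pow, inv_inv]
        rw [h4, eb_nv_pow]
        have h7 : sn w ![a, 1] ^ s * sn w ![x, 1] ^ s ≤ sn w ![a, 1] ^ r * sn w ![x, 1] ^ r :=
          mul_le_mul (pow_le_pow_right₀ hsa hs) (pow_le_pow_right₀ hsx hs)
            (pow_nonneg hsx0.le s) (pow_nonneg hsa0.le r)
        have h8 : 0 < sn w ![a, 1] ^ s * sn w ![x, 1] ^ s := mul_pos (pow_pos hsa0 s) (pow_pos hsx0 s)
        have h9 : 0 ≤ (sn w ![x, 1] ^ s * sn w ![a, 1] ^ s)⁻¹ * nv w (x - a) ^ s := by positivity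
        calc nv w (x - a) ^ s
            = (sn w ![a, 1] ^ s * sn w ![x, 1] ^ s) *
              ((sn w ![x, 1] ^ s * sn w ![a, 1] ^ s)⁻¹ * nv w (x - a) ^ s) := by
              field_simp
          _ ≤ (sn w ![a, 1] ^ r * sn w ![x, 1] ^ r) *
              ((sn w ![x, 1] ^ s * sn w ![a, 1] ^ s)⁻¹ * nv w (x - a) ^ s) :=
              mul_le_mul_of_nonneg_right h7 h9) hE
    refine h3.trans (le_of_eq ?_)
    change _ = (r + 2) ^ 2 * sn w ![a, 1] ^ r * sn w ![x, 1] ^ r * E
    ring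

end Pool.Agent.Helper61.AD2
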