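import Pool.Agent.Helper61.AD2.Main2
import Pool.Agent.Helper61.AD.Fin1
import Pool.Agent.Helper61.AD.Fin2

/-!
# Assembly of the strengthened Vojta inequality

The proof is the one of `AD/FinalA.lean` (helper68) with `main_ineq2`.
-/

namespace Pool.Agent.Helper61.AD2

open NumberField Finset Polynomial Module
open Pool.Agent.Helper64.Vojta (Pl nv sn above)
open Pool.Agent.Helper61.AD
open Pool.Agent.V2 (vn vH)

universe u

/-- all degrees; `1 / (2 r - 2) = 0` for `r = 1` -/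
theorem main_ineq3 {k : Type u} [Field k] [NumberField k] (g : k[X]) (hg : g ≠ 0) (q : ℕ)
    (S : Finset (Pl k)) (hS : ∀ v : InfinitePlace k, Sum.inl v ∈ S) (r : ℕ) (hr : 0 < r) (D : ℕ)
    (ε : ℝ) (hε : 0 < ε) :
    ∃ c : ℝ, ∀ (N : Type u) [Field N] [NumberField N] [Algebra k N], finrank k N ≤ D →
      (g.map (algebraMap k N)).Splits → ∀ P : k[X], P.Monic → Irreducible P → P.natDegree = r →
      ¬ P ∣ g → ∀ x : Fin r → N, P.map (algebraMap k N) = ∏ i, (X - C (x i)) →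
      ∑ ν ∈ S, ∑ w ∈ above N ν, (prs (pts g q N) w x + exs (pts g q N) w x / (2 * r - 2)) ≤
        finrank k N * ((2 * r + ε) * vH (cf r P) + c) := by
  rcases Nat.lt_or_ge r 2 with h | h
  · have h1 : r = 1 := by omega
    subst h1
    obtain ⟨c, hc⟩ := main_ineq g hg q S hS 1 hr D ε hε
    refine ⟨c, fun N _ _ _ hD hsp P hmon hirr hdeg hnd x hx => ?_⟩
    refine le_trans (le_of_eq ?_) (hc N hD hsp P hmon hirr hdeg hnd x hx)
    refine Finset.sum_congr rfl fun ν _ => Finset.sum_congr rfl fun w _ => ?_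
    have h2 : (2 * ((1 : ℕ) : ℝ) - 2) = 0 := by norm_num
    rw [h2, div_zero, add_zero]
    rfl
  · exact main_ineq2 g hg q S hS r h D ε hε

theorem vojta_ineq2 {k : Type u} [Field k] [NumberField k] (g : k[X]) (hg : Squarefree g) (q : ℕ)
    (hq1 : g.natDegree ≤ q) (hq2 : q ≤ g.natDegree + 1) (S : Finset (Pl k))
    (hS : ∀ v : InfinitePlace k, Sum.inl v ∈ S) (r : ℕ) (hr : 0 < r) (D : ℕ) (ε : ℝ) (hε : 0 < ε) :
    ∃ c : ℝ, ∀ (L N : Type u) [Field L] [NumberField L] [Algebra k L] [Field N] [NumberField N]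
      [Algebra k N], finrank k L = r → finrank k N ≤ D → (g.map (algebraMap k N)).Splits →
      ∀ y : L, (minpoly k y).natDegree = r → aeval y g ≠ 0 → ∀ x : Fin r → N,
      (minpoly k y).map (algebraMap k N) = ∏ i, (X - C (x i)) →
      (∑ ν ∈ S, ∑ w ∈ above N ν, ∑ p ∈ pts g q N, ∑ i, ∑ j, min (cl w (x i) p) (cl w (x j) p)) /
          finrank k N
        + (∑ ν ∈ S, ∑ w ∈ above N ν, ∑ i, ∑ j ∈ Finset.univ.erase i,
            (cl w (x i) (some (x j)) - ∑ p ∈ pts g q N, min (cl w (x i) p) (cl w (x j) p))) /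
          finrank k N / (2 * r - 2) ≤ (2 * r + ε) * Height.logHeight ![y, 1] + c ∧
      -(2 * (Height.logHeight ![y, 1] / finrank k L)) +
        ∑ ν ∈ S, (∑ w ∈ above L ν, (q * Real.log (sn w ![y, 1]) - Real.log (nv w (aeval y g))))
          / finrank k L
      ≤ ε * (Height.logHeight ![y, 1] / finrank k L)
        + (∑ᶠ (v : FinitePlace k) (_ : Sum.inr v ∉ S),
          ((2 * r - 2) * Real.log (vn (.inr v) (cf r (minpoly k y))) -
            Real.log (nv (.inr v) (minpoly k y).discr))) / r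
        + (1 - 1 / (2 * r - 2)) * ((∑ ν ∈ S, ∑ w ∈ above N ν, ∑ i, ∑ j ∈ Finset.univ.erase i,
            (cl w (x i) (some (x j)) - ∑ p ∈ pts g q N, min (cl w (x i) p) (cl w (x j) p))) /
          (finrank k N * r)) + c := by
  obtain ⟨c1, h1⟩ := main_ineq3 g hg.ne_zero q S hS r hr D ε hε
  obtain ⟨c2, h2⟩ := ht_le (k := k) r hr D
  choose c3 h3 using fun ν : Pl k => lam_le g hg q hq1 hq2 ν r hr D
  obtain ⟨c4, h4⟩ := disc_le S hS r hr D
  refine ⟨|(2 * r + ε) * c2 + c1| + (|(2 + ε) * c2 + c1| + |c4 + ∑ ν ∈ S, c3 ν|),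
    fun L N _ _ _ _ _ _ hL hN hspl y hy hg0 x hx => ?_⟩
  haveI : FiniteDimensional k L := Module.finite_of_finrank_pos (by rw [hL]; exact hr)
  haveI : FiniteDimensional k N := Module.Finite.right ℚ k N
  have hint : IsIntegral k y := Algebra.IsIntegral.isIntegral y
  have hd0 : 0 < finrank k N := Module.finrank_pos
  have hd : (1 : ℝ) ≤ finrank k N := by exact_mod_cast hd0
  have hdpos : (0 : ℝ) < finrank k N := by linarith
  have hr1 : (1 : ℝ) ≤ r := by exact_mod_cast hr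
  have hr0 : (0 : ℝ) < r := by linarith
  have hndvd : ¬ minpoly k y ∣ g := fun h => hg0 ((minpoly.dvd_iff).1 h)
  have A1 := h1 N hN hspl (minpoly k y) (minpoly.monic hint) (minpoly.irreducible hint) hy hndvd x hx
  have A2 := h2 L N hL hN y hy x hx
  have A4 := h4 N hN (minpoly k y) (minpoly.monic hint) (minpoly.irreducible hint) hy x hx
  set d : ℝ := (finrank k N : ℝ) with hdd
  set h : ℝ := Height.logHeight ![y, 1] with hh
  set V : ℝ := vH (cf r (minpoly k y)) with hV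
  set M : ℝ := ∑ ν ∈ S, ∑ w ∈ above N ν, ∑ p ∈ pts g q N, ∑ i, ∑ j, min (cl w (x i) p) (cl w (x j) p) with hM
  set F : ℝ := ∑ᶠ (v : FinitePlace k) (_ : Sum.inr v ∉ S),
          ((2 * r - 2) * Real.log (vn (.inr v) (cf r (minpoly k y))) -
            Real.log (nv (.inr v) (minpoly k y).discr)) with hF
  set E0 : ℝ := ∑ ν ∈ S, ∑ w ∈ above N ν, ∑ i, ∑ j ∈ Finset.univ.erase i, cl w (x i) (some (x j)) with hE0
  set e : ℝ := 1 / (2 * r - 2) with he
  set E1 : ℝ := ∑ ν ∈ S, ∑ w ∈ above N ν, ∑ i, ∑ j ∈ Finset.univ.erase i,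
            (cl w (x i) (some (x j)) - ∑ p ∈ pts g q N, min (cl w (x i) p) (cl w (x j) p)) with hE1
  have A1' : M + e * E1 ≤ d * ((2 * r + ε) * V + c1) := by
    refine le_trans (le_of_eq ?_) A1
    rw [hM, hE1, he, Finset.mul_sum, ← Finset.sum_add_distrib]
    refine Finset.sum_congr rfl fun ν _ => ?_
    rw [Finset.mul_sum, ← Finset.sum_add_distrib]
    refine Finset.sum_congr rfl fun w _ => ?_
    rw [one_div, inv_mul_eq_div]
    rfl
  -- the sum of the Weil functions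
  have A3 : d * ∑ ν ∈ S, ∑ w ∈ above L ν, (q * Real.log (sn w ![y, 1]) - Real.log (nv w (aeval y g))) ≤
      (∑ ν ∈ S, ∑ w ∈ above N ν, ∑ i, ∑ p ∈ pts g q N, cl w (x i) p) + ∑ ν ∈ S, c3 ν := by
    rw [Finset.mul_sum, ← Finset.sum_add_distrib]
    exact Finset.sum_le_sum fun ν _ => h3 ν L N hL hN hspl y hy hg0 x hx
  set Lam : ℝ := ∑ ν ∈ S, ∑ w ∈ above L ν, (q * Real.log (sn w ![y, 1]) - Real.log (nv w (aeval y g))) with hLam
  set O : ℝ := ∑ ν ∈ S, ∑ w ∈ above N ν, ∑ i, ∑ j ∈ Finset.univ.erase i,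
      ∑ p ∈ pts g q N, min (cl w (x i) p) (cl w (x j) p) with hO
  -- splitting off the diagonal
  have hsplit : M = (∑ ν ∈ S, ∑ w ∈ above N ν, ∑ i, ∑ p ∈ pts g q N, cl w (x i) p) + O := by
    rw [hM, hO, ← Finset.sum_add_distrib]
    refine Finset.sum_congr rfl fun ν _ => ?_
    rw [← Finset.sum_add_distrib]
    refine Finset.sum_congr rfl fun w _ => ?_
    rw [Finset.sum_comm, ← Finset.sum_add_distrib]
    refine Finset.sum_congr rfl fun i _ => ?_
    rw [Finset.sum_comm (s := Finset.univ.erase i), ← Finset.sum_add_distrib]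
    refine Finset.sum_congr rfl fun p _ => ?_
    rw [← Finset.add_sum_erase Finset.univ _ (Finset.mem_univ i), min_self]
  have hE : E1 = E0 - O := by
    rw [hE1, hE0, hO, ← Finset.sum_sub_distrib]
    refine Finset.sum_congr rfl fun ν _ => ?_
    rw [← Finset.sum_sub_distrib]
    refine Finset.sum_congr rfl fun w _ => ?_
    rw [← Finset.sum_sub_distrib]
    refine Finset.sum_congr rfl fun i _ => ?_
    rw [← Finset.sum_sub_distrib]
  have hΛ : ∑ ν ∈ S, (∑ w ∈ above L ν, (q * Real.log (sn w ![y, 1]) - Real.log (nv w (aeval y g))))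
          / (finrank k L : ℝ) = Lam / r := by
    rw [hL, hLam, Finset.sum_div]
  have a1 := le_abs_self ((2 * r + ε) * c2 + c1)
  have a2 := le_abs_self ((2 + ε) * c2 + c1)
  have a3 := le_abs_self (c4 + ∑ ν ∈ S, c3 ν)
  have a4 := abs_nonneg ((2 * r + ε) * c2 + c1)
  have a5 := abs_nonneg ((2 + ε) * c2 + c1)
  have a6 := abs_nonneg (c4 + ∑ ν ∈ S, c3 ν)
  constructor
  · have e5 : M / d + E1 / d / (2 * r - 2) = (M + e * E1) / d := by
      rw [he, add_div, one_div, div_div, inv_mul_eq_div, div_div, mul_comm d]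
    rw [e5, div_le_iff₀ hdpos]
    have b1 : (2 * r + ε) * V ≤ (2 * r + ε) * (h + c2) := mul_le_mul_of_nonneg_left A2 (by positivity)
    have b2 : d * ((2 * r + ε) * V + c1) ≤ d * ((2 * r + ε) * h +
        (|(2 * r + ε) * c2 + c1| + (|(2 + ε) * c2 + c1| + |c4 + ∑ ν ∈ S, c3 ν|))) := by
      apply mul_le_mul_of_nonneg_left _ hdpos.le
      linarith
    linarith [A1', b2, mul_comm d ((2 * r + ε) * h +
        (|(2 * r + ε) * c2 + c1| + (|(2 + ε) * c2 + c1| + |c4 + ∑ ν ∈ S, c3 ν|)))]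
  · rw [hΛ, hL]
    set c : ℝ := |(2 * r + ε) * c2 + c1| + (|(2 + ε) * c2 + c1| + |c4 + ∑ ν ∈ S, c3 ν|) with hc
    have hc0 : 0 ≤ c := by positivity
    have b1 : (2 + ε) * V ≤ (2 + ε) * (h + c2) := mul_le_mul_of_nonneg_left A2 (by positivity)
    have b2 : d * ((2 + ε) * V) ≤ d * ((2 + ε) * (h + c2)) := mul_le_mul_of_nonneg_left b1 hdpos.le
    have b3 : d * Lam ≤ d * F + (1 - e) * E1 + d * ((2 + ε) * (h + c2)) + d * c1 + (c4 + ∑ ν ∈ S, c3 ν) := by
      have e1 : d * ((2 * r + ε) * V + c1) = d * ((2 * r - 2) * V) + d * ((2 + ε) * V) + d * c1 := by ring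
      rw [e1] at A1'
      have e6 : (1 - e) * E1 = (E0 - O) - e * E1 := by rw [← hE]; ring
      rw [e6]
      linarith
    have b4 : (c4 + ∑ ν ∈ S, c3 ν) ≤ d * |c4 + ∑ ν ∈ S, c3 ν| := by
      refine a3.trans ?_
      nlinarith
    have b5 : d * Lam ≤ d * (F + (1 - e) * E1 / d + (2 + ε) * h + ((2 + ε) * c2 + c1 + |c4 + ∑ ν ∈ S, c3 ν|)) := by
      have e2 : d * (F + (1 - e) * E1 / d + (2 + ε) * h + ((2 + ε) * c2 + c1 + |c4 + ∑ ν ∈ S, c3 ν|)) =
          d * F + (1 - e) * E1 + d * ((2 + ε) * (h + c2)) + d * c1 + d * |c4 + ∑ ν ∈ S, c3 ν| := by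
        field_simp
        ring
      rw [e2]
      linarith
    have b6 : Lam ≤ F + (1 - e) * E1 / d + (2 + ε) * h + ((2 + ε) * c2 + c1 + |c4 + ∑ ν ∈ S, c3 ν|) :=
      le_of_mul_le_mul_left b5 hdpos
    have b7 : c ≤ r * c := by nlinarith
    have b8 : Lam ≤ F + (1 - e) * E1 / d + (2 + ε) * h + r * c := by linarith
    have e3 : -(2 * (h / r)) + Lam / r = (Lam - 2 * h) / r := by field_simp; ring
    have e4 : ε * (h / r) + F / r + (1 - e) * (E1 / (d * r)) + c =
        (F + (1 - e) * E1 / d + ε * h + r * c) / r := by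
      field_simp
      ring
    rw [e3, e4]
    apply div_le_div_of_nonneg_right _ hr0.le
    linarith

end Pool.Agent.Helper61.AD2
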