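import Pool.Agent.Helper61.AD2.RootLoc
import Pool.Agent.Helper61.AD.Sep
import Pool.Agent.Helper61.AD.Tower
import Pool.Agent.Helper61.AD.Gs
import Pool.Agent.Helper61.AD.Tay

/-!
# Block AD2-GR: product formula for one root

Proof. Constants: `c1 v` from `cl_sep` for `v ∈ T` (bounds the minimum for `w ∈ above N v`), and
`log sn w ![algebraMap b, 1] = ldeg v w * log sn v ![b, 1] ≤ D * log sn v ![b, 1]` (`sn_above`); `c0 ≥ 0` = maximum (or
sum) over the finitely many `v ∈ T`, `p ∈ A`. `root_local` with `A' = img N A` (card `≤ A.card`; a point `p' ∈ A'` is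
`p.map (algebraMap K N)`), `κ_w = ldeg v w * κ v`, `M p' s = ldeg v w * μ v p s` (choose a preimage `p` of `p'`; the map is
injective) and `B_N = B.map (algebraMap K N)`: `tay_map`, `nv_above` give
`nv w ((tay p' r B_N).coeff s) = nv v (..)^ldeg ≤ exp (ldeg (κ v - μ v p s))`. So for `w ∈ above N v`, `v ∈ T`:
`log nv w (B(x i)) ≤ r log sn w ![x i,1] + ldeg κ v + C0 - fw`. For `w` over no `v ∈ T` (then `w` is finite, and lies over
some `v ∉ T`, `Helper52.Vojta.exists_below`): coefficients of `B_N` have `nv w ≤ 1`, so `nv w (B(x i)) ≤ sn w ![x i,1]^r`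
(`nv_sum_le_inr`). Product formula `gsum_nv : gsum (log nv w (B (x i))) = 0`, and `gsum (log sn w ![x i,1]) = vH ![x i,1]`.
`∑_{w ∈ above N v} ldeg v w = finrank K N` (`sum_ldeg`), number of `w` over `T` is at most `T.card * finrank K N`.
`gsum_le_sum` in `AD/Gs.lean` compares a global sum with a finite one. The sets `above N v`, `v ∈ T`, are disjoint
(`above_unique`); `upW N T` is their union and `sum_upW` the double sum.
-/

namespace Pool.Agent.Helper61.AD2

open NumberField Finset Polynomial Module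
open Pool.Agent.Helper64.Vojta (Pl nv sn above)
open Pool.Agent.Helper61.AD (cl tay)
open Pool.Agent.Helper52.Vojta (ldeg)
open Pool.Agent.V2 (vn vH)

universe u

namespace GR

open Pool.Agent.V2 (gsum FinS finS_nv gsum_nv finS_vn gsum_add gsum_const_mul)
open Pool.Agent.Helper52.Vojta (upW sum_upW exists_below nv_above sum_ldeg)
open Pool.Agent.Helper64.Vojta (nv_nonneg nv_one nv_zero nv_pos nv_mul le_sn nv_sum_le_inr card_above_le)
open Pool.Agent.Helper61.AD (gsum_le_sum tay_map inl_mem_upW cl_sep)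

theorem nv_pow {N : Type*} [Field N] [NumberField N] (w : Pl N) (y : N) (s : ℕ) :
    nv w (y ^ s) = nv w y ^ s := by
  induction s with
  | zero => rw [pow_zero, pow_zero, nv_one]
  | succ n ih => rw [pow_succ, pow_succ, nv_mul, ih]

/-- value of a polynomial with integral coefficients at a finite place -/
theorem eval_fin {N : Type u} [Field N] [NumberField N] (w : FinitePlace N) (r : ℕ) (P : N[X])
    (hP : P.natDegree ≤ r) (h : ∀ s, nv (.inr w) (P.coeff s) ≤ 1) (y : N) :
    nv (.inr w) (P.eval y) ≤ sn (.inr w) ![y, 1] ^ r := by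
  have h1 := Helper61.AD.SA.one_le (.inr w) y
  rw [eval_eq_sum_range' (Nat.lt_succ_of_le hP)]
  refine nv_sum_le_inr w _ _ _ (by positivity) fun s hs => ?_
  have hs' : s ≤ r := Nat.lt_succ_iff.mp (Finset.mem_range.mp hs)
  rw [nv_mul, nv_pow]
  have h2 : nv (.inr w) y ≤ sn (.inr w) ![y, 1] := le_sn _ ![y, 1] 0
  calc nv (.inr w) (P.coeff s) * nv (.inr w) y ^ s ≤ 1 * sn (.inr w) ![y, 1] ^ s :=
        mul_le_mul (h s) (pow_le_pow_left₀ (nv_nonneg _ _) h2 s) (pow_nonneg (nv_nonneg _ _) _)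
          zero_le_one
    _ = sn (.inr w) ![y, 1] ^ s := one_mul _
    _ ≤ sn (.inr w) ![y, 1] ^ r := pow_le_pow_right₀ h1 hs'

theorem log_eval_fin {N : Type u} [Field N] [NumberField N] (w : FinitePlace N) (r : ℕ) (P : N[X])
    (hP : P.natDegree ≤ r) (h : ∀ s, nv (.inr w) (P.coeff s) ≤ 1) (y : N) (hy : P.eval y ≠ 0) :
    Real.log (nv (.inr w) (P.eval y)) ≤ r * Real.log (sn (.inr w) ![y, 1]) := by
  have h1 := Real.log_le_log (nv_pos _ hy) (eval_fin w r P hP h y)
  rwa [Real.log_pow] at h1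

section

variable {K : Type u} [Field K] [NumberField K] {N : Type u} [Field N] [NumberField N] [Algebra K N]

/-- the coefficients stay integral -/
theorem coeff_le_one {v : Pl K} {w : Pl N} (hw : w ∈ above N v) (B : K[X])
    (h : ∀ s, nv v (B.coeff s) ≤ 1) (s : ℕ) : nv w ((B.map (algebraMap K N)).coeff s) ≤ 1 := by
  rw [coeff_map, nv_above hw]
  exact pow_le_one₀ (nv_nonneg _ _) (h s)

/-- the bound for the Taylor coefficients over the larger field -/
theorem tay_bound {v : Pl K} {w : Pl N} (hw : w ∈ above N v) (B : K[X]) (p : Option K) (r s : ℕ)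
    (κ μ : ℝ) (h : nv v ((tay p r B).coeff s) ≤ Real.exp (κ - μ)) :
    nv w ((tay (p.map (algebraMap K N)) r (B.map (algebraMap K N))).coeff s) ≤
      Real.exp (ldeg v w * κ - ldeg v w * μ) := by
  rw [tay_map, coeff_map, nv_above hw, ← mul_sub, Real.exp_nat_mul]
  exact pow_le_pow_left₀ (nv_nonneg _ _) h _

omit [NumberField K] [NumberField N] in
theorem card_img_le (A : Finset (Option K)) : (img N A).card ≤ A.card := by
  classical
  unfold img
  exact Finset.card_image_le

omit [NumberField K] [NumberField N] in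
theorem mem_img {A : Finset (Option K)} {q : Option N} :
    q ∈ img N A ↔ ∃ p ∈ A, p.map (algebraMap K N) = q := by
  classical
  unfold img
  exact Finset.mem_image

theorem log_sn_img_le {v : Pl K} {w : Pl N} (hw : w ∈ above N v) {D : ℕ} (hD : finrank K N ≤ D)
    (p : Option K) : Real.log (sn w ![(p.map (algebraMap K N)).getD 0, 1]) ≤
      D * Real.log (sn v ![p.getD 0, 1]) := by
  have h1 : (p.map (algebraMap K N)).getD 0 = algebraMap K N (p.getD 0) := by
    cases p with
    | none => exact (map_zero _).symm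
    | some a => rfl
  rw [h1]
  exact Helper61.AD.SA.log_sn_le hw hD _

/-- the global inequality from the local ones -/
theorem glob (T : Finset (Pl K)) (hT : ∀ v : InfinitePlace K, Sum.inl v ∈ T) (κ : Pl K → ℝ)
    (C1 : ℝ) (F G : Pl N → ℝ) (hF : FinS F) (H : ℝ) (hH : gsum F = -H)
    (h1 : ∀ v ∈ T, ∀ w ∈ above N v, F w ≤ ldeg v w * κ v + C1 - G w)
    (h2 : ∀ v, v ∉ T → ∀ w : FinitePlace N, Sum.inr w ∈ above N v → F (.inr w) ≤ 0) :
    ∑ v ∈ T, ∑ w ∈ above N v, G w ≤ finrank K N * (∑ v ∈ T, κ v + T.card * |C1|) + H := by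
  classical
  have h3 : gsum F ≤ ∑ w ∈ upW N T, F w := by
    refine gsum_le_sum (upW N T) hF (fun _ _ => le_refl _) fun w hw => ?_
    rcases w with w | w
    · exact absurd (inl_mem_upW T hT w) hw
    · obtain ⟨v, hv⟩ := exists_below (L := K) (.inr w : Pl N)
      refine h2 v (fun hvT => hw ?_) w hv
      unfold upW
      exact Finset.mem_biUnion.mpr ⟨v, hvT, hv⟩
  rw [sum_upW, hH] at h3
  have h4 : ∑ v ∈ T, ∑ w ∈ above N v, F w ≤
      ∑ v ∈ T, (finrank K N * κ v + finrank K N * |C1| - ∑ w ∈ above N v, G w) := by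
    refine Finset.sum_le_sum fun v hv => ?_
    calc ∑ w ∈ above N v, F w ≤ ∑ w ∈ above N v, (ldeg v w * κ v + C1 - G w) :=
          Finset.sum_le_sum fun w hw => h1 v hv w hw
      _ = (∑ w ∈ above N v, (ldeg v w : ℝ)) * κ v + (above N v).card * C1 - ∑ w ∈ above N v, G w := by
          rw [Finset.sum_sub_distrib, Finset.sum_add_distrib, Finset.sum_mul, Finset.sum_const,
            nsmul_eq_mul]
      _ ≤ finrank K N * κ v + finrank K N * |C1| - ∑ w ∈ above N v, G w := by
          have h5 : (∑ w ∈ above N v, (ldeg v w : ℝ)) = finrank K N := by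
            rw [← sum_ldeg (L' := N) v]; push_cast; rfl
          have h6 : ((above N v).card : ℝ) * C1 ≤ finrank K N * |C1| := by
            have h7 : ((above N v).card : ℝ) ≤ finrank K N := by
              exact_mod_cast card_above_le (L := N) v
            calc ((above N v).card : ℝ) * C1 ≤ (above N v).card * |C1| :=
                  mul_le_mul_of_nonneg_left (le_abs_self _) (Nat.cast_nonneg _)
              _ ≤ _ := mul_le_mul_of_nonneg_right h7 (abs_nonneg _)
          rw [h5]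
          linarith
  rw [Finset.sum_sub_distrib, Finset.sum_add_distrib, ← Finset.mul_sum, Finset.sum_const,
    nsmul_eq_mul] at h4
  linarith

end

theorem main {K : Type u} [Field K] [NumberField K] (r : ℕ) (A : Finset (Option K))
    (hA : A.Nonempty) (T : Finset (Pl K)) (hT : ∀ v : InfinitePlace K, Sum.inl v ∈ T) (D : ℕ) :
    ∃ C0 : ℝ, ∀ (N : Type u) [Field N] [NumberField N] [Algebra K N], finrank K N ≤ D →
      ∀ x : Fin r → N, (∀ i, ∀ p ∈ A, p.map (algebraMap K N) ≠ some (x i)) →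
      ∀ (μ : Pl K → Option K → ℕ → ℝ) (κ : Pl K → ℝ),
      (∀ v ∈ T, ∀ w ∈ above N v, ∀ p ∈ A, ∀ s ≤ r, ∃ I : Finset (Fin r), I.card = r - s ∧
        ∑ i ∈ I, max 0 (cl w (x i) (p.map (algebraMap K N))) ≤ ldeg v w * μ v p s) →
      ∀ B : K[X], B.natDegree ≤ r →
      (∀ v ∈ T, ∀ p ∈ A, ∀ s ≤ r, nv v ((tay p r B).coeff s) ≤ Real.exp (κ v - μ v p s)) →
      (∀ v : Pl K, v ∉ T → ∀ s, nv v (B.coeff s) ≤ 1) →
      ∀ i, aeval (x i) B ≠ 0 →
      ∑ v ∈ T, ∑ w ∈ above N v, fw (img N A) w x i ≤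
        finrank K N * (∑ v ∈ T, κ v + C0) + r * vH ![x i, 1] := by
  classical
  have hsep := fun v : Pl K => cl_sep v A D
  choose c hc using hsep
  set c0 : ℝ := ∑ v ∈ T, (|c v| + ∑ p ∈ A, D * Real.log (sn v ![p.getD 0, 1])) with hc0def
  have hterm0 : ∀ v : Pl K, ∀ p : Option K, 0 ≤ (D : ℝ) * Real.log (sn v ![p.getD 0, 1]) :=
    fun v p => mul_nonneg (Nat.cast_nonneg _) (Real.log_nonneg (Helper61.AD.SA.one_le v _))
  have hterm1 : ∀ v : Pl K, 0 ≤ ∑ p ∈ A, (D : ℝ) * Real.log (sn v ![p.getD 0, 1]) :=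
    fun v => Finset.sum_nonneg fun p _ => hterm0 v p
  have hc0 : 0 ≤ c0 := Finset.sum_nonneg fun v _ => add_nonneg (abs_nonneg _) (hterm1 v)
  have hle : ∀ v ∈ T, |c v| + ∑ p ∈ A, (D : ℝ) * Real.log (sn v ![p.getD 0, 1]) ≤ c0 := fun v hv =>
    Finset.single_le_sum
      (f := fun v => |c v| + ∑ p ∈ A, (D : ℝ) * Real.log (sn v ![p.getD 0, 1]))
      (fun v _ => add_nonneg (abs_nonneg _) (hterm1 v)) hv
  obtain ⟨C1, hC1⟩ := root_local.{u} r A.card c0 hc0
  refine ⟨T.card * |C1|, fun N _ _ _ hD x hx μ κ hI B hB hBμ hBint i hi => ?_⟩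
  have heval : (B.map (algebraMap K N)).eval (x i) = aeval (x i) B := by
    rw [eval_map_algebraMap]
  have hne : (B.map (algebraMap K N)).eval (x i) ≠ 0 := by rw [heval]; exact hi
  have hx1 : (![x i, 1] : Fin 2 → N) ≠ 0 := fun h => one_ne_zero (congrFun h 1)
  have hdeg : (B.map (algebraMap K N)).natDegree ≤ r := natDegree_map_le.trans hB
  have hinj : Function.Injective (Option.map (algebraMap K N)) :=
    Option.map_injective (algebraMap K N).injective
  have hF1 : FinS fun w : Pl N => -(r : ℝ) * Real.log (vn w ![x i, 1]) :=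
    (finS_vn hx1).const_mul _
  have hF2 : FinS fun w : Pl N => Real.log (nv w ((B.map (algebraMap K N)).eval (x i))) := finS_nv hne
  have hH : gsum (fun w : Pl N => Real.log (nv w ((B.map (algebraMap K N)).eval (x i))) +
      -(r : ℝ) * Real.log (vn w ![x i, 1])) = -(r * vH ![x i, 1]) := by
    rw [gsum_add hF2 hF1, gsum_nv hne, gsum_const_mul]
    unfold vH
    ring
  refine glob T hT κ C1 _ (fun w => fw (img N A) w x i) (hF2.add hF1) _ hH ?_ ?_
  · intro v hv w hw
    have h1 := hC1 N w (img N A) ?_ (card_img_le A) ?_ x ?_ ?_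
      (fun q s => ldeg v w * μ v (Function.invFun (Option.map (algebraMap K N)) q) s) (ldeg v w * κ v) ?_
      (B.map (algebraMap K N)) hdeg ?_ i hne
    · have h2 : Real.log (vn w ![x i, 1]) = Real.log (sn w ![x i, 1]) := rfl
      rw [h2]
      linarith
    · obtain ⟨p, hp⟩ := hA
      exact ⟨_, mem_img.mpr ⟨p, hp, rfl⟩⟩
    · intro q hq
      obtain ⟨p, hp, rfl⟩ := mem_img.mp hq
      refine (log_sn_img_le hw hD p).trans (le_trans ?_ (hle v hv))
      have h3 : (D : ℝ) * Real.log (sn v ![p.getD 0, 1]) ≤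
          ∑ p ∈ A, (D : ℝ) * Real.log (sn v ![p.getD 0, 1]) :=
        Finset.single_le_sum (f := fun p : Option K => (D : ℝ) * Real.log (sn v ![p.getD 0, 1]))
          (fun p _ => hterm0 v p) hp
      have h4 := abs_nonneg (c v)
      linarith
    · intro j q hq
      obtain ⟨p, hp, rfl⟩ := mem_img.mp hq
      exact hx j p hp
    · intro j q hq q' hq' hqq
      obtain ⟨p, hp, rfl⟩ := mem_img.mp hq
      obtain ⟨p', hp', rfl⟩ := mem_img.mp hq'
      have hpp : p ≠ p' := fun h => hqq (by rw [h])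
      refine (hc v N hD w hw (x j) p hp p' hp' hpp (hx j p hp) (hx j p' hp')).trans ?_
      have h3 := hle v hv
      have h4 := hterm1 v
      have h5 := le_abs_self (c v)
      linarith
    · intro q hq s hs
      obtain ⟨p, hp, rfl⟩ := mem_img.mp hq
      rw [Function.leftInverse_invFun hinj p]
      exact hI v hv w hw p hp s hs
    · intro q hq s hs
      obtain ⟨p, hp, rfl⟩ := mem_img.mp hq
      rw [Function.leftInverse_invFun hinj p]
      exact tay_bound hw B p r s (κ v) (μ v p s) (hBμ v hv p hp s hs)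
  · intro v hv w hw
    have h1 := log_eval_fin w r (B.map (algebraMap K N)) hdeg
      (fun s => coeff_le_one hw B (hBint v hv) s) (x i) hne
    have h2 : Real.log (vn (.inr w) ![x i, 1]) = Real.log (sn (.inr w) ![x i, 1]) := rfl
    change Real.log (nv (.inr w) ((B.map (algebraMap K N)).eval (x i))) +
      -(r : ℝ) * Real.log (vn (.inr w) ![x i, 1]) ≤ 0
    rw [h2]
    linarith

end GR

theorem root_global {K : Type u} [Field K] [NumberField K] (r : ℕ) (A : Finset (Option K))
    (hA : A.Nonempty) (T : Finset (Pl K)) (hT : ∀ v : InfinitePlace K, Sum.inl v ∈ T) (D : ℕ) :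
    ∃ C0 : ℝ, ∀ (N : Type u) [Field N] [NumberField N] [Algebra K N], finrank K N ≤ D →
      ∀ x : Fin r → N, (∀ i, ∀ p ∈ A, p.map (algebraMap K N) ≠ some (x i)) →
      ∀ (μ : Pl K → Option K → ℕ → ℝ) (κ : Pl K → ℝ),
      (∀ v ∈ T, ∀ w ∈ above N v, ∀ p ∈ A, ∀ s ≤ r, ∃ I : Finset (Fin r), I.card = r - s ∧
        ∑ i ∈ I, max 0 (cl w (x i) (p.map (algebraMap K N))) ≤ ldeg v w * μ v p s) →
      ∀ B : K[X], B.natDegree ≤ r →
      (∀ v ∈ T, ∀ p ∈ A, ∀ s ≤ r, nv v ((tay p r B).coeff s) ≤ Real.exp (κ v - μ v p s)) →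
      (∀ v : Pl K, v ∉ T → ∀ s, nv v (B.coeff s) ≤ 1) →
      ∀ i, aeval (x i) B ≠ 0 →
      ∑ v ∈ T, ∑ w ∈ above N v, fw (img N A) w x i ≤
        finrank K N * (∑ v ∈ T, κ v + C0) + r * vH ![x i, 1] :=
  GR.main r A hA T hT D

end Pool.Agent.Helper61.AD2
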