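import Pool.Agent.Helper61.AD2.FinalB

/-!
# The excess is bounded below
-/

namespace Pool.Agent.Helper61.AD2

open NumberField Finset Polynomial Module
open Pool.Agent.Helper64.Vojta (Pl nv sn above nv_pos)
open Pool.Agent.Helper61.AD
open Pool.Agent.Helper52.Vojta (upW ldeg)
open Pool.Agent.V2 (vn vH)

universe u

section

variable {N : Type u} [Field N] [NumberField N]

/-- chordal triangle inequality -/
theorem tri' (w : Pl N) (x y : N) (p : Option N) (hxy : x ≠ y) (hx : p ≠ some x) (hy : p ≠ some y) :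
    min (cl w x p) (cl w y p) - Real.log 4 ≤ cl w x (some y) := by
  rcases p with _ | b
  · have h1 := PLA.one_le w x
    have h2 := PLA.one_le w y
    have hx0 : nv w x ≤ sn w ![x, 1] := Pool.Agent.Helper64.Vojta.le_sn w ![x, 1] 0
    have hy0 : nv w y ≤ sn w ![y, 1] := Pool.Agent.Helper64.Vojta.le_sn w ![y, 1] 0
    have h3 : nv w (x - y) ≤ 4 * max (sn w ![x, 1]) (sn w ![y, 1]) := by
      rw [sub_eq_add_neg]
      refine (PLA.nv_add_le w x (-y)).trans ?_
      rw [PLA.nv_neg]
      exact mul_le_mul_of_nonneg_left (max_le_max hx0 hy0) (by norm_num)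
    have h4 : 0 < nv w (x - y) := nv_pos w (sub_ne_zero.mpr hxy)
    have h5 := Real.log_le_log h4 h3
    rw [Real.log_mul (by norm_num) (by positivity)] at h5
    change min (Real.log (sn w ![x, 1])) (Real.log (sn w ![y, 1])) - Real.log 4 ≤
      Real.log (sn w ![x, 1]) + Real.log (sn w ![y, 1]) - Real.log (nv w (x - y))
    rcases le_total (sn w ![x, 1]) (sn w ![y, 1]) with h | h
    · rw [max_eq_right h] at h5
      have := min_le_left (Real.log (sn w ![x, 1])) (Real.log (sn w ![y, 1]))
      linarith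
    · rw [max_eq_left h] at h5
      have := min_le_right (Real.log (sn w ![x, 1])) (Real.log (sn w ![y, 1]))
      linarith
  · have hxb : x ≠ b := fun h => hx (by rw [h])
    have hyb : y ≠ b := fun h => hy (by rw [h])
    have h1 := PLA.tri w x b (some y) hxb (fun h => hxy (Option.some.inj h).symm)
      (fun h => hyb (Option.some.inj h))
    rw [PLA.cl_symm w b y] at h1
    rw [min_comm]
    exact h1

theorem exc_ge (w : Pl N) (A : Finset (Option N)) (c0 : ℝ) (hc0 : 0 ≤ c0) (x y : N) (hxy : x ≠ y)
    (hx : ∀ p ∈ A, p ≠ some x) (hy : ∀ p ∈ A, p ≠ some y)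
    (hsep : ∀ p ∈ A, ∀ p' ∈ A, p ≠ p' → min (cl w x p) (cl w x p') ≤ c0) :
    -(Real.log 4 + A.card * c0) ≤ exc A w x y := by
  classical
  unfold exc
  have hl4 : 0 ≤ Real.log 4 := Real.log_nonneg (by norm_num)
  rcases A.eq_empty_or_nonempty with hA | hA
  · subst hA
    have := cl_ge w x (some y) (fun h => hxy (Option.some.inj h).symm)
    simp only [Finset.sum_empty, Finset.card_empty, Nat.cast_zero, zero_mul]
    linarith
  · obtain ⟨p, hp, hmax⟩ := A.exists_max_image (fun p => min (cl w x p) (cl w y p)) hA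
    rw [← Finset.add_sum_erase A _ hp]
    have h1 : ∑ p' ∈ A.erase p, min (cl w x p') (cl w y p') ≤ ∑ p' ∈ A.erase p, c0 := by
      refine Finset.sum_le_sum fun p' hp' => ?_
      obtain ⟨hne, hpA⟩ := Finset.mem_erase.mp hp'
      have h2 := hmax p' hpA
      have h3 := hsep p' hpA p hp hne
      refine le_trans (le_min (min_le_left _ _) ?_) h3
      exact h2.trans (min_le_left _ _)
    rw [Finset.sum_const, nsmul_eq_mul] at h1
    have h4 : ((A.erase p).card : ℝ) * c0 ≤ A.card * c0 := by
      refine mul_le_mul_of_nonneg_right ?_ hc0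
      exact_mod_cast Finset.card_le_card (Finset.erase_subset _ _)
    have h5 := tri' w x y p hxy (hx p hp) (hy p hp)
    linarith

end

/-- the sum of the excesses is bounded below, uniformly -/
theorem exs_lower {k : Type u} [Field k] [NumberField k] (g : k[X]) (hg : g ≠ 0) (q : ℕ)
    (S : Finset (Pl k)) (r : ℕ) (D : ℕ) :
    ∃ c : ℝ, 0 ≤ c ∧ ∀ (N : Type u) [Field N] [NumberField N] [Algebra k N], finrank k N ≤ D →
      (g.map (algebraMap k N)).Splits → ∀ x : Fin r → N, Function.Injective x →
      (∀ i, ∀ p ∈ pts g q N, p ≠ some (x i)) →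
      -(finrank k N * c) ≤ ∑ ν ∈ S, ∑ w ∈ above N ν, exs (pts g q N) w x := by
  classical
  let K := IntermediateField.adjoin k (g.rootSet (AlgebraicClosure k))
  have hNF : NumberField K := nf_adjoin g hg
  have hspf : g.IsSplittingField k K :=
    IntermediateField.adjoin_rootSet_isSplittingField (IsAlgClosed.splits _)
  have hspK : (g.map (algebraMap k K)).Splits := hspf.splits'
  choose cs hcs using fun v : Pl K => cl_sep.{u} v (pts g q K) D
  let c0 : ℝ := ∑ v ∈ upW K S, |cs v|
  have hc0 : 0 ≤ c0 := Finset.sum_nonneg fun _ _ => abs_nonneg _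
  have hl4 : 0 ≤ Real.log 4 := Real.log_nonneg (by norm_num)
  let e : ℝ := Real.log 4 + (g.natDegree + 1 : ℕ) * c0
  have he : 0 ≤ e := by positivity
  refine ⟨S.card * (r * (r * e)), by positivity, fun N _ _ _ hD hspN x hinj hx => ?_⟩
  obtain ⟨φ⟩ := exists_lift g N hspN
  letI : Algebra K N := φ.toRingHom.toAlgebra
  have htower : IsScalarTower k K N := IsScalarTower.of_algebraMap_eq' φ.comp_algebraMap.symm
  have hfdk : FiniteDimensional k N := FiniteDimensional.right ℚ k N
  have hfdK : FiniteDimensional K N := FiniteDimensional.right k K N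
  have hfin : finrank k K * finrank K N = finrank k N := finrank_mul_finrank k K N
  have hDK : finrank K N ≤ D := by
    refine le_trans ?_ hD
    rw [← hfin]
    exact Nat.le_mul_of_pos_left _ finrank_pos
  have himg : img N (pts g q K) = pts g q N := img_pts g hspK q
  have hexc : ∀ ν ∈ S, ∀ w ∈ above N ν, ∀ i j, i ≠ j → -e ≤ exc (pts g q N) w (x i) (x j) := by
    intro ν hν w hw i j hij
    -- the place of `K` below `w`
    obtain ⟨v, hv⟩ := Pool.Agent.Helper52.Vojta.exists_below (L := K) w
    have hvT : v ∈ upW K S := by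
      obtain ⟨ν', hν'⟩ := Pool.Agent.Helper52.Vojta.exists_below (L := k) v
      have h1 := above_trans hν' hv
      have h2 : ν' = ν := Pool.Agent.Helper64.Vojta.above_unique
        (Pool.Agent.Helper64.Vojta.mem_above.mp h1) (Pool.Agent.Helper64.Vojta.mem_above.mp hw)
      subst h2
      unfold upW
      rw [Finset.mem_biUnion]
      exact ⟨ν', hν, hν'⟩
    have hsep : ∀ p ∈ pts g q N, ∀ p' ∈ pts g q N, p ≠ p' →
        min (cl w (x i) p) (cl w (x i) p') ≤ c0 := by
      intro p hp p' hp' hne
      rw [← himg] at hp hp'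
      unfold img at hp hp'
      rw [Finset.mem_image] at hp hp'
      obtain ⟨p1, hp1, rfl⟩ := hp
      obtain ⟨p2, hp2, rfl⟩ := hp'
      have hm : ∀ p ∈ pts g q K, p.map (algebraMap K N) ≠ some (x i) := by
        intro p hp
        refine hx i _ ?_
        rw [← himg]
        unfold img
        exact Finset.mem_image_of_mem _ hp
      refine (hcs v N hDK w hv (x i) p1 hp1 p2 hp2 (fun h => hne (by rw [h])) (hm p1 hp1)
        (hm p2 hp2)).trans ?_
      exact (le_abs_self _).trans
        (Finset.single_le_sum (f := fun v => |cs v|) (fun _ _ => abs_nonneg _) hvT)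
    have h1 := exc_ge w (pts g q N) c0 hc0 (x i) (x j) (fun h => hij (hinj h)) (hx i) (hx j) hsep
    refine le_trans ?_ h1
    have h2 : ((pts g q N).card : ℝ) ≤ (g.natDegree + 1 : ℕ) := by
      exact_mod_cast card_pts_le g q
    have h3 := mul_le_mul_of_nonneg_right h2 hc0
    simp only [e]
    linarith
  have hexs : ∀ ν ∈ S, ∀ w ∈ above N ν, -(r * (r * e)) ≤ exs (pts g q N) w x := by
    intro ν hν w hw
    unfold exs
    have h1 : ∀ i : Fin r, -(r * e) ≤ ∑ j ∈ Finset.univ.erase i, exc (pts g q N) w (x i) (x j) := by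
      intro i
      have h2 : ∑ j ∈ (Finset.univ : Finset (Fin r)).erase i, (-e) ≤
          ∑ j ∈ Finset.univ.erase i, exc (pts g q N) w (x i) (x j) :=
        Finset.sum_le_sum fun j hj => hexc ν hν w hw i j (Finset.ne_of_mem_erase hj).symm
      rw [Finset.sum_const, nsmul_eq_mul] at h2
      have h3 : (((Finset.univ : Finset (Fin r)).erase i).card : ℝ) ≤ r := by
        have h4 := Finset.card_le_card (Finset.erase_subset i (Finset.univ : Finset (Fin r)))
        rw [Finset.card_univ, Fintype.card_fin] at h4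
        exact_mod_cast h4
      nlinarith
    have h2 := Finset.sum_le_sum fun (i : Fin r) (_ : i ∈ Finset.univ) => h1 i
    rw [Finset.sum_const, Finset.card_univ, Fintype.card_fin, nsmul_eq_mul] at h2
    linarith
  have h1 : ∑ ν ∈ S, ∑ _w ∈ above N ν, (-(r * (r * e))) ≤
      ∑ ν ∈ S, ∑ w ∈ above N ν, exs (pts g q N) w x :=
    Finset.sum_le_sum fun ν hν => Finset.sum_le_sum fun w hw => hexs ν hν w hw
  refine le_trans ?_ h1
  have h2 : ∀ ν : Pl k, -(finrank k N * (r * (r * e))) ≤ ∑ _w ∈ above N ν, (-(r * (r * e))) := by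
    intro ν
    rw [Finset.sum_const, nsmul_eq_mul]
    have h3 : ((above N ν).card : ℝ) ≤ finrank k N := by
      exact_mod_cast Pool.Agent.Helper64.Vojta.card_above_le ν
    have h4 : 0 ≤ r * (r * e) := by positivity
    nlinarith
  have h3 := Finset.sum_le_sum fun (ν : Pl k) (_ : ν ∈ S) => h2 ν
  rw [Finset.sum_const, nsmul_eq_mul] at h3
  linarith

end Pool.Agent.Helper61.AD2
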