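import Pool.Agent.Helper61.AD2.Defs2
import Pool.Agent.Helper61.AD.Tay

/-!
# Block AD2-DB: a 2x2 minor of values at two points which are close to each other and to `p`

Proof. Let `l = min (cl w x p) (cl w y p)`, `T_s`, `T'_s` the coefficients of `tay p r B`, `tay p r B'`;
`nv w T_s ≤ E exp (s l)`, same for `T'_s`.
`p = some a`: with `u = x - a`, `v = y - a`:
`B(x)B'(y) - B'(x)B(y) = ∑_{s, s'} T_s T'_{s'} (u^s v^{s'} - u^{s'} v^s)`; for `s < s'`:
`u^s v^{s'} - u^{s'} v^s = (uv)^s (v - u) ∑_{i + j = s' - s - 1} u^i v^j` (`Commute.geom_sum₂_mul` / `geom_sum₂`), for `s > s'`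
minus the same with `s`, `s'` exchanged, `0` for `s = s'`. Every monomial is `u^(s+i) v^(s+j)`, of total degree `s+s'-1`,
`s+i+1 ≤ r`, `s+j+1 ≤ r`; `nv w u = sn x * sn a * exp (- cl w x p) ≤ sn x * sn a * exp (-l)`, same for `v`, and
`nv w (v - u) = nv w (x - y) = sn x * sn y * exp (- cl w x (some y))`. So the monomial times `(v-u)` is at most
`sn x^r sn y^r sn a^(2r) exp (- cl w x (some y)) exp (-l (s+s'-1))` and `E exp (s l) * E exp (s' l)` gives the bound.
`p = none`: `B(x) = ∑_s T_s x^(r-s)`; `x^(r-s) y^(r-s') - x^(r-s') y^(r-s) = (xy)^(r-s') (x^(s'-s) - y^(s'-s))`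
(`s < s'`) `= (x - y) ∑ x^(r-s'+i) y^(r-s'+j)`, and
`nv w (x^(r-s'+i)) ≤ sn x^(r-1) * sn x^(-(s'-1-i)) ≤ sn x^(r-1) exp (-l (s'-1-i))` because
`sn x = exp (cl w x none) ≥ exp l`; same for `y`; the exponents add up to `s+s'-1`.
Number of terms at most `(r+1)^2 * r`; use `nv_sum_le` (constant `(card+1)^2`) twice. The constant depends on `r` only.
-/

namespace Pool.Agent.Helper61.AD2

open NumberField Finset Polynomial Module
open Pool.Agent.Helper64.Vojta (Pl nv sn above)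
open Pool.Agent.Helper61.AD (cl tay)

universe u

namespace PBd

open Pool.Agent.Helper64.Vojta (nv_nonneg nv_pos nv_one nv_mul nv_zero le_sn nv_sum_le)

theorem real_some {X Y A q D a b : ℝ} (hX : 1 ≤ X) (hY : 1 ≤ Y) (hA : 1 ≤ A) (hq : 0 < q)
    (hD : 0 ≤ D) (ha : 0 ≤ a) (hb : 0 ≤ b) (hau : a ≤ X * A * q) (hbv : b ≤ Y * A * q)
    {s i j r : ℕ} (h : s + (i + j + 1) ≤ r) :
    a ^ (s + j) * b ^ (s + i) * (X * Y * D) ≤
      A ^ (2 * r) * X ^ r * Y ^ r * (q⁻¹ * D) * (q ^ s * q ^ (s + (i + j + 1))) := by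
  have hX0 : 0 < X := lt_of_lt_of_le one_pos hX
  have hY0 : 0 < Y := lt_of_lt_of_le one_pos hY
  have hA0 : 0 < A := lt_of_lt_of_le one_pos hA
  calc a ^ (s + j) * b ^ (s + i) * (X * Y * D)
      ≤ (X * A * q) ^ (s + j) * (Y * A * q) ^ (s + i) * (X * Y * D) := by gcongr
    _ = (A ^ (2 * s + i + j) * X ^ (s + j + 1) * Y ^ (s + i + 1)) *
        (q⁻¹ * D * (q ^ s * q ^ (s + (i + j + 1)))) := by
        have h1 : q ^ s * q ^ (s + (i + j + 1)) = q * q ^ (2 * s + i + j) := by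
          rw [← pow_add, ← pow_succ']
          congr 1
          ring
        have h2 : q⁻¹ * D * (q * q ^ (2 * s + i + j)) = D * q ^ (2 * s + i + j) := by
          field_simp
        rw [h1, h2]
        ring
    _ ≤ (A ^ (2 * r) * X ^ r * Y ^ r) * (q⁻¹ * D * (q ^ s * q ^ (s + (i + j + 1)))) := by
        have e1 : A ^ (2 * s + i + j) ≤ A ^ (2 * r) := pow_le_pow_right₀ hA (by omega)
        have e2 : X ^ (s + j + 1) ≤ X ^ r := pow_le_pow_right₀ hX (by omega)
        have e3 : Y ^ (s + i + 1) ≤ Y ^ r := pow_le_pow_right₀ hY (by omega)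
        gcongr
    _ = _ := by ring

theorem real_none {X Y A q D a b : ℝ} (hX : 1 ≤ X * q) (hY : 1 ≤ Y * q) (hX0 : 0 < X) (hY0 : 0 < Y)
    (hA : 1 ≤ A) (hq : 0 < q)
    (hD : 0 ≤ D) (ha : 0 ≤ a) (hb : 0 ≤ b) (hau : a ≤ X) (hbv : b ≤ Y)
    {t s i j r : ℕ} (h : t + (s + (i + j + 1)) = r) :
    b ^ (t + j) * a ^ (t + i) * (X * Y * D) ≤
      A ^ (2 * r) * X ^ r * Y ^ r * (q⁻¹ * D) * (q ^ s * q ^ (s + (i + j + 1))) := by
  have h1 : q ^ s * q ^ (s + (i + j + 1)) = q * q ^ (2 * s + i + j) := by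
    rw [← pow_add, ← pow_succ']
    congr 1
    ring
  have h2 : q⁻¹ * D * (q * q ^ (2 * s + i + j)) = D * q ^ (2 * s + i + j) := by
    field_simp
  have h3 : A ^ (2 * r) * X ^ r * Y ^ r * (q⁻¹ * D) * (q ^ s * q ^ (s + (i + j + 1))) =
      A ^ (2 * r) * (X ^ r * Y ^ r * (D * q ^ (2 * s + i + j))) := by
    rw [← h2, ← h1]; ring
  rw [h3]
  have h4 : (1 : ℝ) ≤ A ^ (2 * r) := one_le_pow₀ hA
  have h5 : 0 ≤ X ^ r * Y ^ r * (D * q ^ (2 * s + i + j)) := by positivity
  refine le_trans ?_ (le_mul_of_one_le_left h5 h4)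
  calc b ^ (t + j) * a ^ (t + i) * (X * Y * D)
      ≤ Y ^ (t + j) * X ^ (t + i) * (X * Y * D) := by gcongr
    _ = (Y ^ (t + j + 1) * X ^ (t + i + 1) * D) * 1 * 1 := by ring
    _ ≤ (Y ^ (t + j + 1) * X ^ (t + i + 1) * D) * (X * q) ^ (s + j) * (Y * q) ^ (s + i) := by
        have e1 : (1 : ℝ) ≤ (X * q) ^ (s + j) := one_le_pow₀ hX
        have e2 : (1 : ℝ) ≤ (Y * q) ^ (s + i) := one_le_pow₀ hY
        gcongr
    _ = X ^ r * Y ^ r * (D * q ^ (2 * s + i + j)) := by
        rw [← h]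
        ring

section

variable {N : Type u} [Field N] [NumberField N]

theorem nv_pow (w : Pl N) (y : N) (n : ℕ) : nv w (y ^ n) = nv w y ^ n := by
  induction n with
  | zero => rw [pow_zero, pow_zero]; exact nv_one w
  | succ n ih => rw [pow_succ, pow_succ, nv_mul, ih]

theorem nv_neg (w : Pl N) (x : N) : nv w (-x) = nv w x := by
  rcases w with w | w
  · change w (-x) ^ w.mult = w x ^ w.mult
    rw [show w (-x) = w x from AbsoluteValue.map_neg w.1 x]
  · change w (-x) = w x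
    exact AbsoluteValue.map_neg w.1 x

theorem nv_sub_comm (w : Pl N) (x y : N) : nv w (x - y) = nv w (y - x) := by
  rw [← nv_neg w (y - x), neg_sub]

theorem one_le (w : Pl N) (y : N) : 1 ≤ sn w ![y, 1] := by
  have h := le_sn w ![y, 1] 1
  have h2 : nv w ((![y, 1] : Fin 2 → N) 1) = 1 := nv_one w
  rwa [h2] at h

theorem le_s (w : Pl N) (y : N) : nv w y ≤ sn w ![y, 1] := le_sn w ![y, 1] 0

theorem nv_sub_eq (w : Pl N) {x a : N} (h : x ≠ a) :
    nv w (x - a) = sn w ![x, 1] * sn w ![a, 1] * Real.exp (-cl w x (some a)) := by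
  have hn := nv_pos w (sub_ne_zero.mpr h)
  have hx := lt_of_lt_of_le one_pos (one_le w x)
  have ha := lt_of_lt_of_le one_pos (one_le w a)
  have h1 : cl w x (some a) =
      Real.log (sn w ![x, 1]) + Real.log (sn w ![a, 1]) - Real.log (nv w (x - a)) := rfl
  rw [h1, neg_sub, Real.exp_sub, Real.exp_add, Real.exp_log hn, Real.exp_log hx, Real.exp_log ha]
  field_simp

theorem alg (u v : N) (s m : ℕ) : u ^ s * v ^ (s + m) - u ^ (s + m) * v ^ s =
    ∑ i ∈ range m, u ^ (s + (m - 1 - i)) * v ^ (s + i) * (v - u) := by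
  have h := (Commute.all v u).geom_sum₂_mul m
  calc u ^ s * v ^ (s + m) - u ^ (s + m) * v ^ s = u ^ s * v ^ s * (v ^ m - u ^ m) := by
        rw [pow_add, pow_add]; ring
    _ = u ^ s * v ^ s * ((∑ i ∈ range m, v ^ i * u ^ (m - 1 - i)) * (v - u)) := by rw [h]
    _ = _ := by
        rw [Finset.sum_mul, Finset.mul_sum]
        refine Finset.sum_congr rfl fun i _ => ?_
        rw [pow_add, pow_add]; ring

theorem exp_mul_eq (s : ℕ) (l : ℝ) : Real.exp (-(s * l)) = Real.exp (-l) ^ s := by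
  rw [← Real.exp_nat_mul]
  congr 1
  ring

/-- the difference of monomials, affine case, `s ≤ s'` -/
theorem diff_some_aux (w : Pl N) {a x y : N} (hxy : x ≠ y) (hax : a ≠ x) (hay : a ≠ y) {r s m : ℕ}
    (h : s + m ≤ r) (l : ℝ) (hlx : l ≤ cl w x (some a)) (hly : l ≤ cl w y (some a)) :
    nv w ((x - a) ^ s * (y - a) ^ (s + m) - (x - a) ^ (s + m) * (y - a) ^ s) ≤
      (r + 1) ^ 2 * (sn w ![a, 1] ^ (2 * r) * sn w ![x, 1] ^ r * sn w ![y, 1] ^ r *
        Real.exp (l - cl w x (some y)) * (Real.exp (-(s * l)) * Real.exp (-((s + m : ℕ) * l)))) := by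
  have hX := one_le w x
  have hY := one_le w y
  have hA := one_le w a
  have hX0 : 0 < sn w ![x, 1] := lt_of_lt_of_le one_pos hX
  have hY0 : 0 < sn w ![y, 1] := lt_of_lt_of_le one_pos hY
  have hA0 : 0 < sn w ![a, 1] := lt_of_lt_of_le one_pos hA
  have hu : nv w (x - a) ≤ sn w ![x, 1] * sn w ![a, 1] * Real.exp (-l) := by
    rw [nv_sub_eq w hax.symm]
    gcongr
  have hv : nv w (y - a) ≤ sn w ![y, 1] * sn w ![a, 1] * Real.exp (-l) := by
    rw [nv_sub_eq w hay.symm]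
    gcongr
  have hvu : nv w (y - a - (x - a)) = sn w ![x, 1] * sn w ![y, 1] * Real.exp (-cl w x (some y)) := by
    rw [sub_sub_sub_cancel_right, nv_sub_comm, nv_sub_eq w hxy]
  have hexp : Real.exp (l - cl w x (some y)) = (Real.exp (-l))⁻¹ * Real.exp (-cl w x (some y)) := by
    rw [← Real.exp_neg, neg_neg, ← Real.exp_add]; congr 1
  rw [alg, hexp, exp_mul_eq, exp_mul_eq]
  have hM := nv_sum_le w (range m)
    (fun i => (x - a) ^ (s + (m - 1 - i)) * (y - a) ^ (s + i) * (y - a - (x - a)))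
    (sn w ![a, 1] ^ (2 * r) * sn w ![x, 1] ^ r * sn w ![y, 1] ^ r *
        ((Real.exp (-l))⁻¹ * Real.exp (-cl w x (some y))) *
        (Real.exp (-l) ^ s * Real.exp (-l) ^ (s + m))) (by positivity) (by
      intro i hi
      rw [Finset.mem_range] at hi
      rw [nv_mul, nv_mul, nv_pow, nv_pow, hvu]
      have hm : m = i + (m - 1 - i) + 1 := by omega
      have := real_some (X := sn w ![x, 1]) (Y := sn w ![y, 1]) (A := sn w ![a, 1])
        (q := Real.exp (-l)) (D := Real.exp (-cl w x (some y))) hX hY hA (Real.exp_pos _)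
        (Real.exp_pos _).le (nv_nonneg w (x - a)) (nv_nonneg w (y - a)) hu hv
        (s := s) (i := i) (j := m - 1 - i) (r := r) (by omega)
      rwa [← hm] at this)
  refine hM.trans ?_
  rw [Finset.card_range]
  have hmr : (m : ℝ) ≤ r := by exact_mod_cast (by omega : m ≤ r)
  gcongr

/-- the difference of monomials, point at infinity, `s ≤ s'` -/
theorem diff_none_aux (w : Pl N) {x y : N} (hxy : x ≠ y) {r s m : ℕ}
    (h : s + m ≤ r) (l : ℝ) (hlx : l ≤ cl w x none) (hly : l ≤ cl w y none) :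
    nv w (x ^ (r - s) * y ^ (r - (s + m)) - x ^ (r - (s + m)) * y ^ (r - s)) ≤
      (r + 1) ^ 2 * (sn w ![(0 : N), 1] ^ (2 * r) * sn w ![x, 1] ^ r * sn w ![y, 1] ^ r *
        Real.exp (l - cl w x (some y)) * (Real.exp (-(s * l)) * Real.exp (-((s + m : ℕ) * l)))) := by
  obtain ⟨t, rfl⟩ := Nat.exists_eq_add_of_le' h
  have e1 : t + (s + m) - s = t + m := by omega
  have e2 : t + (s + m) - (s + m) = t := by omega
  rw [e1, e2]
  have hX := one_le w x
  have hY := one_le w y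
  have hA := one_le w (0 : N)
  have hX0 : 0 < sn w ![x, 1] := lt_of_lt_of_le one_pos hX
  have hY0 : 0 < sn w ![y, 1] := lt_of_lt_of_le one_pos hY
  have hA0 : 0 < sn w ![(0 : N), 1] := lt_of_lt_of_le one_pos hA
  have hu : 1 ≤ sn w ![x, 1] * Real.exp (-l) := by
    have h1 : Real.exp l ≤ sn w ![x, 1] := by
      rw [← Real.exp_log hX0]
      exact Real.exp_le_exp.mpr hlx
    calc (1 : ℝ) = Real.exp l * Real.exp (-l) := by rw [← Real.exp_add]; simp
      _ ≤ _ := mul_le_mul_of_nonneg_right h1 (Real.exp_pos _).le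
  have hv : 1 ≤ sn w ![y, 1] * Real.exp (-l) := by
    have h1 : Real.exp l ≤ sn w ![y, 1] := by
      rw [← Real.exp_log hY0]
      exact Real.exp_le_exp.mpr hly
    calc (1 : ℝ) = Real.exp l * Real.exp (-l) := by rw [← Real.exp_add]; simp
      _ ≤ _ := mul_le_mul_of_nonneg_right h1 (Real.exp_pos _).le
  have hvu : nv w (x - y) = sn w ![x, 1] * sn w ![y, 1] * Real.exp (-cl w x (some y)) :=
    nv_sub_eq w hxy
  have hexp : Real.exp (l - cl w x (some y)) = (Real.exp (-l))⁻¹ * Real.exp (-cl w x (some y)) := by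
    rw [← Real.exp_neg, neg_neg, ← Real.exp_add]; congr 1
  have halg : x ^ (t + m) * y ^ t - x ^ t * y ^ (t + m) =
      ∑ i ∈ range m, y ^ (t + (m - 1 - i)) * x ^ (t + i) * (x - y) := by
    rw [← alg]; ring
  rw [halg, hexp, exp_mul_eq, exp_mul_eq]
  have hM := nv_sum_le w (range m)
    (fun i => y ^ (t + (m - 1 - i)) * x ^ (t + i) * (x - y))
    (sn w ![(0 : N), 1] ^ (2 * (t + (s + m))) * sn w ![x, 1] ^ (t + (s + m)) *
        sn w ![y, 1] ^ (t + (s + m)) *
        ((Real.exp (-l))⁻¹ * Real.exp (-cl w x (some y))) *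
        (Real.exp (-l) ^ s * Real.exp (-l) ^ (s + m))) (by positivity) (by
      intro i hi
      rw [Finset.mem_range] at hi
      rw [nv_mul, nv_mul, nv_pow, nv_pow, hvu]
      have hm : m = i + (m - 1 - i) + 1 := by omega
      have := real_none (X := sn w ![x, 1]) (Y := sn w ![y, 1]) (A := sn w ![(0 : N), 1])
        (q := Real.exp (-l)) (D := Real.exp (-cl w x (some y))) hu hv hX0 hY0 hA (Real.exp_pos _)
        (Real.exp_pos _).le (nv_nonneg w x) (nv_nonneg w y) (le_s w x) (le_s w y)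
        (t := t) (s := s) (i := i) (j := m - 1 - i) (r := t + (s + m)) (by omega)
      rwa [← hm] at this)
  refine hM.trans ?_
  rw [Finset.card_range]
  have hmr : (m : ℝ) ≤ ((t + (s + m) : ℕ) : ℝ) := by exact_mod_cast (by omega : m ≤ t + (s + m))
  gcongr

/-- symmetrisation in `s`, `s'` -/
theorem symm_aux (w : Pl N) (X Y : ℕ → N) (r : ℕ) (F l : ℝ)
    (h : ∀ s m, s + m ≤ r → nv w (X s * Y (s + m) - X (s + m) * Y s) ≤
      F * (Real.exp (-(s * l)) * Real.exp (-((s + m : ℕ) * l)))) :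
    ∀ s ≤ r, ∀ s' ≤ r, nv w (X s * Y s' - X s' * Y s) ≤
      F * (Real.exp (-(s * l)) * Real.exp (-(s' * l))) := by
  intro s hs s' hs'
  rcases le_total s s' with h1 | h1
  · obtain ⟨m, rfl⟩ := Nat.exists_eq_add_of_le h1
    exact h s m hs'
  · obtain ⟨m, rfl⟩ := Nat.exists_eq_add_of_le h1
    rw [nv_sub_comm, mul_comm (Real.exp _)]
    exact h s' m hs

theorem two_sum (w : Pl N) {r : ℕ} (T T' X Y : ℕ → N) (F E l : ℝ) (hF : 0 ≤ F)
    (hXY : ∀ s ≤ r, ∀ s' ≤ r, nv w (X s * Y s' - X s' * Y s) ≤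
      F * (Real.exp (-(s * l)) * Real.exp (-(s' * l))))
    (hT : ∀ s ≤ r, nv w (T s) * Real.exp (-(s * l)) ≤ E)
    (hT' : ∀ s ≤ r, nv w (T' s) * Real.exp (-(s * l)) ≤ E) :
    nv w ((∑ s ∈ range (r + 1), T s * X s) * (∑ s ∈ range (r + 1), T' s * Y s) -
      (∑ s ∈ range (r + 1), T' s * X s) * (∑ s ∈ range (r + 1), T s * Y s)) ≤
      (((r : ℝ) + 1) ^ 2 + 1) ^ 2 * (F * E ^ 2) := by
  have hE : 0 ≤ E := by
    refine le_trans ?_ (hT 0 (Nat.zero_le r))
    exact mul_nonneg (nv_nonneg w _) (Real.exp_pos _).le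
  have h1 : (∑ s ∈ range (r + 1), T s * X s) * (∑ s ∈ range (r + 1), T' s * Y s) -
      (∑ s ∈ range (r + 1), T' s * X s) * (∑ s ∈ range (r + 1), T s * Y s) =
      ∑ z ∈ range (r + 1) ×ˢ range (r + 1), T z.1 * T' z.2 * (X z.1 * Y z.2 - X z.2 * Y z.1) := by
    rw [mul_comm (∑ s ∈ range (r + 1), T' s * X s), Finset.sum_mul_sum, Finset.sum_mul_sum,
      ← Finset.sum_product', ← Finset.sum_product', ← Finset.sum_sub_distrib]
    refine Finset.sum_congr rfl fun z _ => ?_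
    ring
  rw [h1]
  have h2 := nv_sum_le w (range (r + 1) ×ˢ range (r + 1))
    (fun z => T z.1 * T' z.2 * (X z.1 * Y z.2 - X z.2 * Y z.1)) (F * E ^ 2)
    (mul_nonneg hF (sq_nonneg E)) (by
      rintro ⟨s, s'⟩ hz
      rw [Finset.mem_product, Finset.mem_range, Finset.mem_range] at hz
      have hs : s ≤ r := Nat.lt_succ_iff.mp hz.1
      have hs' : s' ≤ r := Nat.lt_succ_iff.mp hz.2
      dsimp only
      rw [nv_mul, nv_mul]
      calc nv w (T s) * nv w (T' s') * nv w (X s * Y s' - X s' * Y s)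
          ≤ nv w (T s) * nv w (T' s') * (F * (Real.exp (-(s * l)) * Real.exp (-(s' * l)))) :=
            mul_le_mul_of_nonneg_left (hXY s hs s' hs')
              (mul_nonneg (nv_nonneg w _) (nv_nonneg w _))
        _ = F * ((nv w (T s) * Real.exp (-(s * l))) * (nv w (T' s') * Real.exp (-(s' * l)))) := by
            ring
        _ ≤ F * (E * E) := by
            refine mul_le_mul_of_nonneg_left ?_ hF
            exact mul_le_mul (hT s hs) (hT' s' hs')
              (mul_nonneg (nv_nonneg w _) (Real.exp_pos _).le) hE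
        _ = F * E ^ 2 := by ring)
  refine h2.trans (le_of_eq ?_)
  rw [Finset.card_product, Finset.card_range]
  push_cast
  ring

theorem eval_none {r : ℕ} (B : N[X]) (hB : B.natDegree ≤ r) (x : N) :
    B.eval x = ∑ s ∈ Finset.range (r + 1), (tay none r B).coeff s * x ^ (r - s) := by
  rw [Polynomial.eval_eq_sum_range' (Nat.lt_succ_of_le hB),
    ← Finset.sum_range_reflect _ (r + 1)]
  refine Finset.sum_congr rfl fun s hs => ?_
  have hs' : s ≤ r := Nat.lt_succ_iff.mp (Finset.mem_range.mp hs)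
  rw [Pool.Agent.Helper61.AD.tay_none, coeff_reflect, revAt_le hs']
  have h2 : r + 1 - 1 - s = r - s := by omega
  rw [h2]

theorem eval_some {r : ℕ} (B : N[X]) (hB : B.natDegree ≤ r) (a x : N) :
    B.eval x = ∑ s ∈ Finset.range (r + 1), (tay (some a) r B).coeff s * (x - a) ^ s := by
  rw [← Polynomial.eval_eq_sum_range' (Nat.lt_succ_of_le
    (Pool.Agent.Helper61.AD.natDegree_tay_le (some a) hB)),
    Pool.Agent.Helper61.AD.tay_some, eval_comp]
  simp

end

end PBd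

open PBd in
theorem pair_bound (r : ℕ) : ∃ c : ℝ, 1 ≤ c ∧ ∀ (N : Type u) [Field N] [NumberField N] (w : Pl N)
    (p : Option N) (x y : N), x ≠ y → p ≠ some x → p ≠ some y →
    ∀ B B' : N[X], B.natDegree ≤ r → B'.natDegree ≤ r → ∀ E : ℝ,
    (∀ s ≤ r, nv w ((tay p r B).coeff s) * Real.exp (-(s * min (cl w x p) (cl w y p))) ≤ E) →
    (∀ s ≤ r, nv w ((tay p r B').coeff s) * Real.exp (-(s * min (cl w x p) (cl w y p))) ≤ E) →
    nv w (B.eval x * B'.eval y - B'.eval x * B.eval y) ≤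
      c * sn w ![p.getD 0, 1] ^ (2 * r) * sn w ![x, 1] ^ r * sn w ![y, 1] ^ r *
        Real.exp (min (cl w x p) (cl w y p) - cl w x (some y)) * E ^ 2 := by
  have hr : (0 : ℝ) ≤ r := Nat.cast_nonneg r
  refine ⟨(((r : ℝ) + 1) ^ 2 + 1) ^ 2 * (r + 1) ^ 2, ?_, ?_⟩
  · have h1 : (1 : ℝ) ≤ (((r : ℝ) + 1) ^ 2 + 1) ^ 2 := by
      refine one_le_pow₀ ?_
      nlinarith [sq_nonneg ((r : ℝ) + 1)]
    have h2 : (1 : ℝ) ≤ ((r : ℝ) + 1) ^ 2 := one_le_pow₀ (by linarith)
    exact one_le_mul_of_one_le_of_one_le h1 h2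
  intro N _ _ w p x y hxy hpx hpy B B' hB hB' E hE hE'
  have hX0 : 0 < sn w ![x, 1] := lt_of_lt_of_le one_pos (one_le w x)
  have hY0 : 0 < sn w ![y, 1] := lt_of_lt_of_le one_pos (one_le w y)
  cases p with
  | none =>
    have hA0 : 0 < sn w ![(0 : N), 1] := lt_of_lt_of_le one_pos (one_le w 0)
    set l := min (cl w x none) (cl w y none) with hl
    have h1 := symm_aux w (fun s => x ^ (r - s)) (fun s => y ^ (r - s)) r
      ((r + 1) ^ 2 * (sn w ![(0 : N), 1] ^ (2 * r) * sn w ![x, 1] ^ r * sn w ![y, 1] ^ r *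
        Real.exp (l - cl w x (some y)))) l (by
        intro s m h
        have h2 := diff_none_aux w hxy h l (min_le_left _ _) (min_le_right _ _)
        rw [mul_assoc (((r : ℝ) + 1) ^ 2)]
        exact h2)
    have h2 := two_sum w (fun s => (tay none r B).coeff s) (fun s => (tay none r B').coeff s)
      (fun s => x ^ (r - s)) (fun s => y ^ (r - s)) _ E l (by positivity) h1 hE hE'
    rw [← eval_none B hB, ← eval_none B' hB', ← eval_none B hB, ← eval_none B' hB'] at h2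
    refine h2.trans (le_of_eq ?_)
    change _ = (((r : ℝ) + 1) ^ 2 + 1) ^ 2 * (r + 1) ^ 2 * sn w ![(0 : N), 1] ^ (2 * r) * _ * _ * _ * _
    ring
  | some a =>
    have hA0 : 0 < sn w ![a, 1] := lt_of_lt_of_le one_pos (one_le w a)
    have hax : a ≠ x := fun h => hpx (by rw [h])
    have hay : a ≠ y := fun h => hpy (by rw [h])
    set l := min (cl w x (some a)) (cl w y (some a)) with hl
    have h1 := symm_aux w (fun s => (x - a) ^ s) (fun s => (y - a) ^ s) r
      ((r + 1) ^ 2 * (sn w ![a, 1] ^ (2 * r) * sn w ![x, 1] ^ r * sn w ![y, 1] ^ r *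
        Real.exp (l - cl w x (some y)))) l (by
        intro s m h
        have h2 := diff_some_aux w hxy hax hay h l (min_le_left _ _) (min_le_right _ _)
        rw [mul_assoc (((r : ℝ) + 1) ^ 2)]
        exact h2)
    have h2 := two_sum w (fun s => (tay (some a) r B).coeff s)
      (fun s => (tay (some a) r B').coeff s)
      (fun s => (x - a) ^ s) (fun s => (y - a) ^ s) _ E l (by positivity) h1 hE hE'
    rw [← eval_some B hB, ← eval_some B' hB', ← eval_some B hB, ← eval_some B' hB'] at h2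
    refine h2.trans (le_of_eq ?_)
    change _ = (((r : ℝ) + 1) ^ 2 + 1) ^ 2 * (r + 1) ^ 2 * sn w ![a, 1] ^ (2 * r) * _ * _ * _ * _
    ring

end Pool.Agent.Helper61.AD2
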