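import Pool.Agent.Helper61.AD2.RootLoc
import Pool.Agent.Helper61.AD2.PairB

/-!
# Block AD2-PL: local inequality for a pair of roots

Proof. Write `cl_i p = cl w (x i) p`, `L i p = max 0 (cl_i p)`, `d = cl w (x i) (some (x j))`, `Δ` = the minor.
Quasi triangle inequality: `cl_j p ≥ min d (cl_i p) - log 16` and `cl_i p ≥ min d (cl_j p) - log 16` (some such
constant; from `nv w (x j - b) ≤ 4 max (nv w (x j - x i)) (nv w (x i - b))` etc., dividing by the `sn`; be careful
with the size of the `sn`: the clean way is `(x j - b) * 1`-type identities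
`[x,b] sn-vector`: for vectors `X,Y,Z` of `N^2`, `det(X,Z) Y_k = det(Y,Z) X_k + det(X,Y) Z_k`, take `k` with
`nv w (Y_k) = sn w Y`; this is the chordal triangle inequality for all points including `none`).
Also for every `p ∈ A`: `exc A w (x i) (x j) ≤ d - min (cl_i p) (cl_j p) + a * log 4` (`cl_ge`).
As in `RootLoc`: `M p s + s λ ≥ ∑_k min (L k p) λ` for `λ ≥ 0`.
Case 1: `exc ≤ C1` (a constant chosen below): the minor is a difference of two products, each factor is bounded
as in `root_local`. (Do not use `root_local` itself, as a factor may vanish: use `eval_bound`.)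
Case 2: `exc > C1`. Let `p` be a point of `A` with `cl_i p` maximal. `d > min (cl_i p) (cl_j p) + C1 - a log 4`, so
by the triangle inequality `|cl_i p - cl_j p| ≤ log 16`. `pair_bound` with `l = min (cl_i p) (cl_j p)`:
`nv w T_s exp (-s l) ≤ exp (κ - M p s - s l) ≤ exp (κ + r log 4 - ∑_k min (L k p) (max 0 l))`, and
`∑_k min (L k p) (max 0 l) ≥ ∑_k min (L k p) (L i p) - r log 16`, same for `j`. Hence
`log nv w Δ ≤ r log sn x_i + r log sn x_j + l - d + 2κ - ∑_k min (L k p) (L i p) - ∑_k min (L k p) (L j p) + C`.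
`l - d ≤ - exc + a log 4`. `fw i ≤ ∑_k min (L k p) (L i p) + a r c0` as in `RootLoc`. For `fw j`: let
`p' ∈ A`, `p' ≠ p`; claim `cl_j p' ≤ c0 + 2 log 16 + ..`: if `cl_j p' > c0` then `cl_j p ≤ c0`, so
`cl_i p ≤ c0 + log 16`, so `cl_i p' ≤ c0 + log 16` (maximality), and the argument of case 2 for `p'`
(`|cl_i p' - cl_j p'| ≤ log 16`) bounds `cl_j p'`. So `fw j ≤ ∑_k min (L k p) (L j p) + a r (c0 + 2 log 16)`.
-/

namespace Pool.Agent.Helper61.AD2

open NumberField Finset Polynomial Module
open Pool.Agent.Helper64.Vojta (Pl nv sn above)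
open Pool.Agent.Helper61.AD (cl tay)

universe u

namespace PLA

open Pool.Agent.Helper64.Vojta (nv_nonneg nv_pos nv_one nv_mul nv_zero le_sn sn_le)

section

variable {N : Type u} [Field N] [NumberField N]

theorem nv_add_le (w : Pl N) (x y : N) : nv w (x + y) ≤ 4 * max (nv w x) (nv w y) := by
  rcases w with w | w
  · have h1 : w (x + y) ≤ 2 * max (w x) (w y) := by
      have h2 : w (x + y) ≤ w x + w y := w.1.add_le x y
      have h3 := le_max_left (w x) (w y)
      have h4 := le_max_right (w x) (w y)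
      linarith
    have h5 : max (nv (.inl w) x) (nv (.inl w) y) = max (w x) (w y) ^ w.mult := by
      change max (w x ^ w.mult) (w y ^ w.mult) = _
      rcases le_total (w x) (w y) with h | h
      · rw [max_eq_right h, max_eq_right (pow_le_pow_left₀ (apply_nonneg w x) h _)]
      · rw [max_eq_left h, max_eq_left (pow_le_pow_left₀ (apply_nonneg w y) h _)]
    have h6 : 0 ≤ max (w x) (w y) := (apply_nonneg w x).trans (le_max_left _ _)
    calc nv (.inl w) (x + y) = w (x + y) ^ w.mult := rfl
      _ ≤ (2 * max (w x) (w y)) ^ w.mult := pow_le_pow_left₀ (apply_nonneg w _) h1 _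
      _ = 2 ^ w.mult * max (w x) (w y) ^ w.mult := mul_pow _ _ _
      _ ≤ 4 * max (w x) (w y) ^ w.mult := by
          refine mul_le_mul_of_nonneg_right ?_ (pow_nonneg h6 _)
          calc (2 : ℝ) ^ w.mult ≤ 2 ^ 2 := Pool.Agent.Helper61.AD.GI.pow_mult_le (by norm_num) w
            _ = 4 := by norm_num
      _ = 4 * max (nv (.inl w) x) (nv (.inl w) y) := by rw [h5]
  · have h1 : nv (.inr w) (x + y) ≤ max (nv (.inr w) x) (nv (.inr w) y) := FinitePlace.add_le w _ _
    have h2 : 0 ≤ max (nv (.inr w) x) (nv (.inr w) y) := (nv_nonneg _ _).trans (le_max_left _ _)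
    linarith

theorem nv_neg (w : Pl N) (x : N) : nv w (-x) = nv w x := by
  rcases w with w | w
  · change w (-x) ^ w.mult = w x ^ w.mult
    rw [show w (-x) = w x from AbsoluteValue.map_neg w.1 x]
  · change w (-x) = w x
    exact AbsoluteValue.map_neg w.1 x

theorem sn_eq (w : Pl N) (a : N) : sn w ![a, 1] = max (nv w a) 1 := by
  refine le_antisymm (sn_le _ _ _ (zero_le_one.trans (le_max_right _ _)) ?_) (max_le ?_ ?_)
  · intro i
    fin_cases i
    · exact le_max_left _ _
    · change nv w (1 : N) ≤ _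
      rw [nv_one]
      exact le_max_right _ _
  · exact le_sn w ![a, 1] 0
  · have := le_sn w ![a, 1] 1
    rwa [show (![a, 1] : Fin 2 → N) 1 = 1 from rfl, nv_one] at this

theorem one_le (w : Pl N) (a : N) : 1 ≤ sn w ![a, 1] := by
  rw [sn_eq]; exact le_max_right _ _

theorem cl_symm (w : Pl N) (x y : N) : cl w x (some y) = cl w y (some x) := by
  have h : nv w (x - y) = nv w (y - x) := by rw [← nv_neg w (y - x), neg_sub]
  change Real.log (sn w ![x, 1]) + Real.log (sn w ![y, 1]) - Real.log (nv w (x - y)) =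
    Real.log (sn w ![y, 1]) + Real.log (sn w ![x, 1]) - Real.log (nv w (y - x))
  rw [h]; ring

/-- chordal triangle inequality, multiplicative form, affine point -/
theorem tri_some_mul (w : Pl N) (x y b : N) :
    nv w (x - b) * sn w ![y, 1] ≤
      4 * max (nv w (y - b) * sn w ![x, 1]) (nv w (x - y) * sn w ![b, 1]) := by
  have hx0 : nv w x ≤ sn w ![x, 1] := le_sn w ![x, 1] 0
  have hb0 : nv w b ≤ sn w ![b, 1] := le_sn w ![b, 1] 0
  have hx1 := one_le w x
  have hb1 := one_le w b
  have n1 := nv_nonneg w (y - b)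
  have n2 := nv_nonneg w (x - y)
  have n3 := nv_nonneg w (x - b)
  have k1 : nv w (x - b) * nv w y ≤
      4 * max (nv w (y - b) * sn w ![x, 1]) (nv w (x - y) * sn w ![b, 1]) := by
    have e : (x - b) * y = (y - b) * x + (x - y) * b := by ring
    rw [← nv_mul, e]
    refine (nv_add_le w _ _).trans ?_
    rw [nv_mul, nv_mul]
    have := max_le_max (mul_le_mul_of_nonneg_left hx0 n1) (mul_le_mul_of_nonneg_left hb0 n2)
    linarith
  have k2 : nv w (x - b) * 1 ≤
      4 * max (nv w (y - b) * sn w ![x, 1]) (nv w (x - y) * sn w ![b, 1]) := by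
    have e : (x - b) = (y - b) + (x - y) := by ring
    rw [mul_one, e]
    refine (nv_add_le w _ _).trans ?_
    have := max_le_max (mul_le_mul_of_nonneg_left hx1 n1) (mul_le_mul_of_nonneg_left hb1 n2)
    rw [mul_one, mul_one] at this
    linarith
  rw [sn_eq w y]
  rcases le_total (nv w y) 1 with h | h
  · rw [max_eq_right h]; exact k2
  · rw [max_eq_left h]; exact k1

theorem tri_none_mul (w : Pl N) (x y : N) :
    sn w ![y, 1] ≤ 4 * max (sn w ![x, 1]) (nv w (x - y)) := by
  have hx0 : nv w x ≤ sn w ![x, 1] := le_sn w ![x, 1] 0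
  have hx1 := one_le w x
  have k1 : nv w y ≤ 4 * max (sn w ![x, 1]) (nv w (x - y)) := by
    have e : y = x + -(x - y) := by ring
    rw [e]
    refine (nv_add_le w _ _).trans ?_
    rw [nv_neg, ← e]
    have := max_le_max hx0 (le_refl (nv w (x - y)))
    linarith
  have k2 : (1 : ℝ) ≤ 4 * max (sn w ![x, 1]) (nv w (x - y)) := by
    have := le_max_left (sn w ![x, 1]) (nv w (x - y))
    linarith
  rw [sn_eq w y]
  exact max_le k1 k2

/-- chordal triangle inequality -/
theorem tri (w : Pl N) (x y : N) (p : Option N) (hxy : x ≠ y) (hx : p ≠ some x) (hy : p ≠ some y) :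
    min (cl w y p) (cl w x (some y)) - Real.log 4 ≤ cl w x p := by
  have px : 0 < sn w ![x, 1] := by linarith [one_le w x]
  have py : 0 < sn w ![y, 1] := by linarith [one_le w y]
  have nxy : 0 < nv w (x - y) := nv_pos w (sub_ne_zero.mpr hxy)
  rcases p with _ | b
  · have h := tri_none_mul w x y
    change min (Real.log (sn w ![y, 1]))
      (Real.log (sn w ![x, 1]) + Real.log (sn w ![y, 1]) - Real.log (nv w (x - y))) - Real.log 4 ≤
        Real.log (sn w ![x, 1])
    rcases le_total (sn w ![x, 1]) (nv w (x - y)) with h1 | h1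
    · rw [max_eq_right h1] at h
      have h2 := Real.log_le_log py h
      rw [Real.log_mul (by norm_num) nxy.ne'] at h2
      have := min_le_right (Real.log (sn w ![y, 1]))
        (Real.log (sn w ![x, 1]) + Real.log (sn w ![y, 1]) - Real.log (nv w (x - y)))
      linarith
    · rw [max_eq_left h1] at h
      have h2 := Real.log_le_log py h
      rw [Real.log_mul (by norm_num) px.ne'] at h2
      have := min_le_left (Real.log (sn w ![y, 1]))
        (Real.log (sn w ![x, 1]) + Real.log (sn w ![y, 1]) - Real.log (nv w (x - y)))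
      linarith
  · have pb : 0 < sn w ![b, 1] := by linarith [one_le w b]
    have hbx : x ≠ b := fun h => hx (by rw [h])
    have hby : y ≠ b := fun h => hy (by rw [h])
    have nxb : 0 < nv w (x - b) := nv_pos w (sub_ne_zero.mpr hbx)
    have nyb : 0 < nv w (y - b) := nv_pos w (sub_ne_zero.mpr hby)
    have h := tri_some_mul w x y b
    change min (Real.log (sn w ![y, 1]) + Real.log (sn w ![b, 1]) - Real.log (nv w (y - b)))
      (Real.log (sn w ![x, 1]) + Real.log (sn w ![y, 1]) - Real.log (nv w (x - y))) - Real.log 4 ≤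
        Real.log (sn w ![x, 1]) + Real.log (sn w ![b, 1]) - Real.log (nv w (x - b))
    rcases le_total (nv w (y - b) * sn w ![x, 1]) (nv w (x - y) * sn w ![b, 1]) with h1 | h1
    · rw [max_eq_right h1] at h
      have h2 := Real.log_le_log (mul_pos nxb py) h
      rw [Real.log_mul nxb.ne' py.ne', Real.log_mul (by norm_num) (mul_pos nxy pb).ne',
        Real.log_mul nxy.ne' pb.ne'] at h2
      have := min_le_right (Real.log (sn w ![y, 1]) + Real.log (sn w ![b, 1]) - Real.log (nv w (y - b)))
        (Real.log (sn w ![x, 1]) + Real.log (sn w ![y, 1]) - Real.log (nv w (x - y)))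
      linarith
    · rw [max_eq_left h1] at h
      have h2 := Real.log_le_log (mul_pos nxb py) h
      rw [Real.log_mul nxb.ne' py.ne', Real.log_mul (by norm_num) (mul_pos nyb px).ne',
        Real.log_mul nyb.ne' px.ne'] at h2
      have := min_le_left (Real.log (sn w ![y, 1]) + Real.log (sn w ![b, 1]) - Real.log (nv w (y - b)))
        (Real.log (sn w ![x, 1]) + Real.log (sn w ![y, 1]) - Real.log (nv w (x - y)))
      linarith

end

theorem msum {r s : ℕ} (hs : s ≤ r) (L : Fin r → ℝ) (I : Finset (Fin r)) (hI : I.card = r - s)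
    (M lam : ℝ) (hM : ∑ i ∈ I, L i ≤ M) : ∑ k, min (L k) lam ≤ M + s * lam := by
  classical
  have h1 : ∑ k, min (L k) lam = ∑ k ∈ I, min (L k) lam + ∑ k ∈ Iᶜ, min (L k) lam :=
    (Finset.sum_add_sum_compl I _).symm
  have h2 : ∑ k ∈ I, min (L k) lam ≤ ∑ k ∈ I, L k := Finset.sum_le_sum fun k _ => min_le_left _ _
  have h3 : ∑ k ∈ Iᶜ, min (L k) lam ≤ ∑ k ∈ Iᶜ, lam := Finset.sum_le_sum fun k _ => min_le_right _ _
  have h4 : (Iᶜ).card = s := by
    rw [Finset.card_compl, Fintype.card_fin, hI]; omega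
  rw [Finset.sum_const, h4, nsmul_eq_mul] at h3
  linarith

section

variable {N : Type u} [Field N] [NumberField N]

/-- `∑ k, min (L k p) (L i p)` -/
noncomputable def Sg {r : ℕ} (w : Pl N) (x : Fin r → N) (i : Fin r) (p : Option N) : ℝ :=
  ∑ k, min (max 0 (cl w (x k) p)) (max 0 (cl w (x i) p))

theorem fw_le {r a : ℕ} (w : Pl N) (A : Finset (Option N)) (hA : A.card ≤ a) (x : Fin r → N) (i : Fin r)
    (p : Option N) (hp : p ∈ A) (c : ℝ) (hc : 0 ≤ c)
    (h : ∀ p' ∈ A, p' ≠ p → cl w (x i) p' ≤ c) :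
    fw A w x i ≤ Sg w x i p + a * r * c := by
  classical
  unfold fw Sg
  rw [← Finset.add_sum_erase A _ hp]
  have h1 : ∑ j, min (cl w (x i) p) (cl w (x j) p) ≤
      ∑ k, min (max 0 (cl w (x k) p)) (max 0 (cl w (x i) p)) := by
    refine Finset.sum_le_sum fun k _ => ?_
    rw [min_comm]
    exact min_le_min (le_max_right _ _) (le_max_right _ _)
  have h2 : ∑ p' ∈ A.erase p, ∑ j, min (cl w (x i) p') (cl w (x j) p') ≤
      ∑ p' ∈ A.erase p, (r * c : ℝ) := by
    refine Finset.sum_le_sum fun p' hp' => ?_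
    have h3 : ∑ j, min (cl w (x i) p') (cl w (x j) p') ≤ ∑ j : Fin r, c := by
      refine Finset.sum_le_sum fun k _ => ?_
      exact (min_le_left _ _).trans (h p' (Finset.mem_of_mem_erase hp') (Finset.ne_of_mem_erase hp'))
    rwa [Finset.sum_const, Finset.card_univ, Fintype.card_fin, nsmul_eq_mul] at h3
  rw [Finset.sum_const, nsmul_eq_mul] at h2
  have h4 : ((A.erase p).card : ℝ) ≤ a := by
    exact_mod_cast (Finset.card_le_card (Finset.erase_subset _ _)).trans hA
  have h5 : ((A.erase p).card : ℝ) * (r * c) ≤ a * (r * c) :=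
    mul_le_mul_of_nonneg_right h4 (mul_nonneg (Nat.cast_nonneg _) hc)
  have h6 : (a : ℝ) * r * c = a * (r * c) := by ring
  linarith

theorem log4_nonneg : 0 ≤ Real.log 4 := Real.log_nonneg (by norm_num)

theorem max_le_add {t : ℝ} (h : -Real.log 4 ≤ t) : max 0 t ≤ t + Real.log 4 :=
  max_le (by linarith) (by linarith [log4_nonneg])

/-- the bound for the Taylor coefficients in terms of `lam = max 0 l` -/
theorem coeff_bd {r : ℕ} (w : Pl N) (x : Fin r → N) (p : Option N) (M : ℕ → ℝ) (κ l : ℝ)
    (hl : -Real.log 4 ≤ l)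
    (hM : ∀ s ≤ r, ∃ I : Finset (Fin r), I.card = r - s ∧ ∑ i ∈ I, max 0 (cl w (x i) p) ≤ M s)
    (B : N[X]) (hB : ∀ s ≤ r, nv w ((tay p r B).coeff s) ≤ Real.exp (κ - M s)) (s : ℕ) (hs : s ≤ r) :
    nv w ((tay p r B).coeff s) * Real.exp (-(s * l)) ≤
      Real.exp (κ + r * Real.log 4 - ∑ k, min (max 0 (cl w (x k) p)) (max 0 l)) := by
  obtain ⟨I, hI, hIM⟩ := hM s hs
  have h1 := msum hs (fun k => max 0 (cl w (x k) p)) I hI (M s) (max 0 l) hIM
  have h2 : (s : ℝ) * max 0 l ≤ s * l + r * Real.log 4 := by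
    have h3 : (s : ℝ) * max 0 l ≤ s * (l + Real.log 4) :=
      mul_le_mul_of_nonneg_left (max_le_add hl) (Nat.cast_nonneg _)
    have h4 : (s : ℝ) * Real.log 4 ≤ r * Real.log 4 :=
      mul_le_mul_of_nonneg_right (by exact_mod_cast hs) log4_nonneg
    linarith
  calc nv w ((tay p r B).coeff s) * Real.exp (-(s * l))
      ≤ Real.exp (κ - M s) * Real.exp (-(s * l)) :=
        mul_le_mul_of_nonneg_right (hB s hs) (Real.exp_pos _).le
    _ = Real.exp (κ - M s - s * l) := by rw [← Real.exp_add]; ring_nf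
    _ ≤ _ := Real.exp_le_exp.mpr (by linarith)

/-- bound for a value -/
theorem val_bd {r : ℕ} (w : Pl N) (x : Fin r → N) (p : Option N) (M : ℕ → ℝ) (κ : ℝ) (i : Fin r)
    (hp : p ≠ some (x i))
    (hM : ∀ s ≤ r, ∃ I : Finset (Fin r), I.card = r - s ∧ ∑ i ∈ I, max 0 (cl w (x i) p) ≤ M s)
    (B : N[X]) (hd : B.natDegree ≤ r)
    (hB : ∀ s ≤ r, nv w ((tay p r B).coeff s) ≤ Real.exp (κ - M s)) :
    nv w (B.eval (x i)) ≤ (r + 2) ^ 2 * sn w ![p.getD 0, 1] ^ r * sn w ![x i, 1] ^ r *
      Real.exp (κ + r * Real.log 4 - Sg w x i p) := by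
  refine eval_bound w p (x i) hp B hd _ fun s hs => ?_
  exact coeff_bd w x p M κ (cl w (x i) p) (Pool.Agent.Helper61.AD.cl_ge w (x i) p hp) hM B hB s hs

theorem exc_le {a : ℕ} (w : Pl N) (A : Finset (Option N)) (hA : A.card ≤ a) (x y : N)
    (hx : ∀ p ∈ A, p ≠ some x) (hy : ∀ p ∈ A, p ≠ some y) (p : Option N) (hp : p ∈ A) :
    exc A w x y ≤ cl w x (some y) - min (cl w x p) (cl w y p) + a * Real.log 4 := by
  classical
  unfold exc
  rw [← Finset.add_sum_erase A _ hp]
  have h1 : ∑ p' ∈ A.erase p, (-Real.log 4) ≤ ∑ p' ∈ A.erase p, min (cl w x p') (cl w y p') := by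
    refine Finset.sum_le_sum fun p' hp' => ?_
    have hp'' := Finset.mem_of_mem_erase hp'
    exact le_min (Pool.Agent.Helper61.AD.cl_ge w x p' (hx p' hp''))
      (Pool.Agent.Helper61.AD.cl_ge w y p' (hy p' hp''))
  rw [Finset.sum_const, nsmul_eq_mul] at h1
  have h4 : ((A.erase p).card : ℝ) ≤ a := by
    exact_mod_cast (Finset.card_le_card (Finset.erase_subset _ _)).trans hA
  have h5 : ((A.erase p).card : ℝ) * Real.log 4 ≤ a * Real.log 4 :=
    mul_le_mul_of_nonneg_right h4 log4_nonneg
  linarith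

end

end PLA

theorem pair_local (r a : ℕ) (c0 : ℝ) (hc0 : 0 ≤ c0) : ∃ C0 : ℝ, ∀ (N : Type u) [Field N]
    [NumberField N] (w : Pl N) (A : Finset (Option N)), A.Nonempty → A.card ≤ a →
    (∀ p ∈ A, Real.log (sn w ![p.getD 0, 1]) ≤ c0) → ∀ x : Fin r → N,
    (∀ i, ∀ p ∈ A, p ≠ some (x i)) →
    (∀ i, ∀ p ∈ A, ∀ p' ∈ A, p ≠ p' → min (cl w (x i) p) (cl w (x i) p') ≤ c0) →
    ∀ (M : Option N → ℕ → ℝ) (κ : ℝ),
    (∀ p ∈ A, ∀ s ≤ r, ∃ I : Finset (Fin r), I.card = r - s ∧
      ∑ i ∈ I, max 0 (cl w (x i) p) ≤ M p s) →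
    ∀ B B' : N[X], B.natDegree ≤ r → B'.natDegree ≤ r →
    (∀ p ∈ A, ∀ s ≤ r, nv w ((tay p r B).coeff s) ≤ Real.exp (κ - M p s)) →
    (∀ p ∈ A, ∀ s ≤ r, nv w ((tay p r B').coeff s) ≤ Real.exp (κ - M p s)) →
    ∀ i j, x i ≠ x j →
    B.eval (x i) * B'.eval (x j) - B'.eval (x i) * B.eval (x j) ≠ 0 →
    Real.log (nv w (B.eval (x i) * B'.eval (x j) - B'.eval (x i) * B.eval (x j))) ≤
      r * Real.log (sn w ![x i, 1]) + r * Real.log (sn w ![x j, 1]) + 2 * κ + C0 -
        fw A w x i - fw A w x j - exc A w (x i) (x j) := by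
  classical
  obtain ⟨c, hc1, hc⟩ := pair_bound.{u} r
  have l4 : 0 ≤ Real.log 4 := PLA.log4_nonneg
  have lc : 0 ≤ Real.log c := Real.log_nonneg hc1
  have lr : 0 ≤ Real.log ((r : ℝ) + 2) := Real.log_nonneg (by
    have : (0 : ℝ) ≤ r := Nat.cast_nonneg _
    linarith)
  have r0 : (0 : ℝ) ≤ r := Nat.cast_nonneg _
  have a0 : (0 : ℝ) ≤ a := Nat.cast_nonneg _
  refine ⟨(Real.log 4 + 4 * Real.log (r + 2) + 2 * (r * c0) + 2 * (r * Real.log 4) +
      2 * (a * r * c0) + (a * Real.log 4 + Real.log 4)) +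
    (Real.log c + 2 * (r * c0) + 2 * (r * Real.log 4) + a * Real.log 4 + 2 * (r * Real.log 4) +
      a * r * c0 + a * r * (c0 + 2 * Real.log 4)), ?_⟩
  intro N _ _ w A hAne hAa hAc x hxA hsep M κ hM B B' hBd hBd' hB hB' i j hij hne
  have lr0 : 0 ≤ (r : ℝ) * c0 := mul_nonneg r0 hc0
  have lrl : 0 ≤ (r : ℝ) * Real.log 4 := mul_nonneg r0 l4
  have lal : 0 ≤ (a : ℝ) * Real.log 4 := mul_nonneg a0 l4
  have larc : 0 ≤ (a : ℝ) * r * c0 := mul_nonneg (mul_nonneg a0 r0) hc0
  have larc2 : 0 ≤ (a : ℝ) * r * (c0 + 2 * Real.log 4) :=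
    mul_nonneg (mul_nonneg a0 r0) (by linarith)
  have pxi : 0 < sn w ![x i, 1] := by linarith [PLA.one_le w (x i)]
  have pxj : 0 < sn w ![x j, 1] := by linarith [PLA.one_le w (x j)]
  have hpos : 0 < nv w (B.eval (x i) * B'.eval (x j) - B'.eval (x i) * B.eval (x j)) :=
    Pool.Agent.Helper64.Vojta.nv_pos w hne
  obtain ⟨p, hpA, hpmax⟩ := Finset.exists_max_image A (fun p => cl w (x i) p) hAne
  have hfi : fw A w x i ≤ PLA.Sg w x i p + a * r * c0 := by
    refine PLA.fw_le w A hAa x i p hpA c0 hc0 fun p' hp' hne' => ?_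
    have h1 := hsep i p hpA p' hp' (Ne.symm hne')
    rwa [min_eq_right (hpmax p' hp')] at h1
  rcases le_or_gt (exc A w (x i) (x j)) (a * Real.log 4 + Real.log 4) with hex | hex
  · obtain ⟨q, hqA, hqmax⟩ := Finset.exists_max_image A (fun p => cl w (x j) p) hAne
    have hfj : fw A w x j ≤ PLA.Sg w x j q + a * r * c0 := by
      refine PLA.fw_le w A hAa x j q hqA c0 hc0 fun p' hp' hne' => ?_
      have h1 := hsep j q hqA p' hp' (Ne.symm hne')
      rwa [min_eq_right (hqmax p' hp')] at h1
    have pp : 0 < sn w ![p.getD 0, 1] := by linarith [PLA.one_le w (p.getD 0)]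
    have pq : 0 < sn w ![q.getD 0, 1] := by linarith [PLA.one_le w (q.getD 0)]
    have b1 := PLA.val_bd w x p (M p) κ i (hxA i p hpA) (hM p hpA) B hBd (hB p hpA)
    have b2 := PLA.val_bd w x p (M p) κ i (hxA i p hpA) (hM p hpA) B' hBd' (hB' p hpA)
    have b3 := PLA.val_bd w x q (M q) κ j (hxA j q hqA) (hM q hqA) B hBd (hB q hqA)
    have b4 := PLA.val_bd w x q (M q) κ j (hxA j q hqA) (hM q hqA) B' hBd' (hB' q hqA)
    set F : ℝ := (r + 2) ^ 2 * sn w ![p.getD 0, 1] ^ r * sn w ![x i, 1] ^ r *
      Real.exp (κ + r * Real.log 4 - PLA.Sg w x i p) with hF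
    set G : ℝ := (r + 2) ^ 2 * sn w ![q.getD 0, 1] ^ r * sn w ![x j, 1] ^ r *
      Real.exp (κ + r * Real.log 4 - PLA.Sg w x j q) with hG
    have r2 : (0 : ℝ) < r + 2 := by linarith
    have hFpos : 0 < F := by rw [hF]; positivity
    have hGpos : 0 < G := by rw [hG]; positivity
    have key : nv w (B.eval (x i) * B'.eval (x j) - B'.eval (x i) * B.eval (x j)) ≤ 4 * (F * G) := by
      rw [sub_eq_add_neg]
      refine (PLA.nv_add_le w _ _).trans ?_
      rw [PLA.nv_neg, Pool.Agent.Helper64.Vojta.nv_mul, Pool.Agent.Helper64.Vojta.nv_mul]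
      refine mul_le_mul_of_nonneg_left (max_le ?_ ?_) (by norm_num)
      · exact mul_le_mul b1 b4 (Pool.Agent.Helper64.Vojta.nv_nonneg _ _) hFpos.le
      · exact mul_le_mul b2 b3 (Pool.Agent.Helper64.Vojta.nv_nonneg _ _) hFpos.le
    have h1 := Real.log_le_log hpos key
    rw [Real.log_mul (by norm_num) (mul_pos hFpos hGpos).ne', Real.log_mul hFpos.ne' hGpos.ne'] at h1
    have hlF : Real.log F = 2 * Real.log (r + 2) + r * Real.log (sn w ![p.getD 0, 1]) +
        r * Real.log (sn w ![x i, 1]) + (κ + r * Real.log 4 - PLA.Sg w x i p) := by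
      rw [hF, Real.log_mul (by positivity) (Real.exp_pos _).ne', Real.log_mul (by positivity) (by positivity),
        Real.log_mul (by positivity) (by positivity), Real.log_exp, Real.log_pow, Real.log_pow,
        Real.log_pow]
      push_cast
      ring
    have hlG : Real.log G = 2 * Real.log (r + 2) + r * Real.log (sn w ![q.getD 0, 1]) +
        r * Real.log (sn w ![x j, 1]) + (κ + r * Real.log 4 - PLA.Sg w x j q) := by
      rw [hG, Real.log_mul (by positivity) (Real.exp_pos _).ne', Real.log_mul (by positivity) (by positivity),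
        Real.log_mul (by positivity) (by positivity), Real.log_exp, Real.log_pow, Real.log_pow,
        Real.log_pow]
      push_cast
      ring
    have hcp := mul_le_mul_of_nonneg_left (hAc p hpA) r0
    have hcq := mul_le_mul_of_nonneg_left (hAc q hqA) r0
    rw [hlF, hlG] at h1
    linarith
  · -- the close pair
    have hex' : ∀ p' ∈ A, exc A w (x i) (x j) ≤
        cl w (x i) (some (x j)) - min (cl w (x i) p') (cl w (x j) p') + a * Real.log 4 :=
      fun p' hp' => PLA.exc_le w A hAa (x i) (x j) (fun p hp => hxA i p hp) (fun p hp => hxA j p hp) p' hp'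
    have hclose1 : ∀ p' ∈ A, cl w (x j) p' ≤ cl w (x i) p' + Real.log 4 := by
      intro p' hp'
      have h1 := hex' p' hp'
      have h2 := PLA.tri w (x i) (x j) p' hij (hxA i p' hp') (hxA j p' hp')
      rcases le_total (cl w (x i) p') (cl w (x j) p') with h3 | h3
      · rw [min_eq_left h3] at h1
        rcases le_total (cl w (x j) p') (cl w (x i) (some (x j))) with h4 | h4
        · rw [min_eq_left h4] at h2; linarith
        · rw [min_eq_right h4] at h2; linarith
      · linarith
    have hclose2 : ∀ p' ∈ A, cl w (x i) p' ≤ cl w (x j) p' + Real.log 4 := by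
      intro p' hp'
      have h1 := hex' p' hp'
      have h2 := PLA.tri w (x j) (x i) p' (Ne.symm hij) (hxA j p' hp') (hxA i p' hp')
      rw [PLA.cl_symm w (x j) (x i)] at h2
      rcases le_total (cl w (x j) p') (cl w (x i) p') with h3 | h3
      · rw [min_eq_right h3] at h1
        rcases le_total (cl w (x i) p') (cl w (x i) (some (x j))) with h4 | h4
        · rw [min_eq_left h4] at h2; linarith
        · rw [min_eq_right h4] at h2; linarith
      · linarith
    have hfj : fw A w x j ≤ PLA.Sg w x j p + a * r * (c0 + 2 * Real.log 4) := by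
      refine PLA.fw_le w A hAa x j p hpA _ (by linarith) fun p' hp' hne' => ?_
      rcases le_or_gt (cl w (x j) p') c0 with h1 | h1
      · linarith
      · have h2 := hsep j p hpA p' hp' (Ne.symm hne')
        have h3 : cl w (x j) p ≤ c0 := by
          rcases min_le_iff.mp h2 with h | h
          · exact h
          · exact absurd h (not_le.mpr h1)
        have h4 := hclose2 p hpA
        have h5 := hclose1 p' hp'
        have h6 : cl w (x i) p' ≤ cl w (x i) p := hpmax p' hp'
        linarith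
    have pp : 0 < sn w ![p.getD 0, 1] := by linarith [PLA.one_le w (p.getD 0)]
    set l : ℝ := min (cl w (x i) p) (cl w (x j) p) with hl
    have hlge : -Real.log 4 ≤ l :=
      le_min (Pool.Agent.Helper61.AD.cl_ge w (x i) p (hxA i p hpA))
        (Pool.Agent.Helper61.AD.cl_ge w (x j) p (hxA j p hpA))
    set S0 : ℝ := ∑ k, min (max 0 (cl w (x k) p)) (max 0 l) with hS0
    have key := hc N w p (x i) (x j) hij (hxA i p hpA) (hxA j p hpA) B B' hBd hBd'
      (Real.exp (κ + r * Real.log 4 - S0))
      (fun s hs => PLA.coeff_bd w x p (M p) κ l hlge (hM p hpA) B (hB p hpA) s hs)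
      (fun s hs => PLA.coeff_bd w x p (M p) κ l hlge (hM p hpA) B' (hB' p hpA) s hs)
    have h1 := Real.log_le_log hpos key
    have c0' : 0 < c := by linarith
    have hlog : Real.log (c * sn w ![p.getD 0, 1] ^ (2 * r) * sn w ![x i, 1] ^ r * sn w ![x j, 1] ^ r *
        Real.exp (min (cl w (x i) p) (cl w (x j) p) - cl w (x i) (some (x j))) *
        Real.exp (κ + r * Real.log 4 - S0) ^ 2) =
        Real.log c + 2 * (r * Real.log (sn w ![p.getD 0, 1])) + r * Real.log (sn w ![x i, 1]) +
          r * Real.log (sn w ![x j, 1]) + (l - cl w (x i) (some (x j))) +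
          2 * (κ + r * Real.log 4 - S0) := by
      rw [Real.log_mul (by positivity) (by positivity), Real.log_mul (by positivity) (by positivity),
        Real.log_mul (by positivity) (by positivity), Real.log_mul (by positivity) (by positivity),
        Real.log_mul (by positivity) (by positivity), Real.log_exp, Real.log_pow, Real.log_pow,
        Real.log_pow, Real.log_pow, Real.log_exp]
      push_cast
      ring
    rw [hlog] at h1
    have hcp := mul_le_mul_of_nonneg_left (hAc p hpA) r0
    have hexp := hex' p hpA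
    rw [← hl] at hexp
    have hgen : ∀ t : ℝ, t ≤ l + Real.log 4 → ∀ k : Fin r,
        min (max 0 (cl w (x k) p)) (max 0 t) ≤ min (max 0 (cl w (x k) p)) (max 0 l) + Real.log 4 := by
      intro t ht k
      have h2 : max 0 t ≤ max 0 l + Real.log 4 := by
        refine max_le ?_ ?_
        · have := le_max_left 0 l
          linarith
        · have := le_max_right 0 l
          linarith
      rcases le_total (max 0 (cl w (x k) p)) (max 0 l) with h3 | h3
      · rw [min_eq_left h3]
        have := min_le_left (max 0 (cl w (x k) p)) (max 0 t)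
        linarith
      · rw [min_eq_right h3]
        have := min_le_right (max 0 (cl w (x k) p)) (max 0 t)
        linarith
    have hSi : PLA.Sg w x i p ≤ S0 + r * Real.log 4 := by
      have h2 : cl w (x i) p ≤ l + Real.log 4 := by
        rw [hl]
        rcases le_total (cl w (x i) p) (cl w (x j) p) with h3 | h3
        · rw [min_eq_left h3]; linarith
        · rw [min_eq_right h3]; exact hclose2 p hpA
      have h3 := Finset.sum_le_sum fun k (_ : k ∈ (Finset.univ : Finset (Fin r))) => hgen _ h2 k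
      rw [Finset.sum_add_distrib, Finset.sum_const, Finset.card_univ, Fintype.card_fin,
        nsmul_eq_mul] at h3
      exact h3
    have hSj : PLA.Sg w x j p ≤ S0 + r * Real.log 4 := by
      have h2 : cl w (x j) p ≤ l + Real.log 4 := by
        rw [hl]
        rcases le_total (cl w (x i) p) (cl w (x j) p) with h3 | h3
        · rw [min_eq_left h3]; exact hclose1 p hpA
        · rw [min_eq_right h3]; linarith
      have h3 := Finset.sum_le_sum fun k (_ : k ∈ (Finset.univ : Finset (Fin r))) => hgen _ h2 k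
      rw [Finset.sum_add_distrib, Finset.sum_const, Finset.card_univ, Fintype.card_fin,
        nsmul_eq_mul] at h3
      exact h3
    linarith

end Pool.Agent.Helper61.AD2
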