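import Pool.Agent.Helper61.AD2.EvalB
import Pool.Agent.Helper61.AD.Gauss

/-!
# Block AD2-RL: local inequality for one root

Proof. Let `L j p = max 0 (cl w (x j) p)`. For `p ∈ A`, `s ≤ r` and `λ ≥ 0`:
`∑_j min (L j p) λ ≤ M p s + s λ` (take `I` from the hypothesis; `min ≤ L` on `I`, `min ≤ λ` on the complement, which
has `s` elements). So `M p s + s * cl w (x i) p ≥ ∑_j min (L j p) (L i p) - r log 4` (`cl_ge`: `cl ≥ - log 4`, so
`s * cl ≥ s * L - r log 4`), and by `eval_bound` with `E = exp (κ + r log 4 - ∑_j min (L j p) (L i p))`: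
`log nv w (B (x i)) ≤ r log sn w ![x i,1] + κ + C - ∑_j min (L j p) (L i p)` for EVERY `p ∈ A`. Let `p` be a
point of `A` where `cl w (x i) p` is maximal; for `p' ≠ p` in `A` the separation hypothesis gives
`cl w (x i) p' ≤ c0`, so `∑_j min (cl w (x i) p') (cl w (x j) p') ≤ r * c0` and
`fw A w x i ≤ ∑_j min (L j p) (L i p) + a * r * c0`.
-/

namespace Pool.Agent.Helper61.AD2

open NumberField Finset Polynomial Module
open Pool.Agent.Helper64.Vojta (Pl nv sn above)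
open Pool.Agent.Helper61.AD (cl tay)

universe u

namespace RLA

theorem msum {r s : ℕ} (hs : s ≤ r) (L : Fin r → ℝ) (I : Finset (Fin r)) (hI : I.card = r - s)
    (M lam : ℝ) (hM : ∑ i ∈ I, L i ≤ M) : ∑ k, min (L k) lam ≤ M + s * lam := by
  classical
  have h1 : ∑ k, min (L k) lam = ∑ k ∈ I, min (L k) lam + ∑ k ∈ Iᶜ, min (L k) lam :=
    (Finset.sum_add_sum_compl I _).symm
  have h2 : ∑ k ∈ I, min (L k) lam ≤ ∑ k ∈ I, L k := Finset.sum_le_sum fun k _ => min_le_left _ _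
  have h3 : ∑ k ∈ Iᶜ, min (L k) lam ≤ ∑ k ∈ Iᶜ, lam := Finset.sum_le_sum fun k _ => min_le_right _ _
  have h4 : (Iᶜ).card = s := by
    rw [Finset.card_compl, Fintype.card_fin, hI]; omega
  rw [Finset.sum_const, h4, nsmul_eq_mul] at h3
  linarith

section

variable {N : Type u} [Field N] [NumberField N]

/-- `∑ k, min (L k p) (L i p)` -/
noncomputable def Sg {r : ℕ} (w : Pl N) (x : Fin r → N) (i : Fin r) (p : Option N) : ℝ :=
  ∑ k, min (max 0 (cl w (x k) p)) (max 0 (cl w (x i) p))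

theorem fw_le {r a : ℕ} (w : Pl N) (A : Finset (Option N)) (hA : A.card ≤ a) (x : Fin r → N) (i : Fin r)
    (p : Option N) (hp : p ∈ A) (c : ℝ) (hc : 0 ≤ c)
    (h : ∀ p' ∈ A, p' ≠ p → cl w (x i) p' ≤ c) :
    fw A w x i ≤ Sg w x i p + a * r * c := by
  classical
  unfold fw Sg
  rw [← Finset.add_sum_erase A _ hp]
  have h1 : ∑ j, min (cl w (x i) p) (cl w (x j) p) ≤
      ∑ k, min (max 0 (cl w (x k) p)) (max 0 (cl w (x i) p)) := by
    refine Finset.sum_le_sum fun k _ => ?_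
    rw [min_comm]
    exact min_le_min (le_max_right _ _) (le_max_right _ _)
  have h2 : ∑ p' ∈ A.erase p, ∑ j, min (cl w (x i) p') (cl w (x j) p') ≤
      ∑ p' ∈ A.erase p, (r * c : ℝ) := by
    refine Finset.sum_le_sum fun p' hp' => ?_
    have h3 : ∑ j, min (cl w (x i) p') (cl w (x j) p') ≤ ∑ j : Fin r, c := by
      refine Finset.sum_le_sum fun k _ => ?_
      exact (min_le_left _ _).trans (h p' (Finset.mem_of_mem_erase hp') (Finset.ne_of_mem_erase hp'))
    rwa [Finset.sum_const, Finset.card_univ, Fintype.card_fin, nsmul_eq_mul] at h3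
  rw [Finset.sum_const, nsmul_eq_mul] at h2
  have h4 : ((A.erase p).card : ℝ) ≤ a := by
    exact_mod_cast (Finset.card_le_card (Finset.erase_subset _ _)).trans hA
  have h5 : ((A.erase p).card : ℝ) * (r * c) ≤ a * (r * c) :=
    mul_le_mul_of_nonneg_right h4 (mul_nonneg (Nat.cast_nonneg _) hc)
  have h6 : (a : ℝ) * r * c = a * (r * c) := by ring
  linarith

theorem log4_nonneg : 0 ≤ Real.log 4 := Real.log_nonneg (by norm_num)

theorem max_le_add {t : ℝ} (h : -Real.log 4 ≤ t) : max 0 t ≤ t + Real.log 4 :=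
  max_le (by linarith) (by linarith [log4_nonneg])

/-- the bound for the Taylor coefficients in terms of `lam = max 0 l` -/
theorem coeff_bd {r : ℕ} (w : Pl N) (x : Fin r → N) (p : Option N) (M : ℕ → ℝ) (κ l : ℝ)
    (hl : -Real.log 4 ≤ l)
    (hM : ∀ s ≤ r, ∃ I : Finset (Fin r), I.card = r - s ∧ ∑ i ∈ I, max 0 (cl w (x i) p) ≤ M s)
    (B : N[X]) (hB : ∀ s ≤ r, nv w ((tay p r B).coeff s) ≤ Real.exp (κ - M s)) (s : ℕ) (hs : s ≤ r) :
    nv w ((tay p r B).coeff s) * Real.exp (-(s * l)) ≤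
      Real.exp (κ + r * Real.log 4 - ∑ k, min (max 0 (cl w (x k) p)) (max 0 l)) := by
  obtain ⟨I, hI, hIM⟩ := hM s hs
  have h1 := msum hs (fun k => max 0 (cl w (x k) p)) I hI (M s) (max 0 l) hIM
  have h2 : (s : ℝ) * max 0 l ≤ s * l + r * Real.log 4 := by
    have h3 : (s : ℝ) * max 0 l ≤ s * (l + Real.log 4) :=
      mul_le_mul_of_nonneg_left (max_le_add hl) (Nat.cast_nonneg _)
    have h4 : (s : ℝ) * Real.log 4 ≤ r * Real.log 4 :=
      mul_le_mul_of_nonneg_right (by exact_mod_cast hs) log4_nonneg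
    linarith
  calc nv w ((tay p r B).coeff s) * Real.exp (-(s * l))
      ≤ Real.exp (κ - M s) * Real.exp (-(s * l)) :=
        mul_le_mul_of_nonneg_right (hB s hs) (Real.exp_pos _).le
    _ = Real.exp (κ - M s - s * l) := by rw [← Real.exp_add]; ring_nf
    _ ≤ _ := Real.exp_le_exp.mpr (by linarith)

/-- bound for a value -/
theorem val_bd {r : ℕ} (w : Pl N) (x : Fin r → N) (p : Option N) (M : ℕ → ℝ) (κ : ℝ) (i : Fin r)
    (hp : p ≠ some (x i))
    (hM : ∀ s ≤ r, ∃ I : Finset (Fin r), I.card = r - s ∧ ∑ i ∈ I, max 0 (cl w (x i) p) ≤ M s)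
    (B : N[X]) (hd : B.natDegree ≤ r)
    (hB : ∀ s ≤ r, nv w ((tay p r B).coeff s) ≤ Real.exp (κ - M s)) :
    nv w (B.eval (x i)) ≤ (r + 2) ^ 2 * sn w ![p.getD 0, 1] ^ r * sn w ![x i, 1] ^ r *
      Real.exp (κ + r * Real.log 4 - Sg w x i p) := by
  refine eval_bound w p (x i) hp B hd _ fun s hs => ?_
  exact coeff_bd w x p M κ (cl w (x i) p) (Pool.Agent.Helper61.AD.cl_ge w (x i) p hp) hM B hB s hs


end

end RLA

theorem root_local (r a : ℕ) (c0 : ℝ) (hc0 : 0 ≤ c0) : ∃ C0 : ℝ, ∀ (N : Type u) [Field N]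
    [NumberField N] (w : Pl N) (A : Finset (Option N)), A.Nonempty → A.card ≤ a →
    (∀ p ∈ A, Real.log (sn w ![p.getD 0, 1]) ≤ c0) → ∀ x : Fin r → N,
    (∀ i, ∀ p ∈ A, p ≠ some (x i)) →
    (∀ i, ∀ p ∈ A, ∀ p' ∈ A, p ≠ p' → min (cl w (x i) p) (cl w (x i) p') ≤ c0) →
    ∀ (M : Option N → ℕ → ℝ) (κ : ℝ),
    (∀ p ∈ A, ∀ s ≤ r, ∃ I : Finset (Fin r), I.card = r - s ∧
      ∑ i ∈ I, max 0 (cl w (x i) p) ≤ M p s) →
    ∀ B : N[X], B.natDegree ≤ r →
    (∀ p ∈ A, ∀ s ≤ r, nv w ((tay p r B).coeff s) ≤ Real.exp (κ - M p s)) →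
    ∀ i, B.eval (x i) ≠ 0 →
    Real.log (nv w (B.eval (x i))) ≤
      r * Real.log (sn w ![x i, 1]) + κ + C0 - fw A w x i := by
  refine ⟨2 * Real.log (r + 2) + r * c0 + r * Real.log 4 + a * r * c0,
    fun N _ _ w A hAne hA hsn x hx hsep M κ hM B hd hB i hi => ?_⟩
  obtain ⟨p, hp, hmax⟩ := A.exists_max_image (fun p => cl w (x i) p) hAne
  have h1 := RLA.val_bd w x p (M p) κ i (hx i p hp) (hM p hp) B hd (hB p hp)
  have h2 := RLA.fw_le w A hA x i p hp c0 hc0 (fun p' hp' hne => by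
    have h3 := hsep i p' hp' p hp hne
    have h4 := hmax p' hp'
    rwa [min_eq_left h4] at h3)
  have hone : ∀ a : N, 1 ≤ sn w ![a, 1] := fun a => by
    have h := Pool.Agent.Helper64.Vojta.le_sn w ![a, 1] 1
    have h2 : nv w ((![a, 1] : Fin 2 → N) 1) = 1 := Pool.Agent.Helper64.Vojta.nv_one w
    rwa [h2] at h
  have hp1 : 0 < sn w ![p.getD 0, 1] := zero_lt_one.trans_le (hone _)
  have hx1 : 0 < sn w ![x i, 1] := zero_lt_one.trans_le (hone _)
  have hr2 : (0 : ℝ) < (r : ℝ) + 2 := by positivity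
  have h5 := Real.log_le_log (Pool.Agent.Helper64.Vojta.nv_pos w hi) h1
  rw [Real.log_mul (by positivity) (Real.exp_pos _).ne', Real.log_mul (by positivity) (by positivity),
    Real.log_mul (by positivity) (by positivity), Real.log_exp, Real.log_pow, Real.log_pow,
    Real.log_pow] at h5
  have h6 : (r : ℝ) * Real.log (sn w ![p.getD 0, 1]) ≤ r * c0 :=
    mul_le_mul_of_nonneg_left (hsn p hp) (Nat.cast_nonneg _)
  push_cast at h5
  linarith

end Pool.Agent.Helper61.AD2
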