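import Pool.Agent.Helper61.AD2.Defs2
import Pool.Agent.Helper61.AD.Tower

/-!
# Block AD2-SC1: two points with the same image under `b1 / b0` near a finite point

Claim: if `x ≠ y` are close enough to `p` and `b0(x) b1(y) = b1(x) b0(y)` then `|x - y| ≥ η |y - p|`.
Proof. Translate: `b0 ∘ (X + p)`, `b1 ∘ (X + p)`, `x - p`, `y - p`; so `p = 0`. Write `b0 = X^α u0`, `b1 = X^β u1`, where we may
assume `α ≤ β` (symmetry), `u0(0) ≠ 0`; divide the relation by `(x y)^α`: `a(x) h(y) = h(x) a(y)` with `a = u0`,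
`h = X^(β-α) u1`. Subtracting a multiple: `h := h - (h(0)/a(0)) a`, the relation stays, `h(0) = 0`, `h ≠ 0` because
`b0`, `b1` are not proportional (their Wronskian is not zero). `h = X^e U`, `e ≥ 1`, `U(0) ≠ 0`. With `z = x / y`:
`z^e U(x) a(y) = U(y) a(x)`, so `(z^e - 1) U(x) a(y) = U(y) a(x) - U(x) a(y) = O(|x - y|) = O(|z - 1| |y|)`, and
`z^e - 1 = (z - 1) G(z)`, `G(1) = e ≠ 0`. If `|z - 1|` and `|x|, |y|` are small this is false.
All constants are uniform over all places of all extensions of degree `≤ D` (`exists_bound`).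
-/

namespace Pool.Agent.Helper61.AD2

open NumberField Finset Polynomial Module
open Pool.Agent.Helper64.Vojta (Pl nv sn above)
open Pool.Agent.Helper61.AD (cl tay)

universe u

namespace WA

section basic

variable {N : Type*} [Field N] [NumberField N]

theorem nv_pow (w : Pl N) (x : N) (n : ℕ) : nv w (x ^ n) = nv w x ^ n := by
  induction n with
  | zero => simp [Pool.Agent.Helper64.Vojta.nv_one]
  | succ n ih => rw [pow_succ, Pool.Agent.Helper64.Vojta.nv_mul, ih, pow_succ]

theorem nv_neg (w : Pl N) (x : N) : nv w (-x) = nv w x := by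
  rcases w with w | w
  · change w (-x) ^ w.mult = w x ^ w.mult
    congr 1
    exact w.1.map_neg x
  · simp [nv]

theorem nv_add (w : Pl N) (a b : N) (B : ℝ) (hB : 0 ≤ B) (ha : nv w a ≤ B) (hb : nv w b ≤ B) :
    nv w (a + b) ≤ 9 * B := by
  have h := Pool.Agent.Helper64.Vojta.nv_sum_le w (Finset.univ : Finset (Fin 2)) ![a, b] B hB
    (by intro i _; fin_cases i <;> simpa)
  simp only [Fin.sum_univ_two, Matrix.cons_val_zero, Matrix.cons_val_one, Finset.card_univ,
    Fintype.card_fin] at h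
  calc nv w (a + b) ≤ ((2 : ℕ) + 1 : ℝ) ^ 2 * B := h
    _ = 9 * B := by norm_num

theorem nv_sub (w : Pl N) (a b : N) (B : ℝ) (hB : 0 ≤ B) (ha : nv w a ≤ B) (hb : nv w b ≤ B) :
    nv w (a - b) ≤ 9 * B := by
  rw [sub_eq_add_neg]
  exact nv_add w a (-b) B hB ha (by rwa [nv_neg])

end basic

section unif

variable {K : Type u} [Field K] [NumberField K]

/-- Lipschitz bound, uniform over the extensions of bounded degree. -/
theorem lip (P : K[X]) (R : ℝ) (hR : 1 ≤ R) (D : ℕ) : ∃ C : ℝ, 1 ≤ C ∧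
    ∀ (N : Type u) [Field N] [NumberField N] [Algebra K N], finrank K N ≤ D →
      ∀ (w : Pl N) (x y : N), nv w x ≤ R → nv w y ≤ R →
      nv w (aeval x P - aeval y P) ≤ C * nv w (x - y) := by
  induction P using Polynomial.induction_on' with
  | add p q hp hq =>
    obtain ⟨C1, h1, hC1⟩ := hp
    obtain ⟨C2, h2, hC2⟩ := hq
    refine ⟨9 * max C1 C2, ?_, ?_⟩
    · have := le_max_left C1 C2
      linarith
    · intro N _ _ _ hN w x y hx hy
      have e : aeval x (p + q) - aeval y (p + q) = (aeval x p - aeval y p) + (aeval x q - aeval y q) := by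
        simp only [map_add]; ring
      have h0 := Pool.Agent.Helper64.Vojta.nv_nonneg w (x - y)
      rw [e]
      have hm1 : C1 * nv w (x - y) ≤ max C1 C2 * nv w (x - y) :=
        mul_le_mul_of_nonneg_right (le_max_left _ _) h0
      have hm2 : C2 * nv w (x - y) ≤ max C1 C2 * nv w (x - y) :=
        mul_le_mul_of_nonneg_right (le_max_right _ _) h0
      have hmp : 0 ≤ max C1 C2 := le_trans (by linarith) (le_max_left C1 C2)
      have := nv_add w _ _ (max C1 C2 * nv w (x - y)) (mul_nonneg hmp h0)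
        ((hC1 N hN w x y hx hy).trans hm1) ((hC2 N hN w x y hx hy).trans hm2)
      calc _ ≤ _ := this
        _ = _ := by ring
  | monomial n c =>
    obtain ⟨C, hC1, hC⟩ := Pool.Agent.Helper64.Vojta.exists_bound.{u, u} c D
    refine ⟨C * ((n + 1 : ℝ) ^ 2 * R ^ (n - 1)), ?_, ?_⟩
    · have h1 : (1 : ℝ) ≤ (n + 1 : ℝ) ^ 2 := by
        have : (0 : ℝ) ≤ n := Nat.cast_nonneg _
        nlinarith
      have h2 : (1 : ℝ) ≤ R ^ (n - 1) := one_le_pow₀ hR
      exact one_le_mul_of_one_le_of_one_le hC1 (one_le_mul_of_one_le_of_one_le h1 h2)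
    · intro N _ _ _ hN w x y hx hy
      have e : aeval x (monomial n c) - aeval y (monomial n c) =
          algebraMap K N c * ((∑ i ∈ range n, x ^ i * y ^ (n - 1 - i)) * (x - y)) := by
        rw [aeval_monomial, aeval_monomial, (Commute.all x y).geom_sum₂_mul]; ring
      rw [e, Pool.Agent.Helper64.Vojta.nv_mul, Pool.Agent.Helper64.Vojta.nv_mul]
      have h0 := Pool.Agent.Helper64.Vojta.nv_nonneg w (x - y)
      have hx0 := Pool.Agent.Helper64.Vojta.nv_nonneg w x
      have hy0 := Pool.Agent.Helper64.Vojta.nv_nonneg w y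
      have hR0 : (0 : ℝ) ≤ R := by linarith
      have hs : nv w (∑ i ∈ range n, x ^ i * y ^ (n - 1 - i)) ≤ ((range n).card + 1 : ℝ) ^ 2 * R ^ (n - 1) := by
        refine Pool.Agent.Helper64.Vojta.nv_sum_le w (range n) _ _ (pow_nonneg hR0 _) ?_
        intro i hi
        rw [Finset.mem_range] at hi
        rw [Pool.Agent.Helper64.Vojta.nv_mul, nv_pow, nv_pow]
        calc nv w x ^ i * nv w y ^ (n - 1 - i) ≤ R ^ i * R ^ (n - 1 - i) :=
              mul_le_mul (pow_le_pow_left₀ hx0 hx i) (pow_le_pow_left₀ hy0 hy _)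
                (pow_nonneg hy0 _) (pow_nonneg hR0 _)
          _ = R ^ (n - 1) := by rw [← pow_add]; congr 1; omega
      rw [Finset.card_range] at hs
      calc nv w (algebraMap K N c) * (nv w (∑ i ∈ range n, x ^ i * y ^ (n - 1 - i)) * nv w (x - y))
          ≤ C * (((n + 1 : ℝ) ^ 2 * R ^ (n - 1)) * nv w (x - y)) := by
            apply mul_le_mul (hC N hN w) _ _ (by linarith)
            · exact mul_le_mul_of_nonneg_right hs h0
            · exact mul_nonneg (Pool.Agent.Helper64.Vojta.nv_nonneg _ _) h0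
        _ = _ := by ring

/-- upper bound -/
theorem bdd (P : K[X]) (R : ℝ) (hR : 1 ≤ R) (D : ℕ) : ∃ C : ℝ, 1 ≤ C ∧
    ∀ (N : Type u) [Field N] [NumberField N] [Algebra K N], finrank K N ≤ D →
      ∀ (w : Pl N) (x : N), nv w x ≤ R → nv w (aeval x P) ≤ C := by
  obtain ⟨C, hC1, hC⟩ := lip P R hR D
  obtain ⟨C', hC1', hC'⟩ := Pool.Agent.Helper64.Vojta.exists_bound.{u, u} (P.eval 0) D
  refine ⟨9 * max (C * R) C', ?_, ?_⟩
  · have := le_max_right (C * R) C'
    linarith
  · intro N _ _ _ hN w x hx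
    have h0 : nv w (0 : N) ≤ R := by
      rw [Pool.Agent.Helper64.Vojta.nv_zero]; linarith
    have h1 := hC N hN w x 0 hx h0
    rw [sub_zero] at h1
    have h2 := hC' N hN w
    have e0 : aeval (0 : N) P = algebraMap K N (P.eval 0) := by
      rw [← map_zero (algebraMap K N), Polynomial.aeval_algebraMap_apply, Polynomial.coe_aeval_eq_eval]
    have e : aeval x P = (aeval x P - aeval 0 P) + algebraMap K N (P.eval 0) := by
      rw [← e0]; ring
    have h3 : C * nv w x ≤ C * R := mul_le_mul_of_nonneg_left hx (by linarith)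
    rw [e]
    refine nv_add w _ _ _ ?_ (h1.trans (h3.trans (le_max_left _ _))) (h2.trans (le_max_right _ _))
    exact le_trans (by linarith) (le_max_right (C * R) C')

/-- lower bound near a point where the polynomial is not zero -/
theorem low (P : K[X]) (q : K) (hq : P.eval q ≠ 0) (D : ℕ) : ∃ ρ c : ℝ, 0 < ρ ∧ ρ ≤ 1 ∧ 0 < c ∧
    ∀ (N : Type u) [Field N] [NumberField N] [Algebra K N], finrank K N ≤ D →
      ∀ (w : Pl N) (x : N), nv w (x - algebraMap K N q) ≤ ρ → c ≤ nv w (aeval x P) := by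
  obtain ⟨Cq, hq1, hCq⟩ := Pool.Agent.Helper64.Vojta.exists_bound.{u, u} q D
  obtain ⟨Ci, hi1, hCi⟩ := Pool.Agent.Helper64.Vojta.exists_bound.{u, u} (P.eval q)⁻¹ D
  obtain ⟨C, hC1, hC⟩ := lip P (9 * Cq) (by linarith) D
  have hCip : 0 < Ci := by linarith
  have hCp : 0 < C := by linarith
  refine ⟨1 / (10 * C * Ci), 1 / (10 * Ci), by positivity, ?_, by positivity, ?_⟩
  · rw [div_le_one (by positivity)]
    nlinarith
  · intro N _ _ _ hN w x hx
    by_contra hcon
    push Not at hcon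
    have hρ1 : 1 / (10 * C * Ci) ≤ 1 := by
      rw [div_le_one (by positivity)]
      nlinarith
    have hxR : nv w x ≤ 9 * Cq := by
      have e : x = (x - algebraMap K N q) + algebraMap K N q := by ring
      rw [e]
      exact nv_add w _ _ Cq (by linarith) (by linarith) (hCq N hN w)
    have h1 := hC N hN w x (algebraMap K N q) hxR ((hCq N hN w).trans (by linarith))
    have e0 : aeval (algebraMap K N q) P = algebraMap K N (P.eval q) := by
      rw [Polynomial.aeval_algebraMap_apply, Polynomial.coe_aeval_eq_eval]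
    rw [e0] at h1
    have h2 : nv w (aeval x P - algebraMap K N (P.eval q)) ≤ 1 / (10 * Ci) := by
      refine h1.trans ?_
      calc C * nv w (x - algebraMap K N q) ≤ C * (1 / (10 * C * Ci)) :=
            mul_le_mul_of_nonneg_left hx hCp.le
        _ = 1 / (10 * Ci) := by field_simp
    have h3 : nv w (algebraMap K N (P.eval q)) ≤ 9 * (1 / (10 * Ci)) := by
      have e : algebraMap K N (P.eval q) = aeval x P - (aeval x P - algebraMap K N (P.eval q)) := by ring
      rw [e]
      exact nv_sub w _ _ _ (by positivity) hcon.le h2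
    have h4 := hCi N hN w
    rw [map_inv₀, Pool.Agent.Helper64.Vojta.nv_inv] at h4
    have hpos : 0 < nv w (algebraMap K N (P.eval q)) :=
      Pool.Agent.Helper64.Vojta.nv_pos w (by simpa using hq)
    have h5 : 1 ≤ Ci * nv w (algebraMap K N (P.eval q)) := by
      rw [inv_le_iff_one_le_mul₀ hpos] at h4
      linarith
    have h6 : Ci * nv w (algebraMap K N (P.eval q)) ≤ Ci * (9 * (1 / (10 * Ci))) :=
      mul_le_mul_of_nonneg_left h3 hCip.le
    have h7 : Ci * (9 * (1 / (10 * Ci))) = 9 / 10 := by field_simp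
    linarith

end unif

section alg

variable {K : Type u} [Field K]

theorem wr_swap (b0 b1 : K[X]) : wr b1 b0 = -wr b0 b1 := by
  unfold wr; ring

/-- split off the power of `X` -/
theorem split_X (P : K[X]) (hP : P ≠ 0) : ∃ (n : ℕ) (U : K[X]), P = X ^ n * U ∧ U.eval 0 ≠ 0 := by
  obtain ⟨q, hq, hnd⟩ := Polynomial.exists_eq_pow_rootMultiplicity_mul_and_not_dvd P hP 0
  rw [C_0, sub_zero] at hq hnd
  refine ⟨_, q, hq, ?_⟩
  intro h
  exact hnd (Polynomial.X_dvd_iff.mpr (by rwa [Polynomial.coeff_zero_eq_eval_zero]))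

theorem alg_aux (b0 b1 : K[X]) (hW : wr b0 b1 ≠ 0) (α γ : ℕ) (u0 u1 : K[X])
    (h0 : b0 = X ^ α * u0) (hu0 : u0.eval 0 ≠ 0) (h1 : b1 = X ^ (α + γ) * u1) :
    ∃ (a U : K[X]) (e : ℕ), a.eval 0 ≠ 0 ∧ U.eval 0 ≠ 0 ∧ 1 ≤ e ∧
      ∀ (N : Type u) [Field N] [Algebra K N] (x y : N), x ≠ 0 → y ≠ 0 →
        aeval x b0 * aeval y b1 - aeval x b1 * aeval y b0 = 0 →
        aeval x a * (y ^ e * aeval y U) = (x ^ e * aeval x U) * aeval y a := by
  set h' : K[X] := X ^ γ * u1 with hh'
  have h1' : b1 = X ^ α * h' := by rw [h1, hh', pow_add, mul_assoc]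
  set c : K := h'.eval 0 / u0.eval 0 with hc
  set h : K[X] := h' - C c * u0 with hh
  have hne : h ≠ 0 := by
    intro hz
    have e1 : h' = C c * u0 := by rw [← sub_eq_zero]; exact hz
    have e2 : b1 = C c * b0 := by rw [h1', e1, h0]; ring
    apply hW
    unfold wr
    rw [e2, derivative_C_mul]; ring
  have hz : h.eval 0 = 0 := by
    rw [hh, eval_sub, eval_C_mul, hc, div_mul_cancel₀ _ hu0, sub_self]
  obtain ⟨e, U, hU, hU0⟩ := split_X h hne
  refine ⟨u0, U, e, hu0, hU0, ?_, ?_⟩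
  · rcases Nat.eq_zero_or_pos e with he | he
    · exfalso
      rw [he, pow_zero, one_mul] at hU
      rw [hU] at hz
      exact hU0 hz
    · exact he
  · intro N _ _ x y hx hy hrel
    have e1 : ∀ t : N, aeval t b0 = t ^ α * aeval t u0 := fun t => by rw [h0]; simp
    have e2 : ∀ t : N, aeval t b1 = t ^ α * aeval t h' := fun t => by rw [h1']; simp
    have e3 : ∀ t : N, t ^ e * aeval t U = aeval t h' - algebraMap K N c * aeval t u0 := fun t => by
      have : aeval t h = t ^ e * aeval t U := by rw [hU]; simp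
      rw [← this, hh]; simp
    rw [e1, e1, e2, e2] at hrel
    have h4 : (x ^ α * y ^ α) * (aeval x u0 * aeval y h' - aeval x h' * aeval y u0) = 0 := by
      rw [← hrel]; ring
    have h5 : aeval x u0 * aeval y h' - aeval x h' * aeval y u0 = 0 := by
      rcases mul_eq_zero.mp h4 with h6 | h6
      · exact absurd h6 (mul_ne_zero (pow_ne_zero _ hx) (pow_ne_zero _ hy))
      · exact h6
    rw [e3, e3]
    linear_combination h5

theorem alg_main (b0 b1 : K[X]) (hW : wr b0 b1 ≠ 0) :
    ∃ (a U : K[X]) (e : ℕ), a.eval 0 ≠ 0 ∧ U.eval 0 ≠ 0 ∧ 1 ≤ e ∧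
      ∀ (N : Type u) [Field N] [Algebra K N] (x y : N), x ≠ 0 → y ≠ 0 →
        aeval x b0 * aeval y b1 - aeval x b1 * aeval y b0 = 0 →
        aeval x a * (y ^ e * aeval y U) = (x ^ e * aeval x U) * aeval y a := by
  have hb0 : b0 ≠ 0 := by rintro rfl; apply hW; simp [wr]
  have hb1 : b1 ≠ 0 := by rintro rfl; apply hW; simp [wr]
  obtain ⟨α, u0, h0, hu0⟩ := split_X b0 hb0
  obtain ⟨β, u1, h1, hu1⟩ := split_X b1 hb1
  rcases le_total α β with hab | hab
  · obtain ⟨γ, rfl⟩ := Nat.exists_eq_add_of_le hab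
    exact alg_aux b0 b1 hW α γ u0 u1 h0 hu0 h1
  · obtain ⟨γ, rfl⟩ := Nat.exists_eq_add_of_le hab
    obtain ⟨a, U, e, ha, hU, he, H⟩ := alg_aux b1 b0 (by rw [wr_swap]; exact neg_ne_zero.mpr hW) β γ u1 u0 h1 hu1 h0
    refine ⟨a, U, e, ha, hU, he, ?_⟩
    intro N _ _ x y hx hy hrel
    apply H N x y hx hy
    rw [← neg_eq_zero, ← hrel]; ring

end alg

section core

variable {K : Type u} [Field K] [NumberField K]

theorem core (b0 b1 : K[X]) (hW : wr b0 b1 ≠ 0) (D : ℕ) :
    ∃ δ η : ℝ, 0 < δ ∧ 0 < η ∧ ∀ (N : Type u) [Field N] [NumberField N] [Algebra K N],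
      finrank K N ≤ D → ∀ (w : Pl N) (x y : N), x ≠ y → x ≠ 0 → y ≠ 0 →
      nv w x ≤ δ → nv w y ≤ δ →
      aeval x b0 * aeval y b1 - aeval x b1 * aeval y b0 = 0 →
      η * nv w y ≤ nv w (x - y) := by
  obtain ⟨a, U, e, ha, hU, he, H⟩ := alg_main b0 b1 hW
  set G : K[X] := ∑ i ∈ range e, X ^ i with hG
  have hG1 : G.eval 1 ≠ 0 := by
    rw [hG, eval_finsetSum]
    simp only [eval_pow, eval_X, one_pow, Finset.sum_const, Finset.card_range, nsmul_eq_mul, mul_one]
    exact_mod_cast (by omega : e ≠ 0)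
  obtain ⟨ρU, cU, hρU, hρU1, hcU, HU⟩ := low U 0 hU D
  obtain ⟨ρa, ca, hρa, hρa1, hca, Ha⟩ := low a 0 ha D
  obtain ⟨ρG, cG, hρG, hρG1, hcG, HG⟩ := low G 1 hG1 D
  obtain ⟨LU, hLU1, HLU⟩ := lip U 1 le_rfl D
  obtain ⟨La, hLa1, HLa⟩ := lip a 1 le_rfl D
  obtain ⟨BU, hBU1, HBU⟩ := bdd U 1 le_rfl D
  obtain ⟨Ba, hBa1, HBa⟩ := bdd a 1 le_rfl D
  set M : ℝ := max (BU * La) (Ba * LU) with hM
  have hM0 : 0 < M := lt_of_lt_of_le (by positivity) (le_max_left _ _)
  set δ : ℝ := min (min ρU ρa) (cG * (cU * ca) / (10 * M)) with hδ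
  have hδ0 : 0 < δ := lt_min (lt_min hρU hρa) (by positivity)
  refine ⟨δ, ρG, hδ0, hρG, ?_⟩
  intro N _ _ _ hN w x y hxy hx hy hxδ hyδ hrel
  by_contra hcon
  push Not at hcon
  have hy0 : 0 < nv w y := Pool.Agent.Helper64.Vojta.nv_pos w hy
  have hxy0 : 0 < nv w (x - y) := Pool.Agent.Helper64.Vojta.nv_pos w (sub_ne_zero.mpr hxy)
  have hδU : δ ≤ ρU := (min_le_left _ _).trans (min_le_left _ _)
  have hδa : δ ≤ ρa := (min_le_left _ _).trans (min_le_right _ _)
  have hδM : δ ≤ cG * (cU * ca) / (10 * M) := min_le_right _ _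
  have hx1 : nv w x ≤ 1 := by linarith
  have hy1 : nv w y ≤ 1 := by linarith
  -- the quotient
  set z : N := x / y with hz
  have hxz : x = z * y := by rw [hz]; field_simp
  have hz1 : nv w (z - 1) ≤ ρG := by
    have e1 : z - 1 = (x - y) * y⁻¹ := by rw [hz]; field_simp
    rw [e1, Pool.Agent.Helper64.Vojta.nv_mul, Pool.Agent.Helper64.Vojta.nv_inv]
    rw [← div_eq_mul_inv, div_le_iff₀ hy0]
    exact hcon.le
  have hGz : cG ≤ nv w (aeval z G) := HG N hN w z (by simpa using hz1)
  have hUx : cU ≤ nv w (aeval x U) := HU N hN w x (by simpa using hxδ.trans hδU)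
  have hay : ca ≤ nv w (aeval y a) := Ha N hN w y (by simpa using hyδ.trans hδa)
  have hrel' := H N x y hx hy hrel
  -- z ^ e U(x) a(y) = U(y) a(x)
  have h1 : (z ^ e - 1) * (aeval x U * aeval y a) = aeval y U * aeval x a - aeval x U * aeval y a := by
    have hye : y ^ e ≠ 0 := pow_ne_zero _ hy
    have h2 : y ^ e * (z ^ e * (aeval x U * aeval y a)) = y ^ e * (aeval y U * aeval x a) := by
      have : x ^ e = z ^ e * y ^ e := by rw [hxz, mul_pow]
      rw [this] at hrel'
      linear_combination -hrel'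
    have h3 := mul_left_cancel₀ hye h2
    rw [sub_mul, h3, one_mul]
  have h2 : z ^ e - 1 = aeval z G * (z - 1) := by
    rw [hG, map_sum]
    simp only [map_pow, aeval_X]
    exact (geom_sum_mul z e).symm
  -- upper bound
  have h3 : aeval y U * aeval x a - aeval x U * aeval y a =
      aeval y U * (aeval x a - aeval y a) - aeval y a * (aeval x U - aeval y U) := by ring
  have h4 : nv w (aeval y U * aeval x a - aeval x U * aeval y a) ≤ 9 * (M * nv w (x - y)) := by
    rw [h3]
    refine nv_sub w _ _ _ (by positivity) ?_ ?_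
    · rw [Pool.Agent.Helper64.Vojta.nv_mul]
      calc nv w (aeval y U) * nv w (aeval x a - aeval y a) ≤ BU * (La * nv w (x - y)) :=
            mul_le_mul (HBU N hN w y hy1) (HLa N hN w x y hx1 hy1)
              (Pool.Agent.Helper64.Vojta.nv_nonneg _ _) (by linarith)
        _ = (BU * La) * nv w (x - y) := by ring
        _ ≤ M * nv w (x - y) := mul_le_mul_of_nonneg_right (le_max_left _ _) hxy0.le
    · rw [Pool.Agent.Helper64.Vojta.nv_mul]
      calc nv w (aeval y a) * nv w (aeval x U - aeval y U) ≤ Ba * (LU * nv w (x - y)) :=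
            mul_le_mul (HBa N hN w y hy1) (HLU N hN w x y hx1 hy1)
              (Pool.Agent.Helper64.Vojta.nv_nonneg _ _) (by linarith)
        _ = (Ba * LU) * nv w (x - y) := by ring
        _ ≤ M * nv w (x - y) := mul_le_mul_of_nonneg_right (le_max_right _ _) hxy0.le
  -- lower bound
  have hz1y : nv w (z - 1) * nv w y = nv w (x - y) := by
    rw [← Pool.Agent.Helper64.Vojta.nv_mul]
    congr 1
    rw [sub_mul, one_mul, ← hxz]
  have hz10 : 0 < nv w (z - 1) := by
    by_contra h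
    push Not at h
    have : nv w (z - 1) = 0 := le_antisymm h (Pool.Agent.Helper64.Vojta.nv_nonneg _ _)
    rw [this, zero_mul] at hz1y
    linarith
  rw [← h1, h2, Pool.Agent.Helper64.Vojta.nv_mul, Pool.Agent.Helper64.Vojta.nv_mul,
    Pool.Agent.Helper64.Vojta.nv_mul, ← hz1y] at h4
  have h5 : (cG * nv w (z - 1)) * (cU * ca) ≤
      nv w (aeval z G) * nv w (z - 1) * (nv w (aeval x U) * nv w (aeval y a)) := by
    apply mul_le_mul
    · exact mul_le_mul_of_nonneg_right hGz hz10.le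
    · exact mul_le_mul hUx hay hca.le (Pool.Agent.Helper64.Vojta.nv_nonneg _ _)
    · positivity
    · exact mul_nonneg (Pool.Agent.Helper64.Vojta.nv_nonneg _ _) hz10.le
  have h6 : (cG * (cU * ca)) * nv w (z - 1) ≤ (9 * M * nv w y) * nv w (z - 1) := by
    calc (cG * (cU * ca)) * nv w (z - 1) = (cG * nv w (z - 1)) * (cU * ca) := by ring
      _ ≤ _ := h5
      _ ≤ 9 * (M * (nv w (z - 1) * nv w y)) := h4
      _ = _ := by ring
  have h7 : cG * (cU * ca) ≤ 9 * M * nv w y := le_of_mul_le_mul_right h6 hz10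
  have h8 : 9 * M * nv w y ≤ 9 * M * (cG * (cU * ca) / (10 * M)) :=
    mul_le_mul_of_nonneg_left (hyδ.trans hδM) (by positivity)
  have h9 : 9 * M * (cG * (cU * ca) / (10 * M)) = 9 / 10 * (cG * (cU * ca)) := by
    field_simp
  have h10 : 0 < cG * (cU * ca) := by positivity
  linarith

end core

end WA

theorem wron_near {K : Type u} [Field K] [NumberField K] (b0 b1 : K[X]) (hW : wr b0 b1 ≠ 0)
    (v : Pl K) (p : K) (D : ℕ) :
    ∃ δ η : ℝ, 0 < δ ∧ 0 < η ∧ ∀ (N : Type u) [Field N] [NumberField N] [Algebra K N],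
      finrank K N ≤ D → ∀ w ∈ above N v, ∀ x y : N, x ≠ y →
      x ≠ algebraMap K N p → y ≠ algebraMap K N p →
      nv w (x - algebraMap K N p) ≤ δ → nv w (y - algebraMap K N p) ≤ δ →
      aeval x b0 * aeval y b1 - aeval x b1 * aeval y b0 = 0 →
      η * nv w (y - algebraMap K N p) ≤ nv w (x - y) := by
  have hd : ∀ b : K[X], derivative (b.comp (X + C p)) = (derivative b).comp (X + C p) := by
    intro b
    rw [derivative_comp]; simp
  have hW' : wr (b0.comp (X + C p)) (b1.comp (X + C p)) ≠ 0 := by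
    have e : wr (b0.comp (X + C p)) (b1.comp (X + C p)) = (wr b0 b1).comp (X + C p) := by
      unfold wr
      rw [hd, hd]; simp
    rw [e]
    intro h
    exact hW ((Polynomial.comp_eq_zero_iff.mp h).resolve_right (by
      rintro ⟨_, h2⟩
      have := congrArg Polynomial.natDegree h2
      simp at this))
  obtain ⟨δ, η, hδ, hη, H⟩ := WA.core _ _ hW' D
  refine ⟨δ, η, hδ, hη, ?_⟩
  intro N _ _ _ hN w _ x y hxy hxp hyp hx hy hrel
  have ec : ∀ (b : K[X]) (t : N), aeval (t - algebraMap K N p) (b.comp (X + C p)) = aeval t b := by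
    intro b t
    rw [aeval_comp]; simp
  have h := H N hN w (x - algebraMap K N p) (y - algebraMap K N p) (by simpa using hxy)
    (sub_ne_zero.mpr hxp) (sub_ne_zero.mpr hyp) hx hy (by rw [ec, ec, ec, ec]; exact hrel)
  rwa [sub_sub_sub_cancel_right] at h

end Pool.Agent.Helper61.AD2
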